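import Pool.Agent.Lib.MP_361a6f_ag.FL.E5.DefsX
import Pool.Agent.Lib.MP_361a6f_ag.FL.E.K2

/-!
# Theorem K4 (E5): the assembly (row W5X)
-/

set_option autoImplicit false
set_option linter.unusedSectionVars false

open Filter Topology

namespace Pool.Agent.Lib.MP_361a6f_ag.FL.E

namespace Wfx

variable {I Λ : Type} [Fintype I] [DecidableEq I] [DecidableEq Λ] {D : Dat I Λ}
  {At : (L : ℕ) → Ten I L → Prop} {Γ : Set (Matrix I I ℂ)}

theorem map_congr {I : Type} {a l : I → ℂ} (h : ∀ i j, a i = a j → l i = l j) :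
    ∀ v w : List I, v.map a = w.map a → v.map l = w.map l
  | [], [], _ => rfl
  | [], _ :: _, h' => by simp at h'
  | _ :: _, [], h' => by simp at h'
  | i :: v, j :: w, h' => by
    rw [List.map_cons, List.map_cons] at h' ⊢
    obtain ⟨h1, h2⟩ := List.cons.inj h'
    rw [h _ _ h1, map_congr h v w h2]

/-- the calculus depends only on the partition -/
theorem calc_congr {I : Type} {τ : I → I} {a l : I → ℂ} {G : ℤˣ → List I → Prop}
    (h : ∀ i j, a i = a j → l i = l j) (c : Calc τ l G) : Calc τ a G :=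
  ⟨c.nil, c.perm, c.app, c.neg, c.pair, fun ε v w hvw => c.blk ε v w (map_congr h v w hvw),
    c.can, c.four⟩

theorem a_tau {a : I → ℂ} (h : IsLie D (Matrix.diagonal a)) (i : I) : a (D.τ i) = -a i := by
  have h1 := congrFun (congrFun h.2 i) (D.τ i)
  rw [Matrix.diagonal_transpose, Matrix.add_apply, Matrix.mul_diagonal, Matrix.diagonal_mul] at h1
  simp only [Psi, Matrix.of_apply, if_true, Matrix.zero_apply] at h1
  have h2 : D.s i ≠ 0 := by
    rcases D.s_val i with h | h <;> rw [h]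
    · exact one_ne_zero
    · exact neg_ne_zero.2 one_ne_zero
  have h3 : (a i + a (D.τ i)) * D.s i = 0 := by linear_combination h1
  rcases mul_eq_zero.1 h3 with h4 | h4
  · linear_combination h4
  · exact absurd h4 h2

/-- a property of the words of the members holds for the words of the tensors of the span -/
theorem word_span {ι : Type} [Fintype ι] {len : ι → ℕ} {t s : Tup I len} {x : Matrix I I ℂ}
    (hx2 : x⁻¹ * x = 1) (hxs : gS x s = t) {Q : (L : ℕ) → (Fin L → I) → Prop}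
    (hQ : ∀ i w, s i w ≠ 0 → Q (len i) w) {L : ℕ} {u : Ten I L}
    (hu : u ∈ Submodule.span ℂ {v : Ten I L | ∃ i, ∃ h : len i = L, v = h ▸ t i})
    {w : Fin L → I} (hw : gT x⁻¹ u w ≠ 0) : Q L w := by
  by_contra hcon
  apply hw
  clear hw
  induction hu using Submodule.span_induction with
  | mem u hu =>
    obtain ⟨i, rfl, rfl⟩ := hu
    have h1 : gT x (s i) = t i := congrFun hxs i
    change gT x⁻¹ (t i) w = 0
    rw [← h1, ← alg1.gT_mul, hx2, alg1.gT_one]
    by_contra h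
    exact hcon (hQ i w h)
  | zero => rw [Six.gT_zero]; rfl
  | add a b _ _ ha hb => rw [alg1.gT_add, Pi.add_apply, ha, hb, add_zero]
  | smul c a _ ha => rw [alg1.gT_smul, Pi.smul_apply, ha, smul_zero]

end Wfx

/-- Row W5X. -/
theorem w5x : W5XStatement := by
  intro w1x w2 r4 p2 p3 g4 g4b I Λ _ _ _ D At Bt l Γ β _ lb b hE hF hiso L hK u hu hu0
  obtain ⟨M, hM⟩ := hK
  obtain ⟨ι, _, len, t, s, x, k, h, G, hC, hwd⟩ := w1x D At Bt l Γ lb b hE hF (max (max L M) 2)
  have hL := h.lvl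
  have hk := hL.cpt.1
  obtain ⟨a, ha, har, haS⟩ := p3 D s l hE.typ_eq hE.odd hE.tau hE.ratio hL.fix
  have com := g4b D At Bt l Γ lb b hE _ (le_max_right (max L M) 2) len t s x k h
  obtain ⟨hxi, hx1, hx2⟩ := alg1.G_inv D x hL.grp
  have hCa : Calc D.τ a G := Wfx.calc_congr (fun i j => (ha i j).1) hC
  -- stable subspaces
  have hst : ∀ U : Submodule ℂ (I → ℂ), (∀ A ∈ stab D s, ∀ v ∈ U, A.mulVec v ∈ U) →
      (∀ e ∈ {e | ∃ z, At 2 z ∧ e = opM D z}, ∀ v ∈ U, e.mulVec v ∈ U) →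
      StabU D At Γ (U.map (Matrix.toLin' x)) := by
    intro U h1 h2
    exact Hsix.stabU_map hx1 (fun z hz => (com z hz).2.2) (fun z hz => h2 _ ⟨z, hz, rfl⟩)
      (g4 D s (Hsix.conjS Γ x) hL.min
        (Hsix.conjS_fix hL.grp hL.eq hE.grp hE.gfix hL.mem) U h1)
  have hinj : Function.Injective (Matrix.toLin' x) := by
    intro v w hvw
    have h1 := congrArg (Matrix.toLin' x⁻¹) hvw
    rwa [← LinearMap.comp_apply, ← LinearMap.comp_apply, ← Matrix.toLin'_mul, hx2,
      Matrix.toLin'_one, LinearMap.id_apply, LinearMap.id_apply] at h1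
  have hbot : ∀ U : Submodule ℂ (I → ℂ), U.map (Matrix.toLin' x) = ⊥ → U = ⊥ := by
    intro U h1
    rw [eq_bot_iff]
    intro v hv
    have h2 : Matrix.toLin' x v ∈ U.map (Matrix.toLin' x) := ⟨v, hv, rfl⟩
    rw [h1, Submodule.mem_bot] at h2
    rw [Submodule.mem_bot]
    exact hinj (by rw [h2, map_zero])
  obtain ⟨B, _, _, π, 𝓜, hsum, hmul, hcom, hM0, hMs, hw⟩ :=
    r4 (Six.stabS alg1 D s) {e | ∃ z, At 2 z ∧ e = opM D z} (Psi D)
    (fun A hA B hB => Six.stab_br alg1 hA hB) (p2 D s hL.min)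
    (by
      rintro _ ⟨z, hz, rfl⟩ A hA
      exact (com z hz).1 A hA)
    (fun A hA => hA.1.2) Hsix.psi_unit a har haS k
    (fun i j hij => h.blk i j ((ha i j).1 hij)) D.τ G D.τ_τ (Wfx.a_tau haS.1) hCa
    (w2 D s a G hCa fun i w hw => by
      obtain ⟨ε, hε, -⟩ := hwd i w hw
      exact ⟨ε, hε⟩)
    (by
      intro U h1 h2 h3
      have h4 := hiso (U.map (Matrix.toLin' x)) (hst U h1 h2) (by
        rintro _ ⟨v, hv, rfl⟩ _ ⟨w, hw, rfl⟩
        rw [Matrix.toLin'_apply, Matrix.toLin'_apply, Hsix.psi_map hL.grp]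
        exact h3 v hv w hw)
      exact hbot U h4)
  have hkill : ∀ L', L' ≤ max (max L M) 2 → ∀ u' : Ten I L', At L' u' →
      ∀ A ∈ Six.stabS alg1 D s, aT A (gT x⁻¹ u') = 0 := fun L' hL' u' hu' A hA =>
    Ktwo.killed hx2 hL.eq (hL.span L' hL' u' hu') hA
  have hgood : ∀ L', L' ≤ max (max L M) 2 → ∀ u' : Ten I L', At L' u' →
      ∀ w, gT x⁻¹ u' w ≠ 0 →
        ∃ ε : ℤˣ, G ε (List.ofFn w) ∧ ∏ j, k (w j) = (((ε : ℤ) : ℝ) : ℂ) :=
    fun L' hL' u' hu' w hw =>
    Wfx.word_span hx2 hL.eq (Q := fun L w => ∃ ε : ℤˣ, G ε (List.ofFn w) ∧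
      ∏ j, k (w j) = (((ε : ℤ) : ℝ) : ℂ)) hwd (hL.span L' hL' u' hu') hw
  -- the decomposition in the original frame
  have hdec : Dec D At Γ (fun b => x * π b * x⁻¹) := by
    refine ⟨?_, ?_, ?_⟩
    · rw [← Finset.sum_mul, ← Finset.mul_sum, hsum, mul_one, hx1]
    · intro b b'
      have h1 : x * π b * x⁻¹ * (x * π b' * x⁻¹) = x * (π b * π b') * x⁻¹ := by
        calc x * π b * x⁻¹ * (x * π b' * x⁻¹) = x * π b * (x⁻¹ * x) * π b' * x⁻¹ := by
              simp only [mul_assoc]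
          _ = x * (π b * π b') * x⁻¹ := by rw [hx2, mul_one, mul_assoc x]
      rw [h1, hmul b b']
      split_ifs
      · rfl
      · rw [mul_zero, zero_mul]
    · intro b
      have h1 : LinearMap.range (Matrix.toLin' (x * π b * x⁻¹)) =
          (LinearMap.range (Matrix.toLin' (π b))).map (Matrix.toLin' x) := by
        have h2 : LinearMap.range (Matrix.toLin' x⁻¹) = ⊤ := by
          rw [LinearMap.range_eq_top]
          intro v
          refine ⟨Matrix.toLin' x v, ?_⟩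
          rw [← LinearMap.comp_apply, ← Matrix.toLin'_mul, hx2, Matrix.toLin'_one,
            LinearMap.id_apply]
        rw [Matrix.toLin'_mul, Matrix.toLin'_mul, LinearMap.range_comp, h2, Submodule.map_top,
          LinearMap.range_comp]
      rw [h1]
      refine hst _ ?_ ?_
      · rintro A hA _ ⟨v, rfl⟩
        refine ⟨A.mulVec v, ?_⟩
        rw [Matrix.toLin'_apply, Matrix.toLin'_apply, Matrix.mulVec_mulVec, Matrix.mulVec_mulVec,
          (hcom b).1 A hA]
      · rintro e he _ ⟨v, rfl⟩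
        refine ⟨e.mulVec v, ?_⟩
        rw [Matrix.toLin'_apply, Matrix.toLin'_apply, Matrix.mulVec_mulVec, Matrix.mulVec_mulVec,
          (hcom b).2 e he]
  have hodd := hM B (fun b => x * π b * x⁻¹) hdec 𝓜 hM0 hMs
    (by
      intro L' hL' c u' hu' hne
      have hL2 : L' ≤ max (max L M) 2 := hL'.trans ((le_max_right L M).trans (le_max_left _ 2))
      exact (hw L' (gT x⁻¹ u') (hkill L' hL2 u' hu') (hgood L' hL2 u' hu')).1 c
        ((Ktwo.word_iff hx1 hx2 π c u').1 hne))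
  have hLm : L ≤ max (max L M) 2 := (le_max_left L M).trans (le_max_left _ 2)
  refine Six.pos_of alg1 hE.sys (hE.nd L) hL.grp
    (T := {v : Ten I L | ∃ i, ∃ h : len i = L, v = h ▸ t i}) ?_ (hL.span L hLm) ?_ u hu hu0
  · rintro _ ⟨i, rfl, rfl⟩
    exact hL.mem i
  · rintro _ ⟨i, rfl, rfl⟩
    have h1 : gT x (s i) = t i := congrFun hL.eq i
    have h0 : gT x⁻¹ (t i) = s i := by rw [← h1, ← alg1.gT_mul, hx2, alg1.gT_one]
    have h3 : gT (Matrix.diagonal k) (s i) = s i := by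
      have h4 := (hw (len i) (gT x⁻¹ (t i)) (hkill _ hLm (t i) (hL.mem i))
        (hgood _ hLm (t i) (hL.mem i))).2
        (fun c hc => hodd c (t i) (hL.mem i) ((Ktwo.word_iff hx1 hx2 π c (t i)).2 hc))
      rwa [h0] at h4
    have h2 : jT D (s i) = s i := (congrFun hL.key i).symm.trans h3
    change gT x (jT D (gT x⁻¹ (t i))) = t i
    rw [h0, h2, h1]

end Pool.Agent.Lib.MP_361a6f_ag.FL.E
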