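import Pool.Agent.Lib.MP_361a6f_ag.FL.E.DefsK
import Pool.Agent.Lib.MP_361a6f_ag.FL.E.Mat

/-!
# Theorem E5 / K4 in coordinates (helper40, finding 5435): the data and the rows

As Theorem K, but members with at most FOUR elements generate. The additional data (`FData`) are:
the real span of the tensors of length two of the specialisation contains all real block matrices,
and `ψ` is positive semidefinite on the real span of the tensors of length four (Theorem PT).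
-/

open Filter Topology

namespace Pool.Agent.Lib.MP_361a6f_ag.FL.E

/-- the additional data -/
structure FData {I Λ : Type} [Fintype I] [DecidableEq I] (D : Dat I Λ)
    (Bt : (L : ℕ) → Ten I L → Prop) (l : I → ℂ) : Prop where
  two : ∀ u, Bt 2 u → jT D u = u
  blk : ∀ M : Matrix I I ℂ, (∀ i j, M i j ≠ 0 → l i = l j) → jT D (mten D M) = mten D M →
    mten D M ∈ Submodule.span ℝ {u : Ten I 2 | Bt 2 u}
  four : ∀ u ∈ Submodule.span ℝ {u : Ten I 4 | Bt 4 u}, ∃ r : ℝ, 0 ≤ r ∧ psiT D u u = (r : ℂ)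

/-- the word `w` is good with the sign `ε` -/
def Gd {I Λ : Type} [Fintype I] [DecidableEq I] (D : Dat I Λ) (Bt : (L : ℕ) → Ten I L → Prop)
    (ε : ℤˣ) {L : ℕ} (w : Fin L → I) : Prop :=
  ∃ u ∈ Submodule.span ℝ {u : Ten I L | Bt L u}, ∃ r : ℝ, 0 < r ∧
    sg D w * (u w * u (D.τ ∘ w)) = ((((ε : ℤ) : ℝ) * r : ℝ) : ℂ)

/-- the same for lists -/
def Gl {I Λ : Type} [Fintype I] [DecidableEq I] (D : Dat I Λ) (Bt : (L : ℕ) → Ten I L → Prop)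
    (ε : ℤˣ) (w : List I) : Prop := Gd D Bt ε w.get

/-- the calculus of good words; `a` is constant exactly on the blocks -/
structure Calc {I : Type} (τ : I → I) (a : I → ℂ) (G : ℤˣ → List I → Prop) : Prop where
  nil : G 1 []
  perm : ∀ ε v w, List.Perm v w → G ε v → G ε w
  app : ∀ ε δ v w, G ε v → G δ w → G (ε * δ) (v ++ w)
  neg : ∀ ε v, G ε v → G ε (v.map τ)
  pair : ∀ i, G 1 [i, τ i]
  blk : ∀ ε v w, v.map a = w.map a → G ε v → G ε w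
  can : ∀ ε i v, G ε (i :: τ i :: v) → G ε v
  four : ∀ ε v, v.length ≤ 4 → G ε v → ε = 1

/-- Row W1: the calculus, for words as functions. (a) `real`, (b) localisation, (c) ... -/
def W1Statement : Prop :=
  ∀ {I Λ : Type} [Fintype I] [DecidableEq I] [DecidableEq Λ] (D : Dat I Λ)
    (Bt : (L : ℕ) → Ten I L → Prop) (l : I → ℂ), (∀ i j, D.typ i = D.typ j) →
    (∀ i, D.odd (D.typ i)) → (∀ i, ‖l i‖ = 1) → (∀ i, l (D.τ i) * l i = 1) →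
    RSys D Bt → FData D Bt l →
    (∀ (ε : ℤˣ) (L : ℕ) (σ : Equiv.Perm (Fin L)) (w : Fin L → I), Gd D Bt ε w →
      Gd D Bt ε (w ∘ σ)) ∧
    (∀ (ε δ : ℤˣ) (L M : ℕ) (v : Fin L → I) (w : Fin M → I), Gd D Bt ε v → Gd D Bt δ w →
      Gd D Bt (ε * δ) (Fin.append v w)) ∧
    (∀ (ε : ℤˣ) (L : ℕ) (w : Fin L → I), Even L → Gd D Bt ε w → Gd D Bt ε (D.τ ∘ w)) ∧
    (∀ i, Gd D Bt 1 ![i, D.τ i]) ∧
    (∀ (ε : ℤˣ) (L : ℕ) (v w : Fin L → I), (∀ j, l (v j) = l (w j)) → Gd D Bt ε v →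
      Gd D Bt ε w) ∧
    (∀ (ε : ℤˣ) (L : ℕ) (i : I) (w : Fin L → I),
      Gd D Bt ε (Fin.append ![i, D.τ i] w) → Gd D Bt ε w) ∧
    (∀ (ε : ℤˣ) (L : ℕ) (w : Fin L → I), Odd L → ¬ Gd D Bt ε w) ∧
    (∀ (ε : ℤˣ) (L : ℕ) (w : Fin L → I), L = 0 ∨ L = 2 ∨ L = 4 → Gd D Bt ε w → ε = 1) ∧
    (∀ (L : ℕ) (u : Ten I L), u ∈ Submodule.span ℝ {u : Ten I L | Bt L u} → ∀ w : Fin L → I,
      Even L → ∃ r : ℝ, sg D w * (u w * u (D.τ ∘ w)) = (r : ℂ))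

/-- Row W1L: the calculus for lists. -/
def W1LStatement : Prop :=
  W1Statement → ∀ {I Λ : Type} [Fintype I] [DecidableEq I] [DecidableEq Λ] (D : Dat I Λ)
    (Bt : (L : ℕ) → Ten I L → Prop) (l : I → ℂ), (∀ i j, D.typ i = D.typ j) →
    (∀ i, D.odd (D.typ i)) → (∀ i, ‖l i‖ = 1) → (∀ i, l (D.τ i) * l i = 1) →
    RSys D Bt → FData D Bt l → Calc D.τ l (Gl D Bt)

/-- Row W1B: row G1 with one more conclusion. -/
def W1BStatement : Prop :=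
  ∀ {I Λ : Type} [Fintype I] [DecidableEq I] [DecidableEq Λ] (D : Dat I Λ)
    (At Bt : (L : ℕ) → Ten I L → Prop) (l : I → ℂ) (Γ : Set (Matrix I I ℂ))
    {β : Type} [Fintype β] (lb : β → ℕ) (b : Tup I lb),
    CSys D At Bt l Γ lb b → ∀ m : ℕ, ∃ (ι : Type) (_ : Fintype ι) (len : ι → ℕ) (t s : Tup I len)
      (x : Matrix I I ℂ) (k : I → ℂ), LvlP D At l m len t s x k ∧
      ∀ i w, s i w * s i (D.τ ∘ w) = t i w * t i (D.τ ∘ w)

/-- Row W1H: the words of `s` are good, with the sign `k`. -/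
def W1HStatement : Prop :=
  W1Statement → ∀ {I Λ : Type} [Fintype I] [DecidableEq I] [DecidableEq Λ] (D : Dat I Λ)
    (At Bt : (L : ℕ) → Ten I L → Prop) (l : I → ℂ) (Γ : Set (Matrix I I ℂ))
    {β : Type} [Fintype β] (lb : β → ℕ) (b : Tup I lb),
    CSys D At Bt l Γ lb b → FData D Bt l → ∀ (m : ℕ) {ι : Type} [Fintype ι] (len : ι → ℕ)
      (t s : Tup I len) (x : Matrix I I ℂ) (k : I → ℂ), LvlP D At l m len t s x k →
      (∀ i w, s i w * s i (D.τ ∘ w) = t i w * t i (D.τ ∘ w)) →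
      ∀ i, Even (len i) → ∀ w, s i w ≠ 0 →
        ∃ ε : ℤˣ, Gl D Bt ε (List.ofFn w) ∧ ∏ j, k (w j) = (((ε : ℤ) : ℝ) : ℂ)

open Classical in
/-- the entries of `A` on the moves equivalent to `j₀ → i₀` -/
noncomputable def mvR {I : Type} (τ : I → I) (G : ℤˣ → List I → Prop) (i0 j0 : I)
    (A : Matrix I I ℂ) : Matrix I I ℂ :=
  Matrix.of fun i j => if G 1 [j0, τ i0, i, τ j] then A i j else 0

/-- Row W2: the splitting. -/
def W2Statement : Prop :=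
  ∀ {I Λ ι : Type} [Fintype I] [DecidableEq I] [DecidableEq Λ] [Fintype ι] {len : ι → ℕ}
    (D : Dat I Λ) (s : Tup I len) (a : I → ℂ) (G : ℤˣ → List I → Prop), Calc D.τ a G →
    (∀ i w, s i w ≠ 0 → ∃ ε : ℤˣ, G ε (List.ofFn w)) →
    ∀ A ∈ stab D s, ∀ i0 j0, mvR D.τ G i0 j0 A ∈ stab D s

/-- Row R4 (helper40): the classes, and the reduction of words. -/
def R4Statement : Prop :=
  ∀ {I : Type} [Fintype I] [DecidableEq I] (S : Submodule ℂ (Matrix I I ℂ))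
    (E : Set (Matrix I I ℂ)) (P : Matrix I I ℂ),
    (∀ x ∈ S, ∀ y ∈ S, x * y - y * x ∈ S) → (∀ x ∈ S, x.conjTranspose ∈ S) →
    (∀ e ∈ E, ∀ A ∈ S, e * A = A * e) → (∀ A ∈ S, A.transpose * P + P * A = 0) → IsUnit P →
    ∀ a : I → ℂ, (∀ i, (starRingEnd ℂ) (a i) = a i) → Matrix.diagonal a ∈ S →
    ∀ k : I → ℂ, (∀ i j, a i = a j → k i = k j) →
    ∀ (τ : I → I) (G : ℤˣ → List I → Prop), (∀ i, τ (τ i) = i) → (∀ i, a (τ i) = -a i) →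
    Calc τ a G → (∀ A ∈ S, ∀ i0 j0, mvR τ G i0 j0 A ∈ S) →
    (∀ U : Submodule ℂ (I → ℂ), (∀ A ∈ S, ∀ v ∈ U, A.mulVec v ∈ U) →
      (∀ e ∈ E, ∀ v ∈ U, e.mulVec v ∈ U) →
      (∀ v ∈ U, ∀ w ∈ U, dotProduct v (P.mulVec w) = 0) → U = ⊥) →
    ∃ (B : Type) (_ : Fintype B) (_ : DecidableEq B) (π : B → Matrix I I ℂ)
      (𝓜 : Set (Finset B)), ∑ b, π b = 1 ∧
      (∀ b b', π b * π b' = if b = b' then π b else 0) ∧
      (∀ b, (∀ A ∈ S, A * π b = π b * A) ∧ ∀ e ∈ E, e * π b = π b * e) ∧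
      ∅ ∈ 𝓜 ∧ (∀ X ∈ 𝓜, ∀ Y ∈ 𝓜, symmDiff X Y ∈ 𝓜) ∧
      ∀ (L : ℕ) (u : Ten I L), (∀ A ∈ S, aT A u = 0) →
        (∀ w, u w ≠ 0 → ∃ ε : ℤˣ, G ε (List.ofFn w) ∧ ∏ j, k (w j) = (((ε : ℤ) : ℝ) : ℂ)) →
        (∀ c : Fin L → B, Rot.slT (fun j => π (c j)) u ≠ 0 → (odds c).card ≤ 4 → odds c ∈ 𝓜) ∧
        ((∀ c : Fin L → B, Rot.slT (fun j => π (c j)) u ≠ 0 → odds c ∈ 𝓜) →
          gT (Matrix.diagonal k) u = u)

/-- the condition on the parities in length `L` -/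
def KCond4 {I Λ : Type} [Fintype I] [DecidableEq I] (D : Dat I Λ)
    (At : (L : ℕ) → Ten I L → Prop) (Γ : Set (Matrix I I ℂ)) (L : ℕ) : Prop :=
  ∃ M : ℕ, ∀ (B : Type) [Fintype B] [DecidableEq B] (π : B → Matrix I I ℂ), Dec D At Γ π →
    ∀ 𝓜 : Set (Finset B), ∅ ∈ 𝓜 → (∀ X ∈ 𝓜, ∀ Y ∈ 𝓜, symmDiff X Y ∈ 𝓜) →
    (∀ L', L' ≤ M → ∀ (c : Fin L' → B) (u : Ten I L'), At L' u →
      Rot.slT (fun j => π (c j)) u ≠ 0 → (odds c).card ≤ 4 → odds c ∈ 𝓜) →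
    ∀ (c : Fin L → B) (u : Ten I L), At L u → Rot.slT (fun j => π (c j)) u ≠ 0 → odds c ∈ 𝓜

/-- THEOREM K4 in coordinates: `ψ` is positive definite on the real span of the tensors of length
`L` of the system. -/
def ThmK4Statement : Prop :=
  ∀ {I Λ : Type} [Fintype I] [DecidableEq I] [DecidableEq Λ] (D : Dat I Λ)
    (At Bt : (L : ℕ) → Ten I L → Prop) (l : I → ℂ) (Γ : Set (Matrix I I ℂ))
    {β : Type} [Fintype β] (lb : β → ℕ) (b : Tup I lb), CSys D At Bt l Γ lb b → FData D Bt l →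
    (∀ U : Submodule ℂ (I → ℂ), StabU D At Γ U →
      (∀ v ∈ U, ∀ w ∈ U, dotProduct v ((Psi D).mulVec w) = 0) → U = ⊥) →
    ∀ L : ℕ, KCond4 D At Γ L → ∀ u : Ten I L, u ∈ Submodule.span ℝ {u | At L u} → u ≠ 0 →
      ∃ r : ℝ, 0 < r ∧ psiT D u u = (r : ℂ)

/-- Row W5: the assembly (as K2). -/
def W5Statement : Prop :=
  W1Statement → W1LStatement → W1BStatement → W1HStatement → W2Statement → R4Statement →
    P2Statement → P3Statement → G4Statement → G4bStatement → ThmK4Statement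

/-- Every family of subsets with an even number of elements of the set `R` that is closed under
symmetric differences and under the automorphisms of `ℂ` is generated by its members with at most
four elements. -/
def Gal4 (R : Set ℂ) : Prop :=
  ∀ 𝓛 : Set (Set ℂ), (∀ S ∈ 𝓛, S ⊆ R ∧ Even S.ncard) →
    (∀ S ∈ 𝓛, ∀ T ∈ 𝓛, symmDiff S T ∈ 𝓛) → (∀ S ∈ 𝓛, ∀ γ : ℂ ≃+* ℂ, γ '' S ∈ 𝓛) →
    ∀ 𝓜 : Set (Set ℂ), ∅ ∈ 𝓜 → (∀ S ∈ 𝓜, ∀ T ∈ 𝓜, symmDiff S T ∈ 𝓜) →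
      (∀ S ∈ 𝓛, S.ncard ≤ 4 → S ∈ 𝓜) → 𝓛 ⊆ 𝓜

/-- Row W3K (as row K3): the condition on the parities from a central element. -/
def W3KStatement : Prop :=
  ∀ {I Λ : Type} [Fintype I] [DecidableEq I] [DecidableEq Λ] (D : Dat I Λ)
    (At : (L : ℕ) → Ten I L → Prop) (Γ : Set (Matrix I I ℂ)), ASys D At →
    (∀ i j, D.typ i = D.typ j) → (∀ i, D.odd (D.typ i)) → (∀ x ∈ Γ, IsG D x) →
    (∀ x ∈ Γ, ∀ L u, At L u → gT x u = u) →
    (∀ L, ∀ u ∈ Submodule.span ℂ {u | At L u}, u ≠ 0 →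
      ∃ v ∈ Submodule.span ℂ {u | At L u}, psiT D u v ≠ 0) →
    ∀ z : Ten I 2, At 2 z → (∀ z', At 2 z' → opM D z * opM D z' = opM D z' * opM D z) →
    ∀ R : Finset ℂ, (∀ γ : ℂ ≃+* ℂ, ∀ a ∈ R, γ a ∈ R) →
    (∀ v : I → ℂ, v ∈ Submodule.span ℂ {v | ∃ a ∈ R, (opM D z).mulVec v = a • v}) →
    (∀ a ∈ R, ∀ U : Submodule ℂ (I → ℂ), StabU D At Γ U →
      (∀ v ∈ U, (opM D z).mulVec v = a • v) → U ≠ ⊥ →
      ∀ v, (opM D z).mulVec v = a • v → v ∈ U) →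
    Gal4 (R : Set ℂ) → ∀ L, KCond4 D At Γ L

end Pool.Agent.Lib.MP_361a6f_ag.FL.E
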