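import Pool.Agent.Lib.MP_361a6f_ag.FL.E5.Defs

/-!
# Theorem K4: the only thing the assembly needs from the calculus of good words
-/

open Filter Topology

namespace Pool.Agent.Lib.MP_361a6f_ag.FL.E

/-- Row W1X: the situation at every level, with a calculus in which the words of `s` are good with
the sign `k`. -/
def W1XStatement : Prop :=
  ∀ {I Λ : Type} [Fintype I] [DecidableEq I] [DecidableEq Λ] (D : Dat I Λ)
    (At Bt : (L : ℕ) → Ten I L → Prop) (l : I → ℂ) (Γ : Set (Matrix I I ℂ))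
    {β : Type} [Fintype β] (lb : β → ℕ) (b : Tup I lb), CSys D At Bt l Γ lb b → FData D Bt l →
    ∀ m : ℕ, ∃ (ι : Type) (_ : Fintype ι) (len : ι → ℕ) (t s : Tup I len)
      (x : Matrix I I ℂ) (k : I → ℂ), LvlP D At l m len t s x k ∧
      ∃ G : ℤˣ → List I → Prop, Calc D.τ l G ∧ ∀ i w, s i w ≠ 0 →
        ∃ ε : ℤˣ, G ε (List.ofFn w) ∧ ∏ j, k (w j) = (((ε : ℤ) : ℝ) : ℂ)

/-- Row W5X: the assembly. -/
def W5XStatement : Prop :=
  W1XStatement → W2Statement → R4Statement → P2Statement → P3Statement → G4Statement →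
    G4bStatement → ThmK4Statement

end Pool.Agent.Lib.MP_361a6f_ag.FL.E
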