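import Pool.Agent.Lib.MP_361a6f_ag.FL.E5.Defs
import Pool.Agent.Lib.MP_361a6f_ag.FL.PT.Diag

/-!
# Theorem K4: the adapted basis

`exists_core4` is `exists_core` of `FL/E/NSys.lean` with the additional data `FData`: the real block
matrices are real combinations of endomorphisms (double commutant theorem and the theorem of Tate).
-/

open Filter Topology MeasureTheory

set_option autoImplicit false
set_option linter.unusedSectionVars false

namespace Pool.Agent.Lib.MP_361a6f_ag.FL.E

open QS

variable {I Λ : Type} [Fintype I] [DecidableEq I] [DecidableEq Λ]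

namespace Frm4

variable {D : Dat I Λ}

/-- a real block matrix is a real combination of endomorphisms -/
theorem blk_mem (a1 : Alg1) {Bt : (L : ℕ) → Ten I L → Prop} (S : ASys D Bt)
    (hodd : ∀ i, D.odd (D.typ i)) (htyp : ∀ i j, D.typ i = D.typ j) {l : I → ℂ}
    (hfix : ∀ u, Bt 2 u → jT D u = u)
    (comm : ∀ x : Matrix I I ℂ, (∀ u, Bt 2 u → x * opM D u = opM D u * x) →
      ∃ z : I → ℂ, (∀ i j, l i = l j → z i = z j) ∧ x = Matrix.diagonal z)
    {M : Matrix I I ℂ} (hM : ∀ i j, M i j ≠ 0 → l i = l j) (hj : jT D (mten D M) = mten D M) :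
    mten D M ∈ Submodule.span ℝ {u | Bt 2 u} := by
  have h1 : M ∈ endS D Bt := by
    refine PT.bicommutant _ (PT.endS_one S htyp) (fun x hx y hy => PT.endS_mul S hodd htyp hx hy)
      (fun x hx => PT.endS_star S hodd hfix hx) _ fun x hx => ?_
    obtain ⟨z, hz, rfl⟩ := comm x fun u hu => hx _ (Submodule.subset_span ⟨u, hu, rfl⟩)
    ext i j
    rw [Matrix.diagonal_mul, Matrix.mul_diagonal]
    by_cases h : M i j = 0
    · rw [h, mul_zero, zero_mul]
    · rw [hz i j (hM i j h), mul_comm]
  have h2 : mten D M ∈ Submodule.span ℂ {u | Bt 2 u} := by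
    have h3 : ∀ x ∈ endS D Bt, mten D x ∈ Submodule.span ℂ {u | Bt 2 u} := by
      intro x hx
      induction hx using Submodule.span_induction with
      | mem x hx =>
        obtain ⟨u, hu, rfl⟩ := hx
        rw [mten_opM]
        exact Submodule.subset_span hu
      | zero =>
        rw [← opM_zero (D := D), mten_opM]
        exact zero_mem _
      | add a b _ _ ha hb =>
        have h4 : mten D (a + b) = mten D a + mten D b := by
          rw [← mten_opM (D := D) (mten D a + mten D b), opM_add, opM_mten, opM_mten]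
        rw [h4]
        exact add_mem ha hb
      | smul c a _ ha =>
        have h4 : mten D (c • a) = c • mten D a := by
          rw [← mten_opM (D := D) (c • mten D a), opM_smul, opM_mten]
        rw [h4]
        exact Submodule.smul_mem _ _ ha
    exact h3 _ h1
  exact PT.real_mem a1 hfix h2 hj

end Frm4

open Frm4

/-- `exists_core` with the real structure -/
theorem exists_core_j (hY : YStatement) (a1 : Alg1) (a2 : Alg2) {D : Dat I Λ}
    {At Ct : (L : ℕ) → Ten I L → Prop} {F : Matrix I I ℂ} {Γ : Set (Matrix I I ℂ)}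
    (S : NSys D At Ct F Γ) :
    ∃ (Y : Matrix I I ℂ) (l : I → ℂ) (β : Type) (_ : Fintype β) (lb : β → ℕ) (b : Tup I lb),
      IsG D Y ∧ NCore D (fun L u => At L (gT Y u)) (fun L u => Rsp.Bt Ct L (gT Y u)) l
        {x' | ∃ x ∈ Γ, x' = Y⁻¹ * x * Y} lb b ∧
      (∀ u, Ct 2 (gT Y u) → jT D u = u) ∧
      ∀ x : Matrix I I ℂ, (∀ u, Ct 2 (gT Y u) → x * opM D u = opM D u * x) →
        ∃ z : I → ℂ, (∀ i j, l i = l j → z i = z j) ∧ x = Matrix.diagonal z := by
  classical
  obtain ⟨Y, l, hG, hFY, hn, hτ, hj⟩ := rea hY a1 S.odd S.typ_eq S.csys S.pos S.frob S.mten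
  obtain ⟨hY1, hY2, hY3⟩ := a1.G_inv D Y hG
  -- the base tuple
  obtain ⟨B, hB1, hB2, hB3⟩ := exists_linearIndependent ℂ {u : Ten I 2 | Ct 2 u}
  have hBfin : B.Finite := hB3.setFinite
  have : Fintype B := hBfin.fintype
  let lb : Option B → ℕ := fun i => i.elim 0 (fun _ => 2)
  let b : Tup I lb := fun i => match i with
    | none => fun _ => 1
    | some x => gT Y⁻¹ x.1
  have hFl : ∀ i, Module.End.HasEigenvalue (Matrix.toLin' F) (l i) := by
    intro i
    refine Module.End.hasEigenvalue_of_hasEigenvector (x := fun a => Y a i) ?_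
    rw [Module.End.hasEigenvector_iff, Module.End.mem_eigenspace_iff]
    constructor
    · funext a
      have h1 := congrFun (congrFun hFY a) i
      rw [Matrix.mul_diagonal] at h1
      rw [Matrix.toLin'_apply, Pi.smul_apply, smul_eq_mul, mul_comm, ← h1]
      rfl
    · intro h0
      have h1 := congrFun (congrFun hY3 i) i
      rw [Matrix.one_apply_eq, Matrix.mul_apply, Finset.sum_eq_zero] at h1
      · exact zero_ne_one h1
      · intro a _
        have h2 : Y a i = 0 := congrFun h0 a
        rw [h2, mul_zero]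
  refine ⟨Y, l, Option B, inferInstance, lb, b, hG, ?_, ?_, ?_⟩
  · exact
      { sys := asys a1 a2 S.odd hG S.sys
        typ_eq := S.typ_eq
        odd := S.odd
        norm := hn
        tau := hτ
        ratio := fun i j hij n hn => S.ratio _ _ (hFl i) (hFl j) hij n hn
        fix := by
          intro L u hu
          apply inj a1 hG
          rw [← a1.gT_mul, ← hFY, a1.gT_mul]
          exact S.fix L _ hu
        rsys := rsys a1 a2 hG (Rsp.rsys D S.csys)
        sub := fun L u hu => Submodule.subset_span (S.sub L _ hu)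
        bmem := by
          intro i
          match i with
          | none =>
            show Rsp.Bt Ct 0 (gT Y (fun _ => 1))
            rw [gT_const]
            exact Submodule.subset_span S.csys.one
          | some x =>
            show Rsp.Bt Ct 2 (gT Y (gT Y⁻¹ x.1))
            rw [psi_outer_gT a1 hG]
            exact Submodule.subset_span (hB1 x.2)
        base := by
          refine ⟨?_, none, rfl, fun _ => rfl⟩
          funext i
          match i with
          | none =>
            funext w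
            show sg D (D.τ ∘ w) * (starRingEnd ℂ) 1 = 1
            rw [map_one, mul_one, sg]
            exact Fin.prod_univ_zero _
          | some x =>
            exact hj x.1 (Submodule.subset_span (hB1 x.2))
        comm := by
          intro x hx hxb
          have h1 : ∀ u ∈ B, gT (Y * x * Y⁻¹) u = u := by
            intro u hu
            have h2 : gT x (gT Y⁻¹ u) = gT Y⁻¹ u := congrFun hxb (some ⟨u, hu⟩)
            rw [a1.gT_mul, a1.gT_mul, h2, psi_outer_gT a1 hG]
          have hx' : IsG D (Y * x * Y⁻¹) := a1.G_mul D _ _ (a1.G_mul D _ _ hG hx) hY1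
          obtain ⟨-, h3, h4⟩ := a1.G_inv D _ hx'
          have h5 : ∀ u ∈ B, (Y * x * Y⁻¹) * opM D u = opM D u * (Y * x * Y⁻¹) := by
            intro u hu
            have h6 := opM_gT S.odd a1 hx' u
            rw [h1 u hu] at h6
            conv_rhs => rw [h6]
            rw [Matrix.mul_assoc (Y * x * Y⁻¹ * opM D u), h4, Matrix.mul_one]
          have h7 := S.comm (Y * x * Y⁻¹) fun u hu =>
            comm_span h5 (by rw [hB2]; exact Submodule.subset_span hu)
          obtain ⟨z, hz, hz'⟩ := adjoin_diag hY3 hY2 hFY h7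
          refine ⟨z, hz, ?_⟩
          rw [← hz']
          have : Y⁻¹ * (Y * x * Y⁻¹) * Y = (Y⁻¹ * Y) * x * (Y⁻¹ * Y) := by
            simp only [Matrix.mul_assoc]
          rw [this, hY3, Matrix.one_mul, Matrix.mul_one]
        grp := by
          rintro _ ⟨x, hx, rfl⟩
          exact a1.G_mul D _ _ (a1.G_mul D _ _ hY1 (S.grp x hx)) hG
        gfix := by
          rintro _ ⟨x, hx, rfl⟩ L u hu
          apply inj a1 hG
          rw [a1.gT_mul, a1.gT_mul, psi_outer_gT a1 hG]
          exact S.gfix x hx L _ hu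
        nd := by
          intro L u hu hu0
          have h1 : gT Y u ∈ Submodule.span ℂ {u | At L u} := by
            rw [← spanC a1 hG At L]
            exact ⟨u, hu, rfl⟩
          have h2 : gT Y u ≠ 0 := fun h => hu0 (inj a1 hG (h.trans (gT_zero a1 Y).symm))
          obtain ⟨v, hv, hv0⟩ := S.nd L _ h1 h2
          rw [← spanC a1 hG At L] at hv
          obtain ⟨v', hv', rfl⟩ := hv
          refine ⟨v', hv', ?_⟩
          rw [← a1.psiT_gT D Y u v' hG]
          exact hv0 }
  · intro u hu
    have h := hj (gT Y u) (Submodule.subset_span hu)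
    rwa [gT_inv_gT a1 hG] at h
  · intro x hx
    have h5 : ∀ u, Ct 2 u → (Y * x * Y⁻¹) * opM D u = opM D u * (Y * x * Y⁻¹) := by
      intro u hu
      have h6 := hx (gT Y⁻¹ u) (by rw [psi_outer_gT a1 hG]; exact hu)
      have h7 := opM_gT S.odd a1 hG (gT Y⁻¹ u)
      rw [psi_outer_gT a1 hG] at h7
      rw [h7]
      have e1 : Y * x * Y⁻¹ * (Y * opM D (gT Y⁻¹ u) * Y⁻¹)
          = Y * (x * (Y⁻¹ * Y) * opM D (gT Y⁻¹ u)) * Y⁻¹ := by
        simp only [Matrix.mul_assoc]
      have e2 : Y * opM D (gT Y⁻¹ u) * Y⁻¹ * (Y * x * Y⁻¹)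
          = Y * (opM D (gT Y⁻¹ u) * (Y⁻¹ * Y) * x) * Y⁻¹ := by
        simp only [Matrix.mul_assoc]
      rw [e1, e2, hY3, Matrix.mul_one, Matrix.mul_one, h6]
    obtain ⟨z, hz, hz'⟩ := adjoin_diag hY3 hY2 hFY (S.comm _ h5)
    refine ⟨z, hz, ?_⟩
    rw [← hz']
    have : Y⁻¹ * (Y * x * Y⁻¹) * Y = (Y⁻¹ * Y) * x * (Y⁻¹ * Y) := by
      simp only [Matrix.mul_assoc]
    rw [this, hY3, Matrix.one_mul, Matrix.mul_one]

/-- **Row FRM: the adapted basis for Theorem K4.** -/
theorem exists_core4 (hY : YStatement) (a1 : Alg1) (a2 : Alg2) {D : Dat I Λ}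
    {At Ct : (L : ℕ) → Ten I L → Prop} {F : Matrix I I ℂ} {Γ : Set (Matrix I I ℂ)}
    (S : NSys D At Ct F Γ)
    (h4 : ∀ u ∈ Submodule.span ℝ {u : Ten I 4 | Ct 4 u}, ∃ r : ℝ, 0 ≤ r ∧ psiT D u u = (r : ℂ)) :
    ∃ (Y : Matrix I I ℂ) (l : I → ℂ) (β : Type) (_ : Fintype β) (lb : β → ℕ) (b : Tup I lb),
      IsG D Y ∧ NCore D (fun L u => At L (gT Y u)) (fun L u => Rsp.Bt Ct L (gT Y u)) l
        {x' | ∃ x ∈ Γ, x' = Y⁻¹ * x * Y} lb b ∧
      FData D (fun L u => Rsp.Bt Ct L (gT Y u)) l := by
  obtain ⟨Y, l, β, hβ, lb, b, hG, C, hj, hc⟩ := exists_core_j hY a1 a2 S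
  -- the real span of the transported system
  have hsp : ∀ (L : ℕ) (u : Ten I L), gT Y u ∈ Submodule.span ℝ {u | Ct L u} →
      u ∈ Submodule.span ℝ {u | Ct L (gT Y u)} := by
    intro L u hu
    rw [← spanR a1 hG Ct L] at hu
    obtain ⟨u', hu', h⟩ := hu
    have h' : u' = u := QS.inj a1 hG h
    rw [← h']
    exact hu'
  have hsp' : ∀ (L : ℕ) (u : Ten I L), u ∈ Submodule.span ℝ {u | Rsp.Bt Ct L (gT Y u)} →
      gT Y u ∈ Submodule.span ℝ {u | Ct L u} := by
    intro L u hu
    have h1 : ((gLn a1 Y L).restrictScalars ℝ) u ∈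
        (Submodule.span ℝ {u | Rsp.Bt Ct L (gT Y u)}).map
          ((gLn a1 Y L).restrictScalars ℝ) := ⟨u, hu, rfl⟩
    rw [spanR a1 hG (Rsp.Bt Ct) L] at h1
    have h2 : Submodule.span ℝ {u | Rsp.Bt Ct L u} ≤ Submodule.span ℝ {u | Ct L u} :=
      Submodule.span_le.2 fun v hv => hv
    exact h2 h1
  have hjs : ∀ u, u ∈ Submodule.span ℝ {u : Ten I 2 | Ct 2 (gT Y u)} → jT D u = u := by
    intro u hu
    induction hu using Submodule.span_induction with
    | mem u hu => exact hj u hu
    | zero =>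
      have h := a1.jT_smul D (0 : ℂ) (0 : Ten I 2)
      rwa [zero_smul, map_zero, zero_smul] at h
    | add x y _ _ hx hy => rw [a1.jT_add, hx, hy]
    | smul r x _ hx =>
      rw [← Complex.coe_smul, a1.jT_smul, Complex.conj_ofReal, hx]
  refine ⟨Y, l, β, hβ, lb, b, hG, C, ?_, ?_, ?_⟩
  · intro u hu
    exact hjs u (hsp 2 u hu)
  · intro M hM hMj
    have h1 := blk_mem a1 (asys a1 a2 S.odd hG S.csys) S.odd S.typ_eq hj hc hM hMj
    refine Submodule.span_mono ?_ h1
    intro u hu
    exact Submodule.subset_span hu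
  · intro u hu
    obtain ⟨r, hr, h⟩ := h4 _ (hsp' 4 u hu)
    refine ⟨r, hr, ?_⟩
    rw [← h]
    exact (a1.psiT_gT D Y u u hG).symm

end Pool.Agent.Lib.MP_361a6f_ag.FL.E
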