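import Pool.Agent.Lib.MP_361a6f_ag.FL.E.Frame43

/-!
# Theorem K4, row R4: the frame with the block map

As `exists_frame` of `FL/E/Frame43.lean`; `r j` is an old letter in the block of the new letter `j`.
-/

set_option autoImplicit false
set_option linter.unusedSectionVars false

open Matrix Module

namespace Pool.Agent.Lib.MP_361a6f_ag.FL.E.R4

open P5e

theorem exists_frame5 {I : Type} [Fintype I] [DecidableEq I] (S : Submodule ℂ (Matrix I I ℂ))
    (E : Set (Matrix I I ℂ)) (hlie : ∀ x ∈ S, ∀ y ∈ S, x * y - y * x ∈ S)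
    (hstar : ∀ x ∈ S, x.conjTranspose ∈ S) (hE : ∀ e ∈ E, ∀ A ∈ S, e * A = A * e)
    (a : I → ℂ) (hreal : ∀ i, (starRingEnd ℂ) (a i) = a i) (ha : Matrix.diagonal a ∈ S)
    (k : I → ℂ) (hk : ∀ i, k i ≠ 0) (hak : ∀ i j, a i = a j → k i = k j)
    (hEk : ∀ e ∈ E, e * Matrix.diagonal k = Matrix.diagonal k * e)
    (had : ∀ A ∈ S, Matrix.diagonal k * A * Matrix.diagonal (fun i => (k i)⁻¹) ∈ S) :
    ∃ (U : Matrix I I ℂ) (κ : I → ℂ) (r : I → I), Frame S E k U κ ∧
      (∀ i j, U i j ≠ 0 → a i = a (r j)) ∧ diagonal (fun j => a (r j)) ∈ conjS U S := by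
  have a1 : Alg1 := alg1
  obtain ⟨t, ht, hat, hmax⟩ := exists_tor S hstar (diagonal a) ha (by
    rw [diagonal_conjTranspose]
    congr 1
    funext i
    exact hreal i)
  obtain ⟨U, hU1, hU2, hd⟩ := joint_diag {A | A ∈ t ∧ Aᴴ = A} (fun A hA => hA.2)
    (fun A hA B hB => ht.comm A hA.1 B hB.1)
  -- all of `t` is diagonalised
  have hdt : ∀ A ∈ t, ∃ d : I → ℂ, A * U = U * diagonal d := by
    intro A hA
    obtain ⟨d1, hd1⟩ := hd (A + Aᴴ) ⟨t.add_mem hA (ht.star A hA), by
      rw [conjTranspose_add, conjTranspose_conjTranspose, add_comm]⟩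
    obtain ⟨d2, hd2⟩ := hd (Complex.I • (A - Aᴴ))
      ⟨t.smul_mem _ (t.sub_mem hA (ht.star A hA)), by
        rw [conjTranspose_smul, conjTranspose_sub, conjTranspose_conjTranspose, Complex.star_def,
          Complex.conj_I, neg_smul, ← smul_neg, neg_sub]⟩
    refine ⟨fun i => (1 / 2 : ℂ) * (d1 i + (-Complex.I) * d2 i), ?_⟩
    have h3 : A = (1 / 2 : ℂ) • ((A + Aᴴ) + (-Complex.I) • (Complex.I • (A - Aᴴ))) := by
      rw [smul_smul, neg_mul, Complex.I_mul_I, neg_neg, one_smul, add_add_sub_cancel,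
        ← two_smul ℂ A, smul_smul]
      norm_num
    rw [h3, smul_mul_assoc, add_mul, smul_mul_assoc (-Complex.I), hd1, hd2]
    ext i j
    simp only [Matrix.smul_apply, Matrix.add_apply, Matrix.mul_diagonal, smul_eq_mul]
    ring
  obtain ⟨a', ha'⟩ := hdt _ hat
  have hcol : ∀ j, ∃ i, U i j ≠ 0 := by
    intro j
    by_contra hc
    push Not at hc
    have h1 := congrFun (congrFun hU1 j) j
    rw [Matrix.mul_apply, Matrix.one_apply_eq] at h1
    simp [hc] at h1
  choose r hr using hcol
  have hent : ∀ i j, U i j ≠ 0 → a i = a' j := by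
    intro i j hij
    have h1 := congrFun (congrFun ha' i) j
    rw [Matrix.diagonal_mul, Matrix.mul_diagonal, mul_comm] at h1
    exact mul_left_cancel₀ hij h1
  set κ : I → ℂ := fun j => k (r j) with hκdef
  have hκe : ∀ i j, U i j ≠ 0 → k i = κ j := fun i j hij =>
    hak i (r j) ((hent i j hij).trans (hent (r j) j (hr j)).symm)
  have hκ : diagonal k * U = U * diagonal κ := by
    ext i j
    rw [Matrix.diagonal_mul, Matrix.mul_diagonal]
    by_cases h0 : U i j = 0
    · simp [h0]
    · rw [hκe i j h0, mul_comm]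
  have hκ' : diagonal (fun i => (κ i)⁻¹) * Uᴴ = Uᴴ * diagonal (fun i => (k i)⁻¹) := by
    ext i j
    rw [Matrix.diagonal_mul, Matrix.mul_diagonal, Matrix.conjTranspose_apply]
    by_cases h0 : U j i = 0
    · simp [h0]
    · rw [hκe j i h0, mul_comm]
  have hUk : Uᴴ * diagonal k = diagonal κ * Uᴴ := by
    calc Uᴴ * diagonal k = Uᴴ * (diagonal k * U) * Uᴴ := by
          rw [Matrix.mul_assoc, Matrix.mul_assoc, hU2, Matrix.mul_one]
      _ = diagonal κ * Uᴴ := by rw [hκ, ← Matrix.mul_assoc, hU1, Matrix.one_mul]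
  set h' : Submodule ℂ (Matrix I I ℂ) := conjS U S with hh'
  have hm : ∀ X, X ∈ h' ↔ U * X * Uᴴ ∈ S := fun X => Iff.rfl
  have hmS : ∀ A ∈ S, Uᴴ * A * U ∈ h' := by
    intro A hA
    rw [hm]
    have e : U * (Uᴴ * A * U) * Uᴴ = A := by
      calc U * (Uᴴ * A * U) * Uᴴ = (U * Uᴴ) * A * (U * Uᴴ) := by noncomm_ring
        _ = A := by rw [hU2, Matrix.one_mul, Matrix.mul_one]
    rw [e]
    exact hA
  have emul : ∀ A B, U * (A * B) * Uᴴ = (U * A * Uᴴ) * (U * B * Uᴴ) := by
    intro A B
    calc U * (A * B) * Uᴴ = U * A * 1 * B * Uᴴ := by rw [Matrix.mul_one]; noncomm_ring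
      _ = (U * A * Uᴴ) * (U * B * Uᴴ) := by rw [← hU1]; noncomm_ring
  have hsit : LemR.Sit h' κ := by
    refine ⟨?_, ?_, fun i => hk _, ?_, ?_⟩
    · intro A hA B hB
      rw [hm] at hA hB ⊢
      rw [mul_sub, sub_mul, emul, emul]
      exact hlie _ hA _ hB
    · intro A hA
      rw [hm] at hA ⊢
      have h1 := hstar _ hA
      rw [conjTranspose_mul, conjTranspose_mul, conjTranspose_conjTranspose,
        ← Matrix.mul_assoc] at h1
      exact h1
    · intro A hA
      rw [hm] at hA ⊢
      have h1 := had _ hA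
      have e : U * (diagonal κ * A * diagonal (fun i => (κ i)⁻¹)) * Uᴴ
          = diagonal k * (U * A * Uᴴ) * diagonal (fun i => (k i)⁻¹) := by
        calc U * (diagonal κ * A * diagonal (fun i => (κ i)⁻¹)) * Uᴴ
            = (U * diagonal κ) * A * (diagonal (fun i => (κ i)⁻¹) * Uᴴ) := by
              simp only [Matrix.mul_assoc]
          _ = diagonal k * (U * A * Uᴴ) * diagonal (fun i => (k i)⁻¹) := by
              rw [← hκ, hκ']
              simp only [Matrix.mul_assoc]
      rw [e]
      exact h1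
    · intro X hX hT
      have hXt : U * X * Uᴴ ∈ t := by
        refine hmax _ ((hm X).1 hX) fun A hA => ?_
        obtain ⟨d, hdA⟩ := hdt A hA
        have eA : A = U * diagonal d * Uᴴ := by
          rw [← hdA, Matrix.mul_assoc, hU2, Matrix.mul_one]
        have hdm : diagonal d ∈ h' := by
          rw [hm, ← eA]
          exact ht.le hA
        have h1 := hT d hdm
        have h2 : diagonal d * X = X * diagonal d := by
          ext i j
          rw [Matrix.diagonal_mul, Matrix.mul_diagonal]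
          by_cases h0 : X i j = 0
          · simp [h0]
          · rw [h1 i j h0, mul_comm]
        rw [eA, ← emul, ← emul, h2]
      obtain ⟨d, hdX⟩ := hdt _ hXt
      have e : X = diagonal d := by
        have h1 : U * X * Uᴴ * U = U * X := by
          rw [Matrix.mul_assoc, hU1, Matrix.mul_one]
        rw [h1] at hdX
        calc X = Uᴴ * (U * X) := by rw [← Matrix.mul_assoc, hU1, Matrix.one_mul]
          _ = diagonal d := by rw [hdX, ← Matrix.mul_assoc, hU1, Matrix.one_mul]
      intro i j hij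
      by_contra hne
      rw [e, diagonal_apply_ne _ hne] at hij
      exact hij rfl
  -- the entries of the endomorphisms
  have hsame : ∀ e ∈ E, ∀ i j, (Uᴴ * e * U) i j ≠ 0 →
      (∀ T, diagonal T ∈ h' → T i = T j) ∧ κ i = κ j := by
    intro e he i j hij
    refine ⟨fun T hT => ?_, ?_⟩
    · have h1 := hE e he _ ((hm _).1 hT)
      have h2 : (Uᴴ * e * U) * diagonal T = diagonal T * (Uᴴ * e * U) := by
        calc (Uᴴ * e * U) * diagonal T
            = Uᴴ * (e * (U * diagonal T * Uᴴ)) * U := by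
              calc (Uᴴ * e * U) * diagonal T = (Uᴴ * e * U) * diagonal T * (Uᴴ * U) := by
                    rw [hU1, Matrix.mul_one]
                _ = _ := by simp only [Matrix.mul_assoc]
          _ = Uᴴ * ((U * diagonal T * Uᴴ) * e) * U := by rw [h1]
          _ = diagonal T * (Uᴴ * e * U) := by
              calc Uᴴ * ((U * diagonal T * Uᴴ) * e) * U
                  = (Uᴴ * U) * (diagonal T * (Uᴴ * e * U)) := by simp only [Matrix.mul_assoc]
                _ = _ := by rw [hU1, Matrix.one_mul]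
      have h3 := congrFun (congrFun h2 i) j
      rw [Matrix.diagonal_mul, Matrix.mul_diagonal, mul_comm] at h3
      exact (mul_right_cancel₀ hij h3).symm
    · have h2 : (Uᴴ * e * U) * diagonal κ = diagonal κ * (Uᴴ * e * U) := by
        calc (Uᴴ * e * U) * diagonal κ = Uᴴ * e * (U * diagonal κ) := by
              simp only [Matrix.mul_assoc]
          _ = Uᴴ * (e * diagonal k) * U := by
              rw [← hκ]
              simp only [Matrix.mul_assoc]
          _ = Uᴴ * diagonal k * e * U := by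
              rw [hEk e he]
              simp only [Matrix.mul_assoc]
          _ = diagonal κ * (Uᴴ * e * U) := by
              rw [hUk]
              simp only [Matrix.mul_assoc]
      have h3 := congrFun (congrFun h2 i) j
      rw [Matrix.diagonal_mul, Matrix.mul_diagonal, mul_comm] at h3
      exact (mul_right_cancel₀ hij h3).symm
  have heqv : ∀ i j, (∀ T, diagonal T ∈ h' → T i = T j) → κ i = κ j := by
    intro i j hT
    have h1 : diagonal a' ∈ h' := by
      have e : diagonal a' = Uᴴ * diagonal a * U := by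
        rw [Matrix.mul_assoc, ha', ← Matrix.mul_assoc, hU1, Matrix.one_mul]
      rw [e]
      exact hmS _ ha
    have h2 := hT a' h1
    exact hak _ _ (by rw [hent _ _ (hr i), hent _ _ (hr j), h2])
  have har : ∀ i j, U i j ≠ 0 → a i = a (r j) := fun i j hij =>
    (hent i j hij).trans (hent (r j) j (hr j)).symm
  have hmr : diagonal (fun j => a (r j)) ∈ h' := by
    have e : U * diagonal (fun j => a (r j)) * Uᴴ = diagonal a := by
      have e1 : U * diagonal (fun j => a (r j)) = diagonal a * U := by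
        ext i j
        rw [Matrix.diagonal_mul, Matrix.mul_diagonal]
        by_cases h0 : U i j = 0
        · simp [h0]
        · rw [har i j h0, mul_comm]
      rw [e1, Matrix.mul_assoc, hU2, Matrix.mul_one]
    rw [hm, e]
    exact ha
  refine ⟨U, κ, r, ⟨hU1, hU2, hκ, fun i => ⟨r i, rfl⟩, hmS, hsit, hsame, fun L u hu X hX => ?_,
    heqv⟩, har, hmr⟩
  have hg : (Uᴴ)⁻¹ = U := Matrix.inv_eq_right_inv hU1
  have h1 := a1.gT_aT Uᴴ (U * X * Uᴴ) u (by rw [hg, hU1])
  rw [hu _ ((hm X).1 hX), hg] at h1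
  have e : Uᴴ * (U * X * Uᴴ) * U = X := by
    calc Uᴴ * (U * X * Uᴴ) * U = (Uᴴ * U) * X * (Uᴴ * U) := by simp only [Matrix.mul_assoc]
      _ = X := by rw [hU1, Matrix.one_mul, Matrix.mul_one]
  rw [e] at h1
  rw [← h1]
  funext w
  simp [gT]

end Pool.Agent.Lib.MP_361a6f_ag.FL.E.R4
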