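import Pool.Agent.Lib.MP_361a6f_ag.FL.E5.Defs
import Pool.Agent.Lib.MP_361a6f_ag.FL.E.E6
import Pool.Agent.Lib.MP_361a6f_ag.FL.E.RotA

/-!
# Theorem E5, row SIX: at most five pieces
-/

set_option autoImplicit false
set_option linter.unusedSectionVars false

namespace Pool.Agent.Lib.MP_361a6f_ag.FL.E.SixP

variable {I Λ : Type} [Fintype I] [DecidableEq I] [DecidableEq Λ] {D : Dat I Λ}
  {At : (L : ℕ) → Ten I L → Prop} {Γ : Set (Matrix I I ℂ)}

theorem stabU_bot : StabU D At Γ (⊥ : Submodule ℂ (I → ℂ)) := by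
  refine ⟨?_, ?_⟩
  · intro z _ v hv
    rw [Submodule.mem_bot] at hv ⊢
    rw [hv, Matrix.mulVec_zero]
  · refine (Set.finite_singleton (⊥ : Submodule ℂ (I → ℂ))).subset ?_
    rintro U' ⟨x, _, rfl⟩
    exact Submodule.map_bot _

theorem stabU_sup {U V : Submodule ℂ (I → ℂ)} (hU : StabU D At Γ U) (hV : StabU D At Γ V) :
    StabU D At Γ (U ⊔ V) := by
  refine ⟨?_, ?_⟩
  · intro z hz v hv
    obtain ⟨a, ha, b, hb, rfl⟩ := Submodule.mem_sup.1 hv
    rw [Matrix.mulVec_add]
    exact Submodule.add_mem_sup (hU.1 z hz a ha) (hV.1 z hz b hb)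
  · refine (Set.Finite.image2 (fun a b => a ⊔ b) hU.2 hV.2).subset ?_
    rintro U' ⟨x, hx, rfl⟩
    exact ⟨_, ⟨x, hx, rfl⟩, _, ⟨x, hx, rfl⟩, (Submodule.map_sup _ _ _).symm⟩

theorem slT_slot {L : ℕ} {N : Fin L → Matrix I I ℂ} {j : Fin L} (h : N j = 0) (u : Ten I L) :
    Rot.slT N u = 0 := by
  funext w
  refine Finset.sum_eq_zero fun w' _ => ?_
  rw [Finset.prod_eq_zero (Finset.mem_univ j) (by rw [h]; rfl), zero_mul]

theorem even_odds {B : Type} [Fintype B] [DecidableEq B] {L : ℕ} (c : Fin L → B) (hL : Even L) :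
    Even (odds c).card := by
  unfold odds
  rw [← Finset.even_sum_iff_even_card_odd]
  have h : ∑ b : B, (Finset.univ.filter fun j => c j = b).card = L := by
    have h1 := Finset.card_eq_sum_card_fiberwise (f := c) (s := Finset.univ) (t := Finset.univ)
      (fun _ _ => Finset.mem_coe.2 (Finset.mem_univ _))
    rw [Finset.card_univ, Fintype.card_fin] at h1
    exact h1.symm
  rwa [h]

/-- **Row SIX.** If the space is not the direct sum of six nonzero stable subspaces then the
condition on the parities holds in every length. -/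
theorem kcond4 (S : ASys D At) (ho : ∀ i, D.odd (D.typ i))
    (h6 : ∀ U : Fin 6 → Submodule ℂ (I → ℂ), (∀ i, StabU D At Γ (U i)) → (∀ i, U i ≠ ⊥) →
      iSupIndep U → (⨆ i, U i) = ⊤ → False) (L : ℕ) : KCond4 D At Γ L := by
  classical
  refine ⟨L, ?_⟩
  intro B _ _ π hd 𝓜 _ _ h4 c u hu hne
  refine h4 L le_rfl c u hu hne ?_
  by_contra hcon
  have hu0 : u ≠ 0 := fun h => hne (by rw [h, Rot.slT_zero])
  have hL : Even L := by
    rcases Nat.even_or_odd L with h | h
    · exact h
    · exact absurd (Six.odd_zero ho h (S.even L u hu)) hu0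
  have h6' : 6 ≤ (odds c).card := by
    obtain ⟨n, hn⟩ := even_odds c hL
    omega
  obtain ⟨T, hT, hTc⟩ := Finset.exists_subset_card_eq h6'
  let f : Fin 6 → B := fun i => ((T.equivFinOfCardEq hTc).symm i : B)
  have hf : Function.Injective f := fun i j h =>
    (T.equivFinOfCardEq hTc).symm.injective (Subtype.ext h)
  have hfT : ∀ i, f i ∈ odds c := fun i => hT ((T.equivFinOfCardEq hTc).symm i).2
  let g : B → Fin 6 := Function.invFun f
  have hg : ∀ i, g (f i) = i := Function.leftInverse_invFun hf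
  -- the pieces that occur are not zero
  have hπ : ∀ i, π (f i) ≠ 0 := by
    intro i h
    have h1 := hfT i
    unfold odds at h1
    rw [Finset.mem_filter] at h1
    obtain ⟨j, hj⟩ : ∃ j, c j = f i := by
      have h2 : 0 < (Finset.univ.filter fun j => c j = f i).card := h1.2.pos
      obtain ⟨j, hj⟩ := Finset.card_pos.1 h2
      exact ⟨j, (Finset.mem_filter.1 hj).2⟩
    exact hne (slT_slot (j := j) (by rw [hj, h]) u)
  let ρ : Fin 6 → Matrix I I ℂ := fun i => ∑ b ∈ Finset.univ.filter (fun b => g b = i), π b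
  have hρ : ∀ i b, ρ i * π b = if g b = i then π b else 0 := by
    intro i b
    change (∑ b' ∈ Finset.univ.filter (fun b' => g b' = i), π b') * π b = _
    rw [Finset.sum_mul]
    split_ifs with h
    · rw [Finset.sum_eq_single b]
      · rw [hd.mul, if_pos rfl]
      · intro b' _ hb'
        rw [hd.mul, if_neg hb']
      · intro hb
        have h1 : b ∈ Finset.univ.filter fun b' => g b' = i :=
          Finset.mem_filter.2 ⟨Finset.mem_univ b, h⟩
        exact absurd h1 hb
    · refine Finset.sum_eq_zero fun b' hb' => ?_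
      rw [hd.mul, if_neg]
      rintro rfl
      exact h (Finset.mem_filter.1 hb').2
  let V : B → Submodule ℂ (I → ℂ) := fun b => LinearMap.range (Matrix.toLin' (π b))
  let U : Fin 6 → Submodule ℂ (I → ℂ) := fun i => (Finset.univ.filter fun b => g b = i).sup V
  have hVU : ∀ b, V b ≤ U (g b) := fun b =>
    Finset.le_sup (f := V) (Finset.mem_filter.2 ⟨Finset.mem_univ _, rfl⟩)
  have hact : ∀ i, ∀ v ∈ U i, ∀ j, (ρ j).mulVec v = if i = j then v else 0 := by
    intro i v hv j
    have h1 : U i ≤ LinearMap.ker (Matrix.toLin' (ρ j - if i = j then 1 else 0)) := by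
      refine Finset.sup_le fun b hb => ?_
      rintro _ ⟨w, rfl⟩
      have hgb : g b = i := (Finset.mem_filter.1 hb).2
      rw [LinearMap.mem_ker, ← LinearMap.comp_apply, ← Matrix.toLin'_mul, sub_mul, hρ, hgb]
      split_ifs <;> simp
    have h2 := h1 hv
    rw [LinearMap.mem_ker, Matrix.toLin'_apply, Matrix.sub_mulVec, sub_eq_zero] at h2
    rw [h2]
    split_ifs <;> simp
  refine h6 U (fun i => ?_) (fun i h => ?_) ?_ ?_
  · exact Finset.sup_induction stabU_bot (fun a ha b hb => stabU_sup ha hb) (fun b _ => hd.stab b)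
  · have h1 := hVU (f i)
    rw [hg, h, le_bot_iff] at h1
    have h2 : Matrix.toLin' (π (f i)) = 0 := LinearMap.range_eq_bot.1 h1
    exact hπ i ((map_eq_zero_iff _ Matrix.toLin'.injective).1 h2)
  · rw [iSupIndep_def]
    intro i
    rw [Submodule.disjoint_def]
    intro v hv hv'
    have h1 : (⨆ j, ⨆ (_ : j ≠ i), U j) ≤ LinearMap.ker (Matrix.toLin' (ρ i)) := by
      refine iSup₂_le fun j hj w hw => ?_
      rw [LinearMap.mem_ker, Matrix.toLin'_apply, hact j w hw i, if_neg hj]
    have h2 := h1 hv'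
    rw [LinearMap.mem_ker, Matrix.toLin'_apply, hact i v hv i, if_pos rfl] at h2
    exact h2
  · rw [eq_top_iff]
    intro v _
    have h1 : v = ∑ b, (π b).mulVec v := by
      rw [← Matrix.sum_mulVec, hd.sum, Matrix.one_mulVec]
    rw [h1]
    refine Submodule.sum_mem _ fun b _ => ?_
    exact (le_iSup U (g b)) (hVU b ⟨v, Matrix.toLin'_apply _ _⟩)

end Pool.Agent.Lib.MP_361a6f_ag.FL.E.SixP
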