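import Pool.Agent.Lib.MP_361a6f_ag.FL.E.FinK
import Pool.Agent.Lib.MP_361a6f_ag.FL.PT.MainPT
import Pool.Agent.Lib.MP_361a6f_ag.FL.E5.Six

/-!
# Theorems E5 and E11: the data in coordinates from the hypotheses of the theorem

`four_hyp` is Theorem PT for the reduction; `grp1`, `gfix1`, `odd1`, `sys1`, `nd1` and `K6.six_iso`
are the hypotheses of the theorems in coordinates.
-/

open CategoryTheory AlgebraicGeometry MonoidalCategory CartesianMonoidalCategory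

universe u v w w'

set_option autoImplicit false

namespace Pool.Agent.Lib.MP_361a6f_ag.FL.E

open Pool.Agent.Lib.MP_361a6f_ag.H3 Pool.Agent.Lib.MP_361a6f_ag.SQ
  Pool.Agent.Lib.MP_361a6f_ag.PP Pool.Agent.Lib.MP_361a6f_ag.FL.PT

namespace K6

open Pool.Agent.Lib.MP_361a6f_ag.FL.E.Orb in
/-- a direct sum of stable subspaces of the coordinate space gives one of `H^1(X)` -/
theorem six_iso {k : Type u} [Field k] {W : CohomologyData.{u, 0, w} k ℂ} {𝒱 : VarietyClass k}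
    {X : Sch k} {g : ℕ} {ξ : W.coh X} (c : Hst.Core W X g ξ) (hW : IsWeilCohomology W 𝒱)
    (hX : 𝒱.mem X g) (hξ : ξ ∈ W.alg X 1)
    (Γ : Set (Matrix c.I c.I ℂ)) (hΓ : ∀ M ∈ Γ, ∀ i j, c.D.typ i ≠ c.D.typ j → M i j = 0)
    (hsym : ∀ T, EQ.IsSym W X T → ∃ M ∈ Γ, ∀ z : W.coh X,
      (c.host hW hX hξ).tc (.leaf 0) (T (.leaf 0) z) = gT M ((c.host hW hX hξ).tc (.leaf 0) z))
    {n : ℕ} (six : ∀ U : Fin n → Submodule ℂ (W.coh X), (∀ i, EQ.Stable W X g (U i)) →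
      (∀ i, U i ≠ ⊥) → iSupIndep U → ⨆ i, U i ≠ W.gr X 1)
    (U : Fin n → Submodule ℂ (Sub c.D (lt 1) → ℂ))
    (hU : ∀ i, StabU (subD c.D (lt 1)) (atS c.D (lt 1) fun L u => u ∈ (c.host hW hX hξ).At L)
      (blk '' Γ) (U i)) (h0 : ∀ i, U i ≠ ⊥) (hi : iSupIndep U) (ht : (⨆ i, U i) = ⊤) : False := by
  have hinj : Function.Injective (cl1 c hW hX hξ) := cls_inj (H := c.host hW hX hξ) (ge _)
  refine six (fun i => (U i).map (cl1 c hW hX hξ))
    (fun i => stable_core c hW hX hξ Γ hΓ hsym (hU i)) (fun i hb => h0 i ?_)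
    (indep_map hinj hi) ?_
  · rw [eq_bot_iff]
    intro v hv
    have h1 : cl1 c hW hX hξ v ∈ (U i).map (cl1 c hW hX hξ) := ⟨v, hv, rfl⟩
    have hb' : (U i).map (cl1 c hW hX hξ) = ⊥ := hb
    rw [hb', Submodule.mem_bot] at h1
    exact hinj (h1.trans (map_zero _).symm)
  · rw [← Submodule.map_iSup, ht, Submodule.map_top]
    exact range_cls (H := c.host hW hX hξ) staB (ge _)

end K6

section hyp

variable {k : Type u} [Field k] {k' : Type v} [Field k'] {W : CohomologyData.{u, 0, w} k ℂ}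
  {𝒱 : VarietyClass k} {W' : CohomologyData.{v, 0, w'} k' ℂ} {𝒱' : VarietyClass k'}
  (hW : IsWeilCohomology W 𝒱) (hW' : IsWeilCohomology W' 𝒱') {D : EQ.Data W W'}
  (h : EQ.Hyp 𝒱 𝒱' D) (hM : EQ.Moving W' D.X' D.g (D.s (.leaf 0) D.ξ))
  (c : Hst.Core W D.X D.g D.ξ)

include hM in
/-- `ψ` is positive semidefinite on the real span of the algebraic tensors of length four of the
reduction (Theorem PT). -/
theorem four_hyp (u : Ten (Sub c.D (0, 1)) 4)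
    (hu : u ∈ Submodule.span ℝ {u | At1 (hstY hW hW' h c) 4 u}) :
    ∃ r : ℝ, 0 ≤ r ∧ psiT (subD c.D (0, 1)) u u = (r : ℂ) := by
  obtain ⟨Y, hG, P⟩ := exists_frame_hyp hW hW' h c
  have h0 : ∀ x, W'.Deg D.X' 0 x → ∃ c, x = W'.scal c 1 := conn_hyp hW hW' h
  obtain ⟨Lw⟩ := Fill.law hW' h.mem' h0 hM
  exact pos_four (H := hstY hW hW' h c) b3 rowA1 rowA2 Lw (Fill.eff hW' h.mem' hM)
    (abelianType_of_unital hW' h.mem' h0 hM.unital (posd_hyp h)) (posd_hyp h)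
    (fun z hz => hM.endo z hz) hG P hu

/-- the matrices of the symmetries on the letter of degree one -/
theorem grp1 {Γ : Set (Matrix c.I c.I ℂ)} (hΓ : IsMats hW h c Γ) :
    ∀ x ∈ (E.blk '' Γ : Set (Matrix (Sub c.D (0, 1)) (Sub c.D (0, 1)) ℂ)),
      IsG (subD c.D (0, 1)) x := by
  rintro _ ⟨M, hM, rfl⟩
  exact isG_blk (hΓ.grp M hM)

/-- they fix the algebraic tensors -/
theorem gfix1 {Γ : Set (Matrix c.I c.I ℂ)} (hΓ : IsMats hW h c Γ) :
    ∀ x ∈ (E.blk '' Γ : Set (Matrix (Sub c.D (0, 1)) (Sub c.D (0, 1)) ℂ)),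
      ∀ L u, At1 (hst hW h c) L u → gT x u = u := by
  rintro _ ⟨M, hM, rfl⟩ L u hu
  exact fix_sub (hΓ.blk M hM) (At := fun L u => u ∈ (hst hW h c).At L)
    (fun L u hu => hΓ.fix M hM L u hu) L u hu

include hW h in
/-- the letters are odd -/
theorem odd1 (i : Sub c.D (0, 1)) : (subD c.D (0, 1)).odd ((subD c.D (0, 1)).typ i) := by
  show c.D.odd (c.D.typ i.1)
  rw [i.2]
  exact Hst.odd_one (hst hW h c) 0

/-- the algebraic tensors -/
theorem sys1 : ASys (subD c.D (0, 1)) (At1 (hst hW h c)) :=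
  aSys_sub (α := ((0, 1) : Fin 1 × ℕ)) (aSys_at (at_ (hst hW h c)))

/-- the form is not degenerate on the algebraic tensors -/
theorem nd1 {Γ : Set (Matrix c.I c.I ℂ)} (hΓ : IsMats hW h c Γ)
    (iso : ∀ U, EQ.Stable W D.X D.g U →
      (∀ x ∈ U, ∀ y ∈ U, W.Tr (W.cup (D.ξ ^ (D.g - 1)) (W.cup x y)) = 0) → U = ⊥) :
    ∀ L, ∀ u ∈ Submodule.span ℂ {u | At1 (hst hW h c) L u}, u ≠ 0 →
      ∃ v ∈ Submodule.span ℂ {u | At1 (hst hW h c) L u}, psiT (subD c.D (0, 1)) u v ≠ 0 :=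
  Nd.nd_of_h1 (sys1 hW h c) (odd1 hW h c) (fun i j => i.2.trans j.2.symm) _ (grp1 hW h c hΓ)
    (gfix1 hW h c hΓ) (K6.h1_iso c hW h.mem h.div.1 Γ hΓ.blk hΓ.sym h.div iso)

end hyp

end Pool.Agent.Lib.MP_361a6f_ag.FL.E
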