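import Pool.Agent.Lib.MP_361a6f_ag.FL.E5.Usy
import Pool.Agent.Lib.MP_361a6f_ag.FL.E.E6

/-!
# Theorem E5: good words

The signs of the algebraic tensors of the reduction in an adapted basis of eigenvectors of
Frobenius, and their calculus: permutation, juxtaposition, the involution, change of letters in one
eigenspace, cancellation.
-/

set_option autoImplicit false
set_option linter.unusedSectionVars false

open Matrix

namespace Pool.Agent.Lib.MP_361a6f_ag.FL.E5

open Pool.Agent.Lib.MP_361a6f_ag.FL.E Pool.Agent.Lib.MP_361a6f_ag.FL.E.QS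
open Pool.Agent.Lib.MP_361a6f_ag.FL.PT (tau_ne pwd sl_diag Mulf)

/-- two words with the same letters -/
theorem exists_perm {I : Type} [DecidableEq I] {L : ℕ} {w w' : Fin L → I}
    (h : Finset.univ.val.map w = Finset.univ.val.map w') :
    ∃ σ : Equiv.Perm (Fin L), w ∘ σ = w' := by
  have h1 : ∀ a, Nonempty ({i // w' i = a} ≃ {i // w i = a}) := fun a => by
    have h2 := congrArg (Multiset.count a) h
    rw [Multiset.count_map, Multiset.count_map] at h2
    refine ⟨Fintype.equivOfCardEq ?_⟩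
    rw [Fintype.card_subtype, Fintype.card_subtype]
    have e : ∀ f : Fin L → I, (Finset.univ.filter fun i => f i = a).card =
        Multiset.card (Multiset.filter (fun i => a = f i) Finset.univ.val) := by
      intro f
      rw [Finset.card_def, Finset.filter_val]
      congr 1
      exact Multiset.filter_congr fun i _ => eq_comm
    rw [e, e, h2]
  refine ⟨Equiv.ofFiberEquiv fun a => Classical.choice (h1 a), ?_⟩
  funext i
  exact Equiv.ofFiberEquiv_map (fun a => Classical.choice (h1 a)) i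

/-- every multiset is the multiset of the letters of a word -/
theorem exists_word {I : Type} (m : Multiset I) :
    ∃ (L : ℕ) (w : Fin L → I), Finset.univ.val.map w = m := by
  induction m using Quotient.inductionOn with
  | h l =>
    refine ⟨l.length, l.get, ?_⟩
    show Multiset.map l.get (Finset.univ : Finset (Fin l.length)).val = (l : Multiset I)
    rw [Fin.univ_val_map]
    congr 1
    exact List.ofFn_get l

theorem letters_append {I : Type} {p q : ℕ} (v : Fin p → I) (w : Fin q → I) :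
    Finset.univ.val.map (Fin.append v w) = Finset.univ.val.map v + Finset.univ.val.map w := by
  rw [Fin.univ_val_map, Fin.univ_val_map, Fin.univ_val_map, List.ofFn_fin_append]
  rfl

theorem letters_one {I : Type} (i : I) : Finset.univ.val.map (![i] : Fin 1 → I) = {i} := rfl

theorem letters_two {I : Type} (i j : I) : Finset.univ.val.map (![i, j] : Fin 2 → I) = {i, j} := rfl

variable {I Λ : Type} [Fintype I] [DecidableEq I] [DecidableEq Λ]

/-- the data of the reduction in an adapted basis -/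
structure BSys (D : Dat I Λ) (Bt : (L : ℕ) → Ten I L → Prop) (l : I → ℂ) : Prop where
  usys : USys D (Rsp.RS Bt)
  odd : ∀ i, D.odd (D.typ i)
  typ : ∀ i j, D.typ i = D.typ j
  tau : ∀ i, l (D.τ i) * l i = 1
  blk : ∀ M : Matrix I I ℂ, (∀ i j, l i ≠ l j → M i j = 0) →
    (∀ i j, M (D.τ i) (D.τ j) = D.s i * D.s j * (starRingEnd ℂ) (M i j)) →
    mten D M ∈ Rsp.RS Bt 2
  two : ∀ u ∈ Rsp.RS Bt 2, ∃ r : ℝ, 0 ≤ r ∧ psiT D u u = (r : ℂ)
  four : ∀ u ∈ Rsp.RS Bt 4, ∃ r : ℝ, 0 ≤ r ∧ psiT D u u = (r : ℂ)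

/-- the word `w` has the sign `e` -/
def Good (D : Dat I Λ) (Bt : (L : ℕ) → Ten I L → Prop) {L : ℕ} (w : Fin L → I) (e : ℤˣ) : Prop :=
  ∃ u ∈ Rsp.RS Bt L, ∃ r : ℝ, 0 < r ∧
    sg D w * (u w * u (D.τ ∘ w)) = ((e : ℤ) : ℂ) * (r : ℂ)

/-- the multiset of letters `m` has the sign `e` -/
def GoodM (D : Dat I Λ) (Bt : (L : ℕ) → Ten I L → Prop) (m : Multiset I) (e : ℤˣ) : Prop :=
  ∃ (L : ℕ) (w : Fin L → I), Finset.univ.val.map w = m ∧ Good D Bt w e

variable {D : Dat I Λ} {Bt : (L : ℕ) → Ten I L → Prop} {l : I → ℂ}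

theorem s_sq (i : I) : D.s i * D.s i = 1 := Slot.s_sq i

theorem sg_append {p q : ℕ} (v : Fin p → I) (w : Fin q → I) :
    sg D (Fin.append v w) = sg D v * sg D w := by
  rw [sg, sg, sg, Fin.prod_univ_add]
  congr 1
  · exact Finset.prod_congr rfl fun i _ => by rw [Fin.append_left]
  · exact Finset.prod_congr rfl fun i _ => by rw [Fin.append_right]

theorem sg_perm {L : ℕ} (w : Fin L → I) (σ : Equiv.Perm (Fin L)) : sg D (w ∘ σ) = sg D w :=
  Equiv.prod_comp σ fun i => D.s (w i)

theorem sg_tau (ho : ∀ i, D.odd (D.typ i)) {L : ℕ} (w : Fin L → I) :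
    sg D (D.τ ∘ w) = (-1) ^ L * sg D w := by
  rw [sg, sg]
  have h : ∀ i ∈ (Finset.univ : Finset (Fin L)), D.s ((D.τ ∘ w) i) = (-1) * D.s (w i) :=
    fun i _ => by
      show D.s (D.τ (w i)) = _
      rw [(D.odd_τ _ (ho _)).2]
      ring
  rw [Finset.prod_congr rfl h, Finset.prod_mul_distrib, Finset.prod_const, Finset.card_univ,
    Fintype.card_fin]

/-- permutation of the letters -/
theorem Good.perm (S : BSys D Bt l) {L : ℕ} {w : Fin L → I} {e : ℤˣ} (h : Good D Bt w e)
    (σ : Equiv.Perm (Fin L)) : Good D Bt (w ∘ σ) e := by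
  obtain ⟨u, hu, r, hr, h1⟩ := h
  refine ⟨permT σ⁻¹ u, S.usys.perm L σ⁻¹ u hu, r, hr, ?_⟩
  have e1 : permT σ⁻¹ u (w ∘ σ) = u w := by
    show u ((w ∘ σ) ∘ (σ⁻¹ : Equiv.Perm (Fin L))) = u w
    congr 1
    funext i
    show w (σ ((σ⁻¹ : Equiv.Perm (Fin L)) i)) = w i
    rw [Equiv.Perm.inv_def, Equiv.apply_symm_apply]
  have e2 : permT σ⁻¹ u (D.τ ∘ (w ∘ σ)) = u (D.τ ∘ w) := by
    show u ((D.τ ∘ (w ∘ σ)) ∘ (σ⁻¹ : Equiv.Perm (Fin L))) = u (D.τ ∘ w)
    congr 1
    funext i
    show D.τ (w (σ ((σ⁻¹ : Equiv.Perm (Fin L)) i))) = D.τ (w i)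
    rw [Equiv.Perm.inv_def, Equiv.apply_symm_apply]
  rw [e1, e2, sg_perm]
  exact h1

/-- the sign depends on the letters only -/
theorem Good.of_map (S : BSys D Bt l) {L L' : ℕ} {w : Fin L → I} {w' : Fin L' → I} {e : ℤˣ}
    (h : Good D Bt w e) (hw : Finset.univ.val.map w = Finset.univ.val.map w') :
    Good D Bt w' e := by
  have h1 := congrArg Multiset.card hw
  rw [Multiset.card_map, Multiset.card_map] at h1
  have h2 : L = L' := by simpa using h1
  subst h2
  obtain ⟨σ, rfl⟩ := exists_perm hw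
  exact h.perm S σ

theorem goodM_iff (S : BSys D Bt l) {L : ℕ} {w : Fin L → I} {m : Multiset I} {e : ℤˣ}
    (hw : Finset.univ.val.map w = m) : GoodM D Bt m e ↔ Good D Bt w e := by
  constructor
  · rintro ⟨L', w', h1, h2⟩
    exact h2.of_map S (h1.trans hw.symm)
  · intro h
    exact ⟨L, w, hw, h⟩

/-- juxtaposition -/
theorem Good.append (S : BSys D Bt l) {p q : ℕ} {v : Fin p → I} {w : Fin q → I} {e d : ℤˣ}
    (hv : Good D Bt v e) (hw : Good D Bt w d) : Good D Bt (Fin.append v w) (e * d) := by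
  obtain ⟨u, hu, r, hr, h1⟩ := hv
  obtain ⟨u', hu', r', hr', h2⟩ := hw
  refine ⟨outer u u', S.usys.outer p q u u' hu hu', r * r', mul_pos hr hr', ?_⟩
  have e1 : outer u u' (Fin.append v w) = u v * u' w := by
    show u (fun i => Fin.append v w (Fin.castAdd q i)) * u' (fun i => Fin.append v w (Fin.natAdd p i)) = _
    congr 2
    · funext i
      rw [Fin.append_left]
    · funext i
      rw [Fin.append_right]
  have e2 : outer u u' (D.τ ∘ Fin.append v w) = u (D.τ ∘ v) * u' (D.τ ∘ w) := by
    show u (fun i => D.τ (Fin.append v w (Fin.castAdd q i)))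
      * u' (fun i => D.τ (Fin.append v w (Fin.natAdd p i))) = _
    congr 2
    · funext i
      rw [Fin.append_left]
      rfl
    · funext i
      rw [Fin.append_right]
      rfl
  rw [e1, e2, sg_append]
  push_cast
  linear_combination (sg D w * (u' w * u' (D.τ ∘ w))) * h1
    + (((e : ℤ) : ℂ) * (r : ℂ)) * h2

/-- a pair of letters -/
theorem good_pair (S : BSys D Bt l) (i : I) : Good D Bt ![i, D.τ i] 1 := by
  refine ⟨om D (D.typ i), S.usys.om _, 1, one_pos, ?_⟩
  have h1 : om D (D.typ i) ![i, D.τ i] = D.s i := if_pos ⟨rfl, rfl⟩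
  have h2 : om D (D.typ i) (D.τ ∘ ![i, D.τ i]) = D.s (D.τ i) :=
    if_pos ⟨D.typ_τ i, rfl⟩
  have h3 : sg D (![i, D.τ i] : Fin 2 → I) = D.s i * D.s (D.τ i) := by
    rw [sg, Fin.prod_univ_two]
    rfl
  rw [h1, h2, h3, (D.odd_τ i (S.odd i)).2, Units.val_one]
  push_cast
  linear_combination (D.s i * D.s i + 1) * s_sq (D := D) i

/-- the matrix that replaces the letter `i` by `j` -/
def repM (D : Dat I Λ) (i j : I) : Matrix I I ℂ := fun a b =>
  if a = j ∧ b = i then 1 else if a = D.τ j ∧ b = D.τ i then D.s i * D.s j else 0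

theorem repM_mem (S : BSys D Bt l) {i j : I} (hij : l i = l j) :
    mten D (repM D i j) ∈ Rsp.RS Bt 2 := by
  have hτ : ∀ i, D.τ i ≠ i := tau_ne S.odd
  have hinj : ∀ a b, D.τ a = D.τ b → a = b := fun a b h => by
    have := congrArg D.τ h
    rwa [D.τ_τ, D.τ_τ] at this
  refine S.blk _ ?_ ?_
  · intro a b hab
    rw [repM, if_neg, if_neg]
    · rintro ⟨rfl, rfl⟩
      apply hab
      have h1 := S.tau i
      have h2 := S.tau j
      have h3 : l j ≠ 0 := fun h => by rw [h, mul_zero] at h2; exact zero_ne_one h2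
      rw [hij] at h1
      exact mul_right_cancel₀ h3 (h2.trans h1.symm)
    · rintro ⟨rfl, rfl⟩
      exact hab hij.symm
  · intro a b
    show (if D.τ a = j ∧ D.τ b = i then (1 : ℂ) else if D.τ a = D.τ j ∧ D.τ b = D.τ i then
      D.s i * D.s j else 0) = D.s a * D.s b * (starRingEnd ℂ) (if a = j ∧ b = i then 1 else
        if a = D.τ j ∧ b = D.τ i then D.s i * D.s j else 0)
    by_cases h1 : a = j ∧ b = i
    · obtain ⟨rfl, rfl⟩ := h1
      rw [if_neg (fun h => hτ _ h.1), if_pos ⟨rfl, rfl⟩, if_pos ⟨rfl, rfl⟩, map_one, mul_one,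
        mul_comm]
    · rw [if_neg h1]
      by_cases h2 : a = D.τ j ∧ b = D.τ i
      · obtain ⟨rfl, rfl⟩ := h2
        rw [D.τ_τ, D.τ_τ, if_pos ⟨rfl, rfl⟩, if_pos ⟨rfl, rfl⟩, map_mul, Rea.conj_s, Rea.conj_s,
          (D.odd_τ _ (S.odd _)).2, (D.odd_τ _ (S.odd _)).2]
        linear_combination -(D.s i * D.s i) * s_sq (D := D) j - s_sq (D := D) i
      · rw [if_neg h2, map_zero, mul_zero, if_neg, if_neg]
        · rintro ⟨h3, h4⟩
          exact h1 ⟨hinj _ _ h3, hinj _ _ h4⟩
        · rintro ⟨h3, h4⟩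
          apply h2
          rw [← h3, ← h4, D.τ_τ, D.τ_τ]
          exact ⟨rfl, rfl⟩

/-- a letter may be replaced by a letter with the same eigenvalue of Frobenius -/
theorem Good.rep (S : BSys D Bt l) {L : ℕ} {w : Fin L → I} {e : ℤˣ} (h : Good D Bt w e)
    (q : Fin L) {j : I} (hj : l (w q) = l j) : Good D Bt (Function.update w q j) e := by
  obtain ⟨u, hu, r, hr, h1⟩ := h
  have hM := S.usys.sl S.odd S.typ (repM_mem S hj) q hu
  rw [opM_mten] at hM
  refine ⟨_, hM, r, hr, ?_⟩
  have hτ : ∀ i, D.τ i ≠ i := tau_ne S.odd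
  have e1 : Slot.sl (repM D (w q) j) q u (Function.update w q j) = u w := by
    show ∑ c, repM D (w q) j (Function.update w q j q) c
      * u (Function.update (Function.update w q j) q c) = u w
    rw [Finset.sum_eq_single (w q)]
    · rw [Function.update_self, Function.update_idem, Function.update_eq_self, repM,
        if_pos ⟨rfl, rfl⟩, one_mul]
    · intro c _ hc
      rw [Function.update_self, repM, if_neg (fun h => hc h.2), if_neg (fun h => hτ _ h.1.symm),
        zero_mul]
    · intro h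
      exact absurd (Finset.mem_univ _) h
  have e2 : Slot.sl (repM D (w q) j) q u (D.τ ∘ Function.update w q j)
      = D.s (w q) * D.s j * u (D.τ ∘ w) := by
    show ∑ c, repM D (w q) j ((D.τ ∘ Function.update w q j) q) c
      * u (Function.update (D.τ ∘ Function.update w q j) q c) = _
    have e3 : (D.τ ∘ Function.update w q j) q = D.τ j := by
      rw [Function.comp_apply, Function.update_self]
    have e4 : ∀ c, Function.update (D.τ ∘ Function.update w q j) q c
        = Function.update (D.τ ∘ w) q c := by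
      intro c
      funext i
      by_cases hi : i = q
      · subst hi
        rw [Function.update_self, Function.update_self]
      · rw [Function.update_of_ne hi, Function.update_of_ne hi, Function.comp_apply,
          Function.update_of_ne hi, Function.comp_apply]
    rw [Finset.sum_eq_single (D.τ (w q))]
    · rw [e3, e4, repM, if_neg (fun h => hτ _ h.1), if_pos ⟨rfl, rfl⟩]
      congr 2
      exact Function.update_eq_self q (D.τ ∘ w)
    · intro c _ hc
      rw [e3, repM, if_neg (fun h => hτ _ h.1), if_neg (fun h => hc h.2), zero_mul]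
    · intro h
      exact absurd (Finset.mem_univ _) h
  have e5 : sg D (Function.update w q j) = D.s (w q) * D.s j * sg D w := by
    rw [sg, sg, ← Finset.mul_prod_erase _ _ (Finset.mem_univ q),
      ← Finset.mul_prod_erase _ (fun i => D.s (w i)) (Finset.mem_univ q), Function.update_self]
    have e6 : ∏ i ∈ Finset.univ.erase q, D.s (Function.update w q j i)
        = ∏ i ∈ Finset.univ.erase q, D.s (w i) :=
      Finset.prod_congr rfl fun i hi => by rw [Function.update_of_ne (Finset.ne_of_mem_erase hi)]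
    rw [e6]
    linear_combination (-(D.s j) * ∏ i ∈ Finset.univ.erase q, D.s (w i)) * s_sq (D := D) (w q)
  rw [e1, e2, e5, ← h1]
  linear_combination (D.s (w q) * D.s (w q) * sg D w * (u w * u (D.τ ∘ w))) * s_sq (D := D) j
    + (sg D w * (u w * u (D.τ ∘ w))) * s_sq (D := D) (w q)

theorem BSys.coord (S : BSys D Bt l) (L : ℕ) (r : Fin L) (z : I → ℂ)
    (hz : ∀ i, z (D.τ i) = (starRingEnd ℂ) (z i)) :
    (fun w => z (w r) : Ten I L) ∈ Mulf (Rsp.RS Bt L) := by
  intro u hu
  have h1 : mten D (Matrix.diagonal z) ∈ Rsp.RS Bt 2 := by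
    refine S.blk _ ?_ ?_
    · intro i j hij
      rw [Matrix.diagonal_apply_ne]
      rintro rfl
      exact hij rfl
    · intro i j
      by_cases h : i = j
      · subst h
        rw [Matrix.diagonal_apply_eq, Matrix.diagonal_apply_eq, s_sq, one_mul, hz]
      · rw [Matrix.diagonal_apply_ne, Matrix.diagonal_apply_ne _ h, map_zero, mul_zero]
        intro h2
        apply h
        have := congrArg D.τ h2
        rwa [D.τ_τ, D.τ_τ] at this
  have h := S.usys.sl S.odd S.typ h1 r hu
  rw [opM_mten, sl_diag] at h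
  exact h

/-- the projections to the pairs of words -/
theorem BSys.pwd_mem (S : BSys D Bt l) {L : ℕ} (hL : 0 < L) (w : Fin L → I) {u : Ten I L}
    (hu : u ∈ Rsp.RS Bt L) : pwd D w u ∈ Rsp.RS Bt L := by
  obtain ⟨n, rfl⟩ := Nat.exists_eq_succ_of_ne_zero hL.ne'
  exact pwd_memU (U := Rsp.RS Bt) S.odd S.coord w hu

/-- cancellation of a pair in a longer word -/
theorem Good.cancel (S : BSys D Bt l) {L : ℕ} (hL : 0 < L) {i : I} {w : Fin L → I} {e : ℤˣ}
    (h : Good D Bt (Fin.append ![i, D.τ i] w) e) : Good D Bt w e := by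
  obtain ⟨u, hu, r, hr, h1⟩ := h
  have hτ : ∀ i, D.τ i ≠ i := tau_ne S.odd
  -- the projection to the pair of words
  have hp := S.pwd_mem (by omega) (Fin.append ![i, D.τ i] w) hu
  have hc := S.usys.cont 2 L _ _ (S.usys.om (D.typ i)) hp
  refine ⟨_, hc, r, hr, ?_⟩
  have hne : w ≠ D.τ ∘ w := by
    intro h
    exact hτ _ (congrFun h ⟨0, hL⟩).symm
  have hap : ∀ (a b : Fin 2 → I) (w w' : Fin L → I), Fin.append a w = Fin.append b w' →
      a = b ∧ w = w' := by
    intro a b w w' h
    constructor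
    · funext q
      have := congrFun h (Fin.castAdd L q)
      rwa [Fin.append_left, Fin.append_left] at this
    · funext q
      have := congrFun h (Fin.natAdd 2 q)
      rwa [Fin.append_right, Fin.append_right] at this
  have hτa : D.τ ∘ Fin.append ![i, D.τ i] w = Fin.append ![D.τ i, i] (D.τ ∘ w) := by
    funext q
    refine Fin.addCases (fun q => ?_) (fun q => ?_) q
    · rw [Function.comp_apply, Fin.append_left, Fin.append_left]
      fin_cases q
      · rfl
      · exact D.τ_τ i
    · rw [Function.comp_apply, Fin.append_right, Fin.append_right]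
      rfl
  have e1 : cont D (om D (D.typ i)) (pwd D (Fin.append ![i, D.τ i] w) u) w
      = D.s i * u (Fin.append ![i, D.τ i] w) := by
    rw [Slot.cont_om S.typ S.odd, Finset.sum_eq_single i]
    · rw [pwd, if_pos (Or.inl rfl)]
    · intro b _ hb
      rw [pwd, if_neg, mul_zero]
      rintro (h | h)
      · exact hb (congrFun (hap _ _ _ _ h).1 0)
      · rw [hτa] at h
        exact hne (hap _ _ _ _ h).2
    · intro h
      exact absurd (Finset.mem_univ _) h
  have e2 : cont D (om D (D.typ i)) (pwd D (Fin.append ![i, D.τ i] w) u) (D.τ ∘ w)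
      = -D.s i * u (D.τ ∘ Fin.append ![i, D.τ i] w) := by
    rw [Slot.cont_om S.typ S.odd, Finset.sum_eq_single (D.τ i)]
    · rw [D.τ_τ, ← hτa, pwd, if_pos (Or.inr rfl), (D.odd_τ i (S.odd i)).2]
    · intro b _ hb
      rw [pwd, if_neg, mul_zero]
      rintro (h | h)
      · exact hne (hap _ _ _ _ h).2.symm
      · rw [hτa] at h
        exact hb (congrFun (hap _ _ _ _ h).1 0)
    · intro h
      exact absurd (Finset.mem_univ _) h
  have e3 : sg D (Fin.append ![i, D.τ i] w) = - sg D w := by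
    rw [sg_append]
    have e4 : sg D (![i, D.τ i] : Fin 2 → I) = D.s i * D.s (D.τ i) := by
      rw [sg, Fin.prod_univ_two]
      rfl
    rw [e4, (D.odd_τ i (S.odd i)).2]
    linear_combination (-(sg D w)) * s_sq (D := D) i
  rw [e1, e2, ← h1, e3]
  linear_combination (-(sg D w) * (u (Fin.append ![i, D.τ i] w)
    * u (D.τ ∘ Fin.append ![i, D.τ i] w))) * s_sq (D := D) i

/-- the form on the projection to a pair of words -/
theorem psi_pwd (S : BSys D Bt l) {L : ℕ} (hL : 0 < L) (hE : Even L) (w : Fin L → I)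
    (u : Ten I L) : psiT D (pwd D w u) (pwd D w u) = 2 * (sg D w * (u w * u (D.τ ∘ w))) := by
  have hτ : ∀ i, D.τ i ≠ i := tau_ne S.odd
  have hne : w ≠ D.τ ∘ w := by
    intro h
    exact hτ _ (congrFun h ⟨0, hL⟩).symm
  have hττ : D.τ ∘ (D.τ ∘ w) = w := by
    funext i
    exact D.τ_τ (w i)
  have e1 : pwd D w u w = u w := if_pos (Or.inl rfl)
  have e2 : pwd D w u (D.τ ∘ w) = u (D.τ ∘ w) := if_pos (Or.inr rfl)
  have h : ∀ w' ∈ (Finset.univ : Finset (Fin L → I)), w' ∉ ({w, D.τ ∘ w} : Finset (Fin L → I)) →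
      sg D w' * (pwd D w u w' * pwd D w u (D.τ ∘ w')) = 0 := by
    intro w' _ hw'
    rw [Finset.mem_insert, Finset.mem_singleton] at hw'
    have e3 : pwd D w u w' = 0 := if_neg hw'
    rw [e3, zero_mul, mul_zero]
  rw [psiT, ← Finset.sum_subset (Finset.subset_univ _) h, Finset.sum_pair hne, hττ, e1, e2,
    sg_tau S.odd, hE.neg_one_pow]
  ring

/-- in length zero, two and four the sign is `1` -/
theorem Good.sign' (S : BSys D Bt l) {L : ℕ} {w : Fin L → I} {e : ℤˣ} (h : Good D Bt w e)
    (hL : L = 0 ∨ L = 2 ∨ L = 4) : e = 1 := by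
  obtain ⟨u, hu, r, hr, h1⟩ := h
  -- it is enough that the value is nonnegative
  have key : ∀ x : ℝ, 0 ≤ x → sg D w * (u w * u (D.τ ∘ w)) = (x : ℂ) → e = 1 := by
    intro x hx h2
    rcases Int.units_eq_one_or e with he | he
    · exact he
    · exfalso
      rw [h1, he] at h2
      have h3 : (((-r : ℝ)) : ℂ) = (x : ℂ) := by
        rw [← h2]
        push_cast
        ring
      have h4 : -r = x := by exact_mod_cast h3
      linarith
  rcases hL with h0 | hL
  · subst h0
    obtain ⟨x, hx⟩ := S.usys.real u hu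
    refine key (x * x) (mul_self_nonneg x) ?_
    have h2 : sg D w = 1 := Fin.prod_univ_zero _
    rw [h2, hx, hx]
    push_cast
    ring
  · have hpos : 0 < L := by omega
    have hE : Even L := by
      rcases hL with rfl | rfl
      · exact ⟨1, rfl⟩
      · exact ⟨2, rfl⟩
    have hp := S.pwd_mem hpos w hu
    have h4 : ∃ x : ℝ, 0 ≤ x ∧ psiT D (pwd D w u) (pwd D w u) = (x : ℂ) := by
      rcases hL with rfl | rfl
      · exact S.two _ hp
      · exact S.four _ hp
    obtain ⟨x, hx, h5⟩ := h4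
    rw [psi_pwd S hpos hE] at h5
    refine key (x / 2) (by linarith) ?_
    push_cast
    linear_combination h5 / 2

/-! ### Multisets of letters -/

theorem card_letters {L : ℕ} (w : Fin L → I) : Multiset.card (Finset.univ.val.map w) = L := by
  rw [Multiset.card_map]
  show (Finset.univ : Finset (Fin L)).card = L
  rw [Finset.card_univ, Fintype.card_fin]

theorem GoodM.sign' (S : BSys D Bt l) {m : Multiset I} {e : ℤˣ} (h : GoodM D Bt m e)
    (hm : Multiset.card m = 0 ∨ Multiset.card m = 2 ∨ Multiset.card m = 4) : e = 1 := by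
  obtain ⟨L, w, rfl, h⟩ := h
  rw [card_letters] at hm
  exact h.sign' S hm

theorem GoodM.add (S : BSys D Bt l) {m m' : Multiset I} {e d : ℤˣ} (h : GoodM D Bt m e)
    (h' : GoodM D Bt m' d) : GoodM D Bt (m + m') (e * d) := by
  obtain ⟨L, w, rfl, h⟩ := h
  obtain ⟨L', w', rfl, h'⟩ := h'
  exact ⟨L + L', Fin.append w w', letters_append w w', h.append S h'⟩

theorem goodM_pair (S : BSys D Bt l) (i : I) : GoodM D Bt {i, D.τ i} 1 :=
  ⟨2, ![i, D.τ i], rfl, good_pair S i⟩

theorem GoodM.rep (S : BSys D Bt l) {m : Multiset I} {e : ℤˣ} {i j : I} (hij : l i = l j)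
    (h : GoodM D Bt (i ::ₘ m) e) : GoodM D Bt (j ::ₘ m) e := by
  obtain ⟨L, w, rfl⟩ := exists_word m
  have hw : ∀ i : I, Finset.univ.val.map (Fin.append ![i] w) = i ::ₘ Finset.univ.val.map w := by
    intro i
    rw [letters_append, letters_one, Multiset.singleton_add]
  rw [goodM_iff S (hw i)] at h
  rw [goodM_iff S (hw j)]
  have h1 := h.rep S (Fin.castAdd L 0) (j := j) (by
    rw [Fin.append_left]
    exact hij)
  have h2 : Function.update (Fin.append ![i] w) (Fin.castAdd L 0) j = Fin.append ![j] w := by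
    funext q
    refine Fin.addCases (fun q => ?_) (fun q => ?_) q
    · have hq : q = 0 := Subsingleton.elim _ _
      rw [hq, Function.update_self, Fin.append_left]
      rfl
    · rw [Function.update_of_ne, Fin.append_right, Fin.append_right]
      intro h
      have := congrArg Fin.val h
      simp at this
  rwa [h2] at h1

theorem goodM_zero (S : BSys D Bt l) : GoodM D Bt 0 1 := by
  refine ⟨0, Fin.elim0, rfl, fun _ => 1, S.usys.one, 1, one_pos, ?_⟩
  have h2 : sg D (Fin.elim0 : Fin 0 → I) = 1 := Fin.prod_univ_zero _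
  rw [h2, Units.val_one]
  push_cast
  ring

theorem GoodM.cancel (S : BSys D Bt l) {m : Multiset I} {e : ℤˣ} {i : I}
    (h : GoodM D Bt (i ::ₘ D.τ i ::ₘ m) e) : GoodM D Bt m e := by
  by_cases hm : m = 0
  · subst hm
    have he : e = 1 := h.sign' S (by
      rw [Multiset.card_cons, Multiset.card_cons, Multiset.card_zero]
      norm_num)
    rw [he]
    exact goodM_zero S
  · obtain ⟨L, w, rfl⟩ := exists_word m
    have hw : Finset.univ.val.map (Fin.append ![i, D.τ i] w)
        = i ::ₘ D.τ i ::ₘ Finset.univ.val.map w := by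
      rw [letters_append, letters_two]
      rfl
    rw [goodM_iff S hw] at h
    rw [goodM_iff S rfl]
    refine h.cancel S (Nat.pos_of_ne_zero ?_)
    rintro rfl
    exact hm rfl

/-- cancellation of all pairs -/
theorem GoodM.cancel_all (S : BSys D Bt l) (m : Multiset I) {e : ℤˣ}
    (h : GoodM D Bt (m + m.map D.τ) e) : GoodM D Bt 0 e := by
  induction m using Multiset.induction_on with
  | empty => simpa using h
  | cons a m ih =>
    apply ih
    have h1 : a ::ₘ m + (a ::ₘ m).map D.τ = a ::ₘ D.τ a ::ₘ (m + m.map D.τ) := by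
      rw [Multiset.map_cons, Multiset.cons_add, Multiset.add_cons]
    rw [h1] at h
    exact h.cancel S

/-- the length of a good word is even -/
theorem Good.even (S : BSys D Bt l) {L : ℕ} {w : Fin L → I} {e : ℤˣ} (h : Good D Bt w e) :
    Even L := by
  by_contra hL
  -- the word `τ ∘ w` has the other sign
  have h2 : Good D Bt (D.τ ∘ w) (-e) := by
    obtain ⟨u, hu, r, hr, h1⟩ := h
    refine ⟨u, hu, r, hr, ?_⟩
    have e1 : D.τ ∘ (D.τ ∘ w) = w := by
      funext i
      exact D.τ_τ (w i)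
    rw [e1, sg_tau S.odd, (Nat.not_even_iff_odd.1 hL).neg_one_pow]
    push_cast
    linear_combination -h1
  have h3 : GoodM D Bt (Finset.univ.val.map w + (Finset.univ.val.map w).map D.τ) (e * -e) := by
    refine ⟨L + L, Fin.append w (D.τ ∘ w), ?_, h.append S h2⟩
    rw [letters_append, Multiset.map_map]
  have h4 := (h3.cancel_all S).sign' S (Or.inl rfl)
  rcases Int.units_eq_one_or e with he | he <;> rw [he] at h4 <;> revert h4 <;> decide

theorem Good.sign (S : BSys D Bt l) {L : ℕ} {w : Fin L → I} {e : ℤˣ} (h : Good D Bt w e)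
    (hL : L ≤ 4) : e = 1 := by
  obtain ⟨n, hn⟩ := h.even S
  exact h.sign' S (by omega)

/-- the involution -/
theorem Good.tau (S : BSys D Bt l) {L : ℕ} {w : Fin L → I} {e : ℤˣ} (h : Good D Bt w e) :
    Good D Bt (D.τ ∘ w) e := by
  have hL := h.even S
  obtain ⟨u, hu, r, hr, h1⟩ := h
  refine ⟨u, hu, r, hr, ?_⟩
  have e1 : D.τ ∘ (D.τ ∘ w) = w := by
    funext i
    exact D.τ_τ (w i)
  rw [e1, sg_tau S.odd, hL.neg_one_pow, one_mul, ← h1]
  ring

theorem GoodM.even (S : BSys D Bt l) {m : Multiset I} {e : ℤˣ} (h : GoodM D Bt m e) :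
    Even (Multiset.card m) := by
  obtain ⟨L, w, rfl, h⟩ := h
  rw [card_letters]
  exact h.even S

theorem GoodM.sign (S : BSys D Bt l) {m : Multiset I} {e : ℤˣ} (h : GoodM D Bt m e)
    (hm : Multiset.card m ≤ 4) : e = 1 := by
  obtain ⟨L, w, rfl, h⟩ := h
  rw [card_letters] at hm
  exact h.sign S hm

theorem GoodM.tau (S : BSys D Bt l) {m : Multiset I} {e : ℤˣ} (h : GoodM D Bt m e) :
    GoodM D Bt (m.map D.τ) e := by
  obtain ⟨L, w, rfl, h⟩ := h
  refine ⟨L, D.τ ∘ w, ?_, h.tau S⟩
  rw [Multiset.map_map]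

end Pool.Agent.Lib.MP_361a6f_ag.FL.E5
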