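import Pool.Agent.Lib.MP_361a6f_ag.FL.E.NSysK
import Pool.Agent.Lib.MP_361a6f_ag.FL.E5.Frm

/-!
# Theorem K4 for the data as they come from geometry

`ofK4` transports `ThmK4Statement` to the data `NSys` in an arbitrary adapted basis.
-/

open Filter Topology MeasureTheory

set_option autoImplicit false
set_option linter.unusedSectionVars false

namespace Pool.Agent.Lib.MP_361a6f_ag.FL.E

open QS

variable {I Λ : Type} [Fintype I] [DecidableEq I] [DecidableEq Λ]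

namespace K6

variable {D : Dat I Λ} {Y : Matrix I I ℂ}

/-- the condition on the parities after transport -/
theorem kcond4_tr (hodd : ∀ i, D.odd (D.typ i)) (a1 : Alg1) (hG : IsG D Y)
    {At : (L : ℕ) → Ten I L → Prop} {Γ : Set (Matrix I I ℂ)} {L : ℕ} (h : KCond4 D At Γ L) :
    KCond4 D (fun L u => At L (gT Y u)) {x' | ∃ x ∈ Γ, x' = Y⁻¹ * x * Y} L := by
  obtain ⟨hY1, hY2, hY3⟩ := a1.G_inv D Y hG
  obtain ⟨M, hM⟩ := h
  refine ⟨M, fun B _ _ π hπ 𝓜 h0M hsd hfour c u hu hne => ?_⟩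
  have hdec : Dec D At Γ (fun b => Y * π b * Y⁻¹) := by
    refine ⟨?_, fun b b' => ?_, fun b => ?_⟩
    · rw [← Matrix.sum_mul, ← Matrix.mul_sum, hπ.sum, Matrix.mul_one, hY2]
    · have e : Y * π b * Y⁻¹ * (Y * π b' * Y⁻¹) = Y * (π b * (Y⁻¹ * Y) * π b') * Y⁻¹ := by
        simp only [Matrix.mul_assoc]
      rw [e, hY3, Matrix.mul_one, hπ.mul]
      split_ifs
      · rfl
      · rw [Matrix.mul_zero, Matrix.zero_mul]
    · rw [range_tr hY3]
      exact orb hodd a1 hG (hπ.stab b).1 (hπ.stab b).2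
  refine hM B _ hdec 𝓜 h0M hsd (fun L' hL' c u hu hne => hfour L' hL' c (gT Y⁻¹ u) ?_
    fun h0 => hne ?_) c (gT Y u) hu fun h0 => hne ?_
  · show At L' (gT Y (gT Y⁻¹ u))
    rw [psi_outer_gT a1 hG]
    exact hu
  · rw [slT_tr, h0]
    exact gT_zero a1 Y
  · rw [slT_tr, gT_inv_gT a1 hG] at h0
    exact inj a1 hG (h0.trans (gT_zero a1 Y).symm)

end K6

/-- **Theorem K4 for the data from geometry.** -/
theorem ofK4 (hY : YStatement) (a1 : Alg1) (a2 : Alg2) (hK : ThmK4Statement) {D : Dat I Λ}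
    {At Ct : (L : ℕ) → Ten I L → Prop} {F : Matrix I I ℂ} {Γ : Set (Matrix I I ℂ)}
    (S : NSys D At Ct F Γ)
    (h4 : ∀ u ∈ Submodule.span ℝ {u : Ten I 4 | Ct 4 u}, ∃ r : ℝ, 0 ≤ r ∧ psiT D u u = (r : ℂ))
    (h1 : ∀ U : Submodule ℂ (I → ℂ), StabU D At Γ U →
      (∀ v ∈ U, ∀ w ∈ U, dotProduct v ((Psi D).mulVec w) = 0) → U = ⊥)
    (L : ℕ) (hL : KCond4 D At Γ L) (u : Ten I L) (hu : u ∈ Submodule.span ℝ {u | At L u})
    (hu0 : u ≠ 0) : ∃ r : ℝ, 0 < r ∧ psiT D u u = (r : ℂ) := by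
  obtain ⟨Y, l, β, _, lb, b, hG, C, F4⟩ := exists_core4 hY a1 a2 S h4
  rw [← spanR a1 hG At L] at hu
  obtain ⟨u', hu', rfl⟩ := hu
  have h5 := hK D _ _ _ _ _ _ C.toCSys F4 (by
    intro U hU hiso
    have h3 := h1 _ (orb S.odd a1 hG hU.1 hU.2) (by
      rintro _ ⟨v, hv, rfl⟩ _ ⟨w, hw, rfl⟩
      rw [Matrix.toLin'_apply, Matrix.toLin'_apply, iso_G hG]
      exact hiso v hv w hw)
    rw [← map_back a1 hG U, h3, Submodule.map_bot]) L (K6.kcond4_tr S.odd a1 hG hL) u' hu'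
    (fun h => hu0 (by rw [h, map_zero]))
  obtain ⟨r, hr, h6⟩ := h5
  refine ⟨r, hr, ?_⟩
  rw [← h6]
  exact a1.psiT_gT D Y u' u' hG

end Pool.Agent.Lib.MP_361a6f_ag.FL.E
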