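import Pool.Agent.Lib.MP_361a6f_ag.FL.E.Share

/-!
# Theorem E5: the reduction of words

In the situation of `FL/E/LemR.lean`: a word of total weight zero with two letters in the same class
is changed by exchanges of letters until two letters have opposite weights and cancel. So it is
reduced to a word with at most one letter in each class.
-/

set_option autoImplicit false
set_option linter.unusedSectionVars false

open Matrix

namespace Pool.Agent.Lib.MP_361a6f_ag.FL.E.Red

open LemR

variable {I : Type} [Fintype I] [DecidableEq I]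

/-- a homogeneous element all entries of which are related: `R l m m' r` says that the moves
`m → l` and `r → m'` are equivalent -/
structure HomR (S : Submodule ℂ (Matrix I I ℂ)) (k : I → ℂ) (R : I → I → I → I → Prop)
    (x : Matrix I I ℂ) (α : (I → ℂ) → ℂ) (c : ℂ) : Prop where
  hom : Hom S k x α c
  rel : ∀ l m m' r, x l m ≠ 0 → x m' r ≠ 0 → R l m m' r

/-- the rules for the words: two letters of opposite weights may be cancelled, and two letters may
be exchanged along equivalent moves -/
structure Rules (S : Submodule ℂ (Matrix I I ℂ)) (R : I → I → I → I → Prop)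
    (B : Multiset I → Prop) : Prop where
  cancel : ∀ i j v, (∀ T, diagonal T ∈ S → T i + T j = 0) → B (i ::ₘ j ::ₘ v) → B v
  exch : ∀ l m m' r v, R l m m' r → B (l ::ₘ r ::ₘ v) → B (m ::ₘ m' ::ₘ v)

variable {S : Submodule ℂ (Matrix I I ℂ)} {k : I → ℂ} {R : I → I → I → I → Prop}
  {B : Multiset I → Prop}

theorem exists_of_dual_add_pos (s : Multiset (Tri I)) (i j : I)
    (h : 0 < (dual s i).re + (dual s j).re) :
    ∃ p ∈ s, 0 < nrm p.1 → 0 < (tt p.1 i).re + (tt p.1 j).re := by
  induction s using Multiset.induction_on with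
  | empty => simp [dual] at h
  | cons p s ih =>
    by_cases h1 : 0 < (dual s i).re + (dual s j).re
    · obtain ⟨q, hq, h2⟩ := ih h1
      exact ⟨q, Multiset.mem_cons_of_mem hq, h2⟩
    · refine ⟨p, Multiset.mem_cons_self p s, fun hn => ?_⟩
      rw [dual_cons, Pi.add_apply, Pi.add_apply, Complex.add_re, Complex.add_re, Pi.smul_apply,
        Pi.smul_apply, smul_eq_mul, smul_eq_mul, ← Complex.ofReal_inv, Complex.re_ofReal_mul,
        Complex.re_ofReal_mul] at h
      have h2 : 0 < (nrm p.1)⁻¹ * ((tt p.1 i).re + (tt p.1 j).re) := by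
        rw [mul_add]
        linarith
      exact (pos_iff_pos_of_mul_pos h2).1 (inv_pos.2 hn)

/-- a sum of real parts over a multiset is the real part of the sum -/
theorem re_sum (v : Multiset I) (T : I → ℂ) : (v.map T).sum.re = (v.map fun i => (T i).re).sum := by
  induction v using Multiset.induction_on with
  | empty => simp
  | cons a v ih => rw [Multiset.map_cons, Multiset.sum_cons, Complex.add_re, ih, Multiset.map_cons,
      Multiset.sum_cons]

theorem exists_neg (v : Multiset I) (f : I → ℝ) (h : (v.map f).sum < 0) : ∃ r ∈ v, f r < 0 := by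
  by_contra hc
  push Not at hc
  have h1 : 0 ≤ (v.map f).sum := by
    refine Multiset.sum_nonneg ?_
    intro x hx
    obtain ⟨a, ha, rfl⟩ := Multiset.mem_map.1 hx
    exact hc a ha
  linarith

/-- **Two letters of the same class cancel after exchanges.** -/
theorem pair_step (hS : Sit S k) (hB : Rules S R B) {C : Type} (q : I → C)
    (hq : ∀ A ∈ S, ∀ i j, A i j ≠ 0 → q i = q j) :
    ∀ (n : ℕ) (s : Multiset (Tri I)), Multiset.card s = n →
      (∀ p ∈ s, HomR S k R p.1 p.2.1 p.2.2) → ∀ (l1 l2 : I) (v : Multiset I),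
      B (l1 ::ₘ l2 ::ₘ v) →
      (∀ T, diagonal T ∈ S → T l1 + T l2 + (v.map T).sum = 0) →
      (∀ T, diagonal T ∈ S → T l1 + T l2 = (s.map fun p => p.2.1 T).sum) →
      ∃ v', B v' ∧ (∀ T, diagonal T ∈ S → (v'.map T).sum = 0) ∧ v'.map q = v.map q := by
  intro n
  induction n with
  | zero =>
    intro s hs _ l1 l2 v hb h0 hT
    have h1 : ∀ T, diagonal T ∈ S → T l1 + T l2 = 0 := by
      intro T hT'
      rw [hT T hT', Multiset.card_eq_zero.1 hs, Multiset.map_zero, Multiset.sum_zero]
    refine ⟨v, hB.cancel l1 l2 v h1 hb, fun T hT' => ?_, rfl⟩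
    have h2 := h0 T hT'
    rwa [h1 T hT', zero_add] at h2
  | succ n ih =>
    intro s hs hp l1 l2 v hb h0 hT
    by_cases h1 : ∀ T, diagonal T ∈ S → T l1 + T l2 = 0
    · refine ⟨v, hB.cancel l1 l2 v h1 hb, fun T hT' => ?_, rfl⟩
      have h2 := h0 T hT'
      rwa [h1 T hT', zero_add] at h2
    · push Not at h1
      obtain ⟨T0, hT0, hne⟩ := h1
      have hp' : ∀ p ∈ s, Hom S k p.1 p.2.1 p.2.2 := fun p hps => (hp p hps).hom
      have hmem := dual_mem hS s hp'
      have h1 : ∑ l, dual s l * dual s l = dual s l1 + dual s l2 := by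
        rw [hT _ hmem, sum_dual s hp' hmem]
      have h2 : ∀ l, dual s l = ((dual s l).re : ℂ) := by
        intro l
        apply Complex.ext
        · rw [Complex.ofReal_re]
        · rw [Complex.ofReal_im, dual_real]
      have h3 : (∑ l, (dual s l).re * (dual s l).re : ℝ) = (dual s l1).re + (dual s l2).re := by
        have h4 := congrArg Complex.re h1
        rw [Complex.add_re] at h4
        rw [← h4]
        have h5 : ∑ l, dual s l * dual s l
            = ((∑ l, (dual s l).re * (dual s l).re : ℝ) : ℂ) := by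
          push_cast
          refine Finset.sum_congr rfl fun l _ => ?_
          rw [← h2 l]
        rw [h5, Complex.ofReal_re]
      have h4 : 0 < ∑ l, (dual s l).re * (dual s l).re := by
        obtain ⟨l, hl⟩ : ∃ l, (dual s l).re ≠ 0 := by
          by_contra hc
          push Not at hc
          apply hne
          rw [hT T0 hT0, ← sum_dual s hp' hT0]
          refine Finset.sum_eq_zero fun l _ => ?_
          rw [h2 l, hc l, Complex.ofReal_zero, mul_zero]
        have h8 : 0 < (dual s l).re * (dual s l).re := mul_self_pos.2 hl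
        have h9 : (dual s l).re * (dual s l).re ≤ ∑ l, (dual s l).re * (dual s l).re :=
          Finset.single_le_sum (f := fun l => (dual s l).re * (dual s l).re)
            (fun _ _ => mul_self_nonneg _) (Finset.mem_univ l)
        linarith
      rw [h3] at h4
      obtain ⟨p, hps, h5⟩ := exists_of_dual_add_pos s l1 l2 h4
      have hP := hp p hps
      have h6 := h5 (nrm_pos hP.hom.ne)
      -- a letter of negative weight
      have h7 := h0 _ (mem_tt hS hP.hom)
      have h8 : (v.map fun i => (tt p.1 i).re).sum < 0 := by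
        have h9 := congrArg Complex.re h7
        rw [Complex.add_re, Complex.add_re, re_sum, Complex.zero_re] at h9
        linarith
      obtain ⟨r, hr, h9⟩ := exists_neg v _ h8
      obtain ⟨v1, rfl⟩ := Multiset.exists_cons_of_mem hr
      obtain ⟨m', hm'⟩ := exists_of_tt_neg h9
      obtain ⟨s1, rfl⟩ := Multiset.exists_cons_of_mem hps
      have hs1 : Multiset.card s1 = n := by
        rw [Multiset.card_cons] at hs
        omega
      have hp1 : ∀ p' ∈ s1, HomR S k R p'.1 p'.2.1 p'.2.2 := fun p' hp' =>
        hp p' (Multiset.mem_cons_of_mem hp')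
      have hqm : q m' = q r := hq p.1 hP.hom.mem m' r hm'
      by_cases h10 : 0 < (tt p.1 l1).re
      · obtain ⟨m, hm⟩ := exists_of_tt_pos h10
        have hb1 : B (l1 ::ₘ r ::ₘ l2 ::ₘ v1) := by
          rw [Multiset.cons_swap r l2]
          exact hb
        have hb2 := hB.exch l1 m m' r _ (hP.rel l1 m m' r hm hm') hb1
        have hb3 : B (m ::ₘ l2 ::ₘ m' ::ₘ v1) := by
          rw [Multiset.cons_swap l2 m']
          exact hb2
        obtain ⟨v', hv1, hv2, hv3⟩ := ih s1 hs1 hp1 m l2 (m' ::ₘ v1) hb3 (by
          intro T hT'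
          have e1 := h0 T hT'
          have e2 := hP.hom.wt l1 m hm T hT'
          have e3 := hP.hom.wt m' r hm' T hT'
          rw [Multiset.map_cons, Multiset.sum_cons] at e1 ⊢
          linear_combination e1 - e2 + e3) (by
          intro T hT'
          have e1 := hT T hT'
          have e2 := hP.hom.wt l1 m hm T hT'
          rw [Multiset.map_cons, Multiset.sum_cons] at e1
          linear_combination e1 - e2)
        exact ⟨v', hv1, hv2, by rw [hv3, Multiset.map_cons, Multiset.map_cons, hqm]⟩
      · obtain ⟨m, hm⟩ := exists_of_tt_pos (x := p.1) (i := l2) (by linarith)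
        have hb1 : B (l2 ::ₘ r ::ₘ l1 ::ₘ v1) := by
          rw [Multiset.cons_swap r l1, Multiset.cons_swap l2 l1]
          exact hb
        have hb2 := hB.exch l2 m m' r _ (hP.rel l2 m m' r hm hm') hb1
        have hb3 : B (l1 ::ₘ m ::ₘ m' ::ₘ v1) := by
          rw [Multiset.cons_swap m m', Multiset.cons_swap l1 m', Multiset.cons_swap l1 m,
            Multiset.cons_swap m' m]
          exact hb2
        obtain ⟨v', hv1, hv2, hv3⟩ := ih s1 hs1 hp1 l1 m (m' ::ₘ v1) hb3 (by
          intro T hT'
          have e1 := h0 T hT'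
          have e2 := hP.hom.wt l2 m hm T hT'
          have e3 := hP.hom.wt m' r hm' T hT'
          rw [Multiset.map_cons, Multiset.sum_cons] at e1 ⊢
          linear_combination e1 - e2 + e3) (by
          intro T hT'
          have e1 := hT T hT'
          have e2 := hP.hom.wt l2 m hm T hT'
          rw [Multiset.map_cons, Multiset.sum_cons] at e1
          linear_combination e1 - e2)
        exact ⟨v', hv1, hv2, by rw [hv3, Multiset.map_cons, Multiset.map_cons, hqm]⟩

/-- **The reduction.** A word of total weight zero can be reduced to a word of total weight zero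
with at most one letter in each class, with the same parities. -/
theorem red (hS : Sit S k) (hB : Rules S R B) {C : Type} [DecidableEq C] (q : I → C)
    (hq : ∀ A ∈ S, ∀ i j, A i j ≠ 0 → q i = q j)
    (hc : ∀ i j, q i = q j → ∃ s : Multiset (Tri I), (∀ p ∈ s, HomR S k R p.1 p.2.1 p.2.2) ∧
      ∀ T, diagonal T ∈ S → T i + T j = (s.map fun p => p.2.1 T).sum) :
    ∀ (n : ℕ) (v : Multiset I), Multiset.card v ≤ n → B v →
      (∀ T, diagonal T ∈ S → (v.map T).sum = 0) →
      ∃ v', B v' ∧ (∀ T, diagonal T ∈ S → (v'.map T).sum = 0) ∧ (v'.map q).Nodup ∧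
        ∀ c, (v'.map q).count c % 2 = (v.map q).count c % 2 := by
  intro n
  induction n with
  | zero =>
    intro v hv hb h0
    have h1 : v = 0 := Multiset.card_eq_zero.1 (by omega)
    refine ⟨v, hb, h0, ?_, fun _ => rfl⟩
    rw [h1, Multiset.map_zero]
    exact Multiset.nodup_zero
  | succ n ih =>
    intro v hv hb h0
    by_cases hn : (v.map q).Nodup
    · exact ⟨v, hb, h0, hn, fun _ => rfl⟩
    · rw [Multiset.nodup_iff_ne_cons_cons] at hn
      push Not at hn
      obtain ⟨a, t, hat⟩ := hn
      obtain ⟨l1, hl1, hql1, h1⟩ := (Multiset.map_eq_cons _ _ _ _).2 hat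
      obtain ⟨l2, hl2, hql2, h2⟩ := (Multiset.map_eq_cons _ _ _ _).2 h1
      obtain ⟨v1, hv1⟩ := Multiset.exists_cons_of_mem hl1
      have e1 : v.erase l1 = v1 := by rw [hv1, Multiset.erase_cons_head]
      rw [e1] at hl2 h2
      obtain ⟨v2, hv2⟩ := Multiset.exists_cons_of_mem hl2
      have e2 : v1.erase l2 = v2 := by rw [hv2, Multiset.erase_cons_head]
      rw [e2] at h2
      have hv : v = l1 ::ₘ l2 ::ₘ v2 := by rw [hv1, hv2]
      obtain ⟨s, hs, hsT⟩ := hc l1 l2 (hql1.trans hql2.symm)
      obtain ⟨v', hb', h0', hv'⟩ := pair_step hS hB q hq _ s rfl hs l1 l2 v2 (hv ▸ hb) (by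
        intro T hT
        have h3 := h0 T hT
        rw [hv, Multiset.map_cons, Multiset.map_cons, Multiset.sum_cons, Multiset.sum_cons] at h3
        rw [← h3]
        ring) hsT
      have hcard : Multiset.card v' = Multiset.card v2 := by
        have h3 := congrArg Multiset.card hv'
        rwa [Multiset.card_map, Multiset.card_map] at h3
      obtain ⟨w, hw1, hw0, hw2, hw3⟩ := ih v' (by
        rw [hcard]
        have h3 := congrArg Multiset.card hv
        rw [Multiset.card_cons, Multiset.card_cons] at h3
        omega) hb' h0'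
      refine ⟨w, hw1, hw0, hw2, fun c => ?_⟩
      rw [hw3 c, hv', hv, Multiset.map_cons, Multiset.map_cons, hql1, hql2, Multiset.count_cons,
        Multiset.count_cons]
      split_ifs <;> omega

/-- at most five classes -/
theorem no_bad (hS : Sit S k) (hB : Rules S R B) (heven : ∀ v, B v → Even (Multiset.card v))
    (hfour : ∀ v, B v → 4 < Multiset.card v) {C : Type} [Fintype C] [DecidableEq C]
    (hC : Fintype.card C ≤ 5) (q : I → C)
    (hq : ∀ A ∈ S, ∀ i j, A i j ≠ 0 → q i = q j)
    (hc : ∀ i j, q i = q j → ∃ s : Multiset (Tri I), (∀ p ∈ s, HomR S k R p.1 p.2.1 p.2.2) ∧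
      ∀ T, diagonal T ∈ S → T i + T j = (s.map fun p => p.2.1 T).sum)
    (v : Multiset I) (h0 : ∀ T, diagonal T ∈ S → (v.map T).sum = 0) : ¬ B v := by
  intro hb
  obtain ⟨w, hw, -, hn, -⟩ := red hS hB q hq hc _ v le_rfl hb h0
  have h1 : Multiset.card (w.map q) ≤ Fintype.card C := by
    have h2 : (⟨w.map q, hn⟩ : Finset C).card ≤ Fintype.card C := Finset.card_le_univ _
    exact h2
  rw [Multiset.card_map] at h1
  have h2 := hfour w hw
  obtain ⟨m, hm⟩ := heven w hw
  omega

end Pool.Agent.Lib.MP_361a6f_ag.FL.E.Red
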