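import Pool.Agent.Lib.MP_361a6f_ag.FL.E5.Defs
import Pool.Agent.Lib.MP_361a6f_ag.FL.E5.Frm5
import Pool.Agent.Lib.MP_361a6f_ag.FL.E5.Red
import Pool.Agent.Lib.MP_361a6f_ag.FL.E.K1core

/-!
# Theorem K4, row R4: the classes, and the reduction of words

The frame and the classes are those of `FL/E/K1core.lean`, the reduction is `FL/E5/Red.lean`.
-/

set_option autoImplicit false
set_option linter.unusedSectionVars false

open Matrix Module

namespace Pool.Agent.Lib.MP_361a6f_ag.FL.E.R4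

open LemR P5e K1

section rules

variable {I : Type} {τ : I → I} {a : I → ℂ} {G : ℤˣ → List I → Prop}

/-- good multisets of new letters -/
def Gn (G : ℤˣ → List I → Prop) (r : I → I) (e : ℤˣ) (v : Multiset I) : Prop :=
  ∃ l : List I, (l : Multiset I) = v ∧ G e (l.map r)

/-- the moves `j → i` and `l → k` of new letters are equivalent -/
def Q (τ : I → I) (G : ℤˣ → List I → Prop) (r : I → I) (i j k l : I) : Prop :=
  G 1 [r j, τ (r i), r k, τ (r l)]

theorem gn_iff (C : Calc τ a G) (r : I → I) {e : ℤˣ} {l : List I} :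
    Gn G r e (l : Multiset I) ↔ G e (l.map r) := by
  constructor
  · rintro ⟨l', h1, h2⟩
    exact C.perm e _ _ ((Multiset.coe_eq_coe.1 h1).map r) h2
  · intro h
    exact ⟨l, rfl, h⟩

theorem gn_zero (C : Calc τ a G) (r : I → I) : Gn G r 1 0 :=
  ⟨[], rfl, C.nil⟩

theorem gn_add (C : Calc τ a G) (r : I → I) {e d : ℤˣ} {v w : Multiset I} (h : Gn G r e v)
    (h' : Gn G r d w) : Gn G r (e * d) (v + w) := by
  obtain ⟨l, rfl, h1⟩ := h
  obtain ⟨l', rfl, h2⟩ := h'
  refine ⟨l ++ l', by rw [Multiset.coe_add], ?_⟩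
  rw [List.map_append]
  exact C.app e d _ _ h1 h2

theorem gn_can (C : Calc τ a G) (hτ : ∀ i, a (τ i) = -a i) (r : I → I) {e : ℤˣ} {i j : I}
    {v : Multiset I} (hij : a (r i) + a (r j) = 0) (h : Gn G r e (i ::ₘ j ::ₘ v)) :
    Gn G r e v := by
  induction v using Quotient.inductionOn with
  | h l =>
    have h1 : Gn G r e ((i :: j :: l : List I) : Multiset I) := h
    rw [gn_iff C, List.map_cons, List.map_cons] at h1
    have h2 : G e (r i :: τ (r i) :: l.map r) := by
      refine C.blk e _ _ ?_ h1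
      rw [List.map_cons, List.map_cons, List.map_cons, List.map_cons, hτ,
        eq_neg_of_add_eq_zero_right hij]
    exact (gn_iff C r).2 (C.can e _ _ h2)

theorem gn_exch (C : Calc τ a G) (r : I → I) {e : ℤˣ} {l m m' n : I}
    {v : Multiset I} (hq : Q τ G r l m m' n) (h : Gn G r e (l ::ₘ n ::ₘ v)) :
    Gn G r e (m ::ₘ m' ::ₘ v) := by
  induction v using Quotient.inductionOn with
  | h t =>
    have h1 : Gn G r e ((l :: n :: t : List I) : Multiset I) := h
    rw [gn_iff C, List.map_cons, List.map_cons] at h1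
    have h2 := C.app 1 e _ _ hq h1
    rw [one_mul] at h2
    have h3 : G e (r l :: τ (r l) :: r n :: τ (r n) :: r m :: r m' :: t.map r) := by
      refine C.perm e _ _ ?_ h2
      rw [← Multiset.coe_eq_coe]
      simp only [← Multiset.coe_add, ← Multiset.cons_coe, Multiset.coe_nil,
        ← Multiset.singleton_add]
      abel
    exact (gn_iff C r).2 (C.can e _ _ (C.can e _ _ h3))

theorem gn_four (C : Calc τ a G) (r : I → I) {e : ℤˣ} {v : Multiset I}
    (hv : Multiset.card v ≤ 4) (h : Gn G r e v) : e = 1 := by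
  obtain ⟨l, rfl, h1⟩ := h
  refine C.four e _ ?_ h1
  rw [List.length_map]
  exact hv

theorem q_refl (C : Calc τ a G) (r : I → I) (i j : I) : Q τ G r i j i j := by
  have h1 := C.app 1 1 _ _ (C.pair (r j)) (C.pair (r i))
  rw [one_mul] at h1
  refine C.perm 1 _ _ ?_ h1
  rw [← Multiset.coe_eq_coe]
  simp only [← Multiset.coe_add, ← Multiset.cons_coe, Multiset.coe_nil,
    ← Multiset.singleton_add]
  abel

theorem q_symm (C : Calc τ a G) (hττ : ∀ i, τ (τ i) = i) (r : I → I) {i j k l : I}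
    (h : Q τ G r i j k l) : Q τ G r k l i j := by
  have h1 := C.neg 1 _ h
  simp only [List.map_cons, List.map_nil, hττ] at h1
  refine C.perm 1 _ _ ?_ h1
  rw [← Multiset.coe_eq_coe]
  simp only [← Multiset.cons_coe, Multiset.coe_nil, ← Multiset.singleton_add]
  abel

theorem q_trans (C : Calc τ a G) (r : I → I) {i j k l m n : I}
    (h : Q τ G r i j k l) (h' : Q τ G r k l m n) : Q τ G r i j m n := by
  have h1 := C.app 1 1 _ _ h h'
  rw [one_mul] at h1
  have h2 : G 1 (r k :: τ (r k) :: r l :: τ (r l) :: [r j, τ (r i), r m, τ (r n)]) := by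
    refine C.perm 1 _ _ ?_ h1
    rw [← Multiset.coe_eq_coe]
    simp only [← Multiset.coe_add, ← Multiset.cons_coe, Multiset.coe_nil,
      ← Multiset.singleton_add]
    abel
  exact C.can 1 _ _ (C.can 1 _ _ h2)

/-- the relation of the moves depends on the blocks only -/
theorem q_blk (C : Calc τ a G) (hτ : ∀ i, a (τ i) = -a i) {x y i j i' j' : I}
    (hi : a i = a i') (hj : a j = a j') (h : G 1 [x, y, i, τ j]) : G 1 [x, y, i', τ j'] := by
  refine C.blk 1 _ _ ?_ h
  simp only [List.map_cons, List.map_nil, hτ, hi, hj]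

end rules

section mv

variable {I : Type} [Fintype I] [DecidableEq I] {τ : I → I} {a : I → ℂ}
  {G : ℤˣ → List I → Prop} {S : Submodule ℂ (Matrix I I ℂ)}

open Classical in
/-- the restriction to a class of moves, in the new coordinates -/
theorem restr_mem (C : Calc τ a G) (hτ : ∀ i, a (τ i) = -a i)
    (hmv : ∀ A ∈ S, ∀ i0 j0, mvR τ G i0 j0 A ∈ S) {U : Matrix I I ℂ} {r : I → I}
    (har : ∀ i j, U i j ≠ 0 → a i = a (r j)) {X : Matrix I I ℂ} (hX : X ∈ conjS U S) (i0 j0 : I) :
    (Matrix.of fun i j => if Q τ G r i0 j0 i j then X i j else 0) ∈ conjS U S := by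
  rw [mem_conjS] at hX ⊢
  refine (congrArg (· ∈ S) ?_).mp (hmv _ hX (r i0) (r j0))
  ext i j
  have hterm : ∀ i' j', U i i' * (Matrix.of fun i j => if Q τ G r i0 j0 i j then X i j else 0) i' j'
      * Uᴴ j' j = if G 1 [r j0, τ (r i0), i, τ j] then U i i' * X i' j' * Uᴴ j' j else 0 := by
    intro i' j'
    by_cases h1 : U i i' = 0
    · simp [h1]
    · by_cases h2 : U j j' = 0
      · simp [Matrix.conjTranspose_apply, h2]
      · have h3 := har i i' h1
        have h4 := har j j' h2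
        have h5 : Q τ G r i0 j0 i' j' ↔ G 1 [r j0, τ (r i0), i, τ j] :=
          ⟨fun h => q_blk C hτ h3.symm h4.symm h, fun h => q_blk C hτ h3 h4 h⟩
        rw [Matrix.of_apply]
        by_cases h6 : G 1 [r j0, τ (r i0), i, τ j]
        · rw [if_pos h6, if_pos (h5.2 h6)]
        · rw [if_neg h6, if_neg (fun h => h6 (h5.1 h)), mul_zero, zero_mul]
  show mvR τ G (r i0) (r j0) (U * X * Uᴴ) i j = _
  simp only [mvR, Matrix.of_apply]
  rw [Matrix.mul_apply, Matrix.mul_apply]
  simp only [Matrix.mul_apply, Finset.sum_mul, Matrix.of_apply] at hterm ⊢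
  by_cases h6 : G 1 [r j0, τ (r i0), i, τ j]
  · rw [if_pos h6]
    refine Finset.sum_congr rfl fun j' _ => Finset.sum_congr rfl fun i' _ => ?_
    rw [hterm i' j', if_pos h6]
  · rw [if_neg h6]
    refine (Finset.sum_eq_zero fun j' _ => Finset.sum_eq_zero fun i' _ => ?_).symm
    rw [hterm i' j', if_neg h6]

/-- a homogeneous element may be replaced by one with equivalent moves -/
theorem refine_hom (C : Calc τ a G) (hττ : ∀ i, τ (τ i) = i) (hτ : ∀ i, a (τ i) = -a i)
    (hmv : ∀ A ∈ S, ∀ i0 j0, mvR τ G i0 j0 A ∈ S) {U : Matrix I I ℂ} {r : I → I}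
    (har : ∀ i j, U i j ≠ 0 → a i = a (r j)) {κ : I → ℂ} {x : Matrix I I ℂ}
    {α : (I → ℂ) → ℂ} {c : ℂ} (hx : Hom (conjS U S) κ x α c) :
    ∃ y, Red.HomR (conjS U S) κ (Q τ G r) y α c := by
  classical
  obtain ⟨i0, j0, h0⟩ : ∃ i j, x i j ≠ 0 := by
    by_contra hc
    push Not at hc
    exact hx.ne (by ext i j; simpa using hc i j)
  have key : ∀ i j, (Matrix.of fun i j => if Q τ G r i0 j0 i j then x i j else 0) i j ≠ 0 →
      Q τ G r i0 j0 i j ∧ x i j ≠ 0 := by
    intro i j h
    rw [Matrix.of_apply] at h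
    by_cases h1 : Q τ G r i0 j0 i j
    · rw [if_pos h1] at h
      exact ⟨h1, h⟩
    · rw [if_neg h1] at h
      exact absurd rfl h
  refine ⟨Matrix.of fun i j => if Q τ G r i0 j0 i j then x i j else 0,
    ⟨restr_mem C hτ hmv har hx.mem i0 j0, ?_, fun i j h => hx.wt i j (key i j h).2,
      fun i j h => hx.kk i j (key i j h).2⟩, fun l m m' n h h' => ?_⟩
  · intro h
    have h1 := congrFun (congrFun h i0) j0
    rw [Matrix.of_apply, if_pos (q_refl C r i0 j0)] at h1
    exact h0 h1
  · exact q_trans C r (q_symm C hττ r (key _ _ h).1) (key _ _ h').1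

theorem refine_ms (C : Calc τ a G) (hττ : ∀ i, τ (τ i) = i) (hτ : ∀ i, a (τ i) = -a i)
    (hmv : ∀ A ∈ S, ∀ i0 j0, mvR τ G i0 j0 A ∈ S) {U : Matrix I I ℂ} {r : I → I}
    (har : ∀ i j, U i j ≠ 0 → a i = a (r j)) {κ : I → ℂ} (s : Multiset (Tri I))
    (hs : ∀ p ∈ s, Hom (conjS U S) κ p.1 p.2.1 p.2.2) :
    ∃ s' : Multiset (Tri I), (∀ p ∈ s', Red.HomR (conjS U S) κ (Q τ G r) p.1 p.2.1 p.2.2) ∧
      ∀ T : I → ℂ, (s'.map fun p => p.2.1 T).sum = (s.map fun p => p.2.1 T).sum := by
  induction s using Multiset.induction_on with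
  | empty => exact ⟨0, by simp, fun T => rfl⟩
  | cons p s ih =>
    obtain ⟨s', h1, h2⟩ := ih fun q hq => hs q (Multiset.mem_cons_of_mem hq)
    obtain ⟨y, hy⟩ := refine_hom C hττ hτ hmv har (hs p (Multiset.mem_cons_self p s))
    refine ⟨(y, p.2.1, p.2.2) ::ₘ s', ?_, fun T => ?_⟩
    · intro q hq
      rcases Multiset.mem_cons.1 hq with rfl | hq
      · exact hy
      · exact h1 q hq
    · rw [Multiset.map_cons, Multiset.map_cons, Multiset.sum_cons, Multiset.sum_cons, h2 T]

end mv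

section parity

variable {I B : Type} [Fintype B] [DecidableEq B]

/-- the classes with an odd number of letters in the multiset `v` -/
def pr (q : I → B) (v : Multiset I) : Finset B :=
  Finset.univ.filter fun b => Odd ((v.map q).count b)

theorem pr_zero (q : I → B) : pr q 0 = ∅ := by
  ext b
  simp [pr]

theorem pr_add (q : I → B) (v w : Multiset I) : pr q (v + w) = symmDiff (pr q v) (pr q w) := by
  ext b
  rw [Finset.mem_symmDiff]
  simp only [pr, Finset.mem_filter, Finset.mem_univ, true_and, Multiset.map_add,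
    Multiset.count_add, Nat.odd_add']
  rcases Nat.even_or_odd ((v.map q).count b) with h1 | h1 <;>
    rcases Nat.even_or_odd ((w.map q).count b) with h2 | h2
  · simp [h1, Nat.not_odd_iff_even.2 h1, Nat.not_odd_iff_even.2 h2]
  · simp [h1, h2, Nat.not_odd_iff_even.2 h1]
  · simp [h1, Nat.not_odd_iff_even.2 h2, Nat.not_even_iff_odd.2 h1]
  · simp [h1, h2, Nat.not_even_iff_odd.2 h1]

theorem pr_word (q : I → B) {L : ℕ} (w : Fin L → I) :
    pr q (Finset.univ.val.map w) = odd' fun j => q (w j) := by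
  ext b
  simp only [pr, odd', Finset.mem_filter, Finset.mem_univ, true_and]
  have h : ((Finset.univ.val.map w).map q).count b
      = (Finset.univ.filter fun j => q (w j) = b).card := by
    rw [Multiset.map_map, Multiset.count_map, Finset.card_def, Finset.filter_val]
    congr 1
    exact Multiset.filter_congr fun j _ => ⟨fun h => h.symm, fun h => h.symm⟩
  rw [h]

theorem pr_card (q : I → B) {v : Multiset I} (hv : (v.map q).Nodup) :
    Multiset.card v = (pr q v).card := by
  have h : pr q v = (v.map q).toFinset := by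
    ext b
    simp only [pr, Finset.mem_filter, Finset.mem_univ, true_and, Multiset.mem_toFinset]
    rw [Multiset.count_eq_of_nodup hv]
    by_cases hb : b ∈ v.map q
    · simp [hb]
    · simp [hb]
  rw [h, Multiset.toFinset_card_of_nodup hv, Multiset.card_map]

theorem pr_congr (q : I → B) {v w : Multiset I}
    (h : ∀ b, (v.map q).count b % 2 = (w.map q).count b % 2) : pr q v = pr q w := by
  ext b
  simp only [pr, Finset.mem_filter, Finset.mem_univ, true_and, Nat.odd_iff, h b]

end parity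

/-- Row R4 with the local definitions. -/
theorem core4 {I : Type} [Fintype I] [DecidableEq I] (S : Submodule ℂ (Matrix I I ℂ))
    (E : Set (Matrix I I ℂ)) (P : Matrix I I ℂ)
    (hlie : ∀ x ∈ S, ∀ y ∈ S, x * y - y * x ∈ S) (hstar : ∀ x ∈ S, x.conjTranspose ∈ S)
    (hE : ∀ e ∈ E, ∀ A ∈ S, e * A = A * e) (hP : ∀ A ∈ S, A.transpose * P + P * A = 0)
    (a : I → ℂ) (hreal : ∀ i, (starRingEnd ℂ) (a i) = a i)
    (ha : Matrix.diagonal a ∈ S) (k : I → ℂ) (hak : ∀ i j, a i = a j → k i = k j)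
    (τ : I → I) (G : ℤˣ → List I → Prop) (hττ : ∀ i, τ (τ i) = i) (hτ : ∀ i, a (τ i) = -a i)
    (C : Calc τ a G) (hmv : ∀ A ∈ S, ∀ i0 j0, mvR τ G i0 j0 A ∈ S)
    (h1 : ∀ U : Submodule ℂ (I → ℂ), (∀ A ∈ S, ∀ v ∈ U, A.mulVec v ∈ U) →
      (∀ e ∈ E, ∀ v ∈ U, e.mulVec v ∈ U) →
      (∀ v ∈ U, ∀ w ∈ U, dotProduct v (P.mulVec w) = 0) → U = ⊥) :
    ∃ (B : Type) (_ : Fintype B) (_ : DecidableEq B) (π : B → Matrix I I ℂ)
      (𝓜 : Set (Finset B)), ∑ b, π b = 1 ∧
      (∀ b b', π b * π b' = if b = b' then π b else 0) ∧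
      (∀ b, (∀ A ∈ S, A * π b = π b * A) ∧ ∀ e ∈ E, e * π b = π b * e) ∧
      ∅ ∈ 𝓜 ∧ (∀ X ∈ 𝓜, ∀ Y ∈ 𝓜, symmDiff X Y ∈ 𝓜) ∧
      ∀ (L : ℕ) (u : Ten I L), (∀ A ∈ S, aT A u = 0) →
        (∀ w, u w ≠ 0 → ∃ ε : ℤˣ, G ε (List.ofFn w) ∧ ∏ j, k (w j) = (((ε : ℤ) : ℝ) : ℂ)) →
        (∀ c : Fin L → B, sl (fun j => π (c j)) u ≠ 0 → (odd' c).card ≤ 4 → odd' c ∈ 𝓜) ∧
        ((∀ c : Fin L → B, sl (fun j => π (c j)) u ≠ 0 → odd' c ∈ 𝓜) →
          gT (Matrix.diagonal k) u = u) := by
  classical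
  have a1 : Alg1 := alg1
  obtain ⟨U, κ, r, F, har, hmr⟩ := exists_frame5 S E hlie hstar hE a hreal ha (fun _ => 1)
    (fun _ => one_ne_zero) (fun _ _ _ => rfl)
    (fun e _ => by rw [Matrix.diagonal_one, Matrix.mul_one, Matrix.one_mul])
    (fun A hA => by
      rw [inv_one, Matrix.diagonal_one, Matrix.one_mul, Matrix.mul_one]
      exact hA)
  have hκ1 : ∀ i, κ i = 1 := by
    intro i
    obtain ⟨j, hj⟩ := F.val i
    exact hj
  have hS := F.sit
  have hU1 := F.u1
  have hU2 := F.u2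
  -- the form in the new coordinates
  have hUT : Uᵀ * Uᴴᵀ = 1 := by
    rw [← Matrix.transpose_mul, hU1, Matrix.transpose_one]
  have hQlie : ∀ X ∈ conjS U S, Xᵀ * (Uᵀ * P * U) + Uᵀ * P * U * X = 0 := by
    intro X hX
    have h2 := hP _ (mem_conjS.1 hX)
    rw [Matrix.transpose_mul, Matrix.transpose_mul] at h2
    calc Xᵀ * (Uᵀ * P * U) + Uᵀ * P * U * X
        = (Uᵀ * Uᴴᵀ) * (Xᵀ * Uᵀ) * P * U + Uᵀ * P * (U * X) * (Uᴴ * U) := by
          rw [hUT, hU1, Matrix.one_mul, Matrix.mul_one]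
          simp only [Matrix.mul_assoc]
      _ = Uᵀ * (Uᴴᵀ * (Xᵀ * Uᵀ) * P + P * (U * X * Uᴴ)) * U := by
          rw [Matrix.mul_add, Matrix.add_mul]
          simp only [Matrix.mul_assoc]
      _ = 0 := by rw [h2, Matrix.mul_zero, Matrix.zero_mul]
  have hQpair : ∀ i j, (Uᵀ * P * U) i j ≠ 0 →
      (∀ T, diagonal T ∈ conjS U S → T i + T j = 0) ∧ κ i * κ j = 1 := by
    intro i j hij
    refine ⟨fun T hT => ?_, by rw [hκ1, hκ1, mul_one]⟩
    have h2 := congrFun (congrFun (hQlie _ hT) i) j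
    rw [Matrix.diagonal_transpose, Matrix.add_apply, Matrix.diagonal_mul, Matrix.mul_diagonal,
      Matrix.zero_apply, mul_comm, ← mul_add] at h2
    exact (mul_eq_zero.1 h2).resolve_left hij
  -- the classes
  let rr : Setoid I := ⟨Conn (conjS U S) κ, fun i => Conn.refl i, fun h2 => conn_symm hS h2,
    fun h2 h3 => conn_trans hS h2 h3⟩
  let B : Type := Quotient rr
  let q : I → B := fun i => Quotient.mk rr i
  have hq : ∀ i j, Conn (conjS U S) κ i j → q i = q j := fun i j hij => Quotient.sound hij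
  have hqc : ∀ i j, q i = q j → Conn (conjS U S) κ i j := fun i j hij => Quotient.exact hij
  have : Fintype B := Fintype.ofFinite B
  let ind : B → I → ℂ := fun b i => if q i = b then 1 else 0
  let π : B → Matrix I I ℂ := fun b => U * diagonal (ind b) * Uᴴ
  -- the pairs
  have pairs : ∀ i, ∃ a b, Conn (conjS U S) κ i a ∧ Conn (conjS U S) κ i b ∧
      (∀ T, diagonal T ∈ conjS U S → T a + T b = 0) ∧ κ a * κ b = 1 := by
    intro i
    by_contra hc
    -- the coordinate subspace of the class of `i`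
    let W : Submodule ℂ (I → ℂ) :=
      { carrier := {v | ∀ j, ¬ Conn (conjS U S) κ i j → (Uᴴ *ᵥ v) j = 0}
        add_mem' := by
          intro v v' hv hv' j hj
          rw [Matrix.mulVec_add, Pi.add_apply, hv j hj, hv' j hj, add_zero]
        zero_mem' := by
          intro j _
          rw [Matrix.mulVec_zero, Pi.zero_apply]
        smul_mem' := by
          intro c v hv j hj
          rw [Matrix.mulVec_smul, Pi.smul_apply, hv j hj, smul_zero] }
    have hst : ∀ M : Matrix I I ℂ, (∀ x y, (Uᴴ * M * U) x y ≠ 0 → Conn (conjS U S) κ x y) →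
        ∀ v ∈ W, M.mulVec v ∈ W := by
      intro M hM v hv x hx
      have e : Uᴴ *ᵥ (M *ᵥ v) = (Uᴴ * M * U) *ᵥ (Uᴴ *ᵥ v) := by
        rw [Matrix.mulVec_mulVec, Matrix.mulVec_mulVec]
        congr 1
        calc Uᴴ * M = Uᴴ * M * (U * Uᴴ) := by rw [hU2, Matrix.mul_one]
          _ = Uᴴ * M * U * Uᴴ := by simp only [Matrix.mul_assoc]
      rw [e, Matrix.mulVec, dotProduct]
      refine Finset.sum_eq_zero fun y _ => ?_
      by_cases hy : Conn (conjS U S) κ i y
      · by_cases h0 : (Uᴴ * M * U) x y = 0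
        · rw [h0, zero_mul]
        · exact absurd (conn_trans hS hy (conn_symm hS (hM x y h0))) hx
      · rw [hv y hy, mul_zero]
    have hW := h1 W
      (fun A hA => hst A fun x y h0 => Conn.step hS (F.mem A hA) h0 (Conn.refl y))
      (fun e he => hst e fun x y h0 =>
        Conn.same (F.same e he x y h0).1 (F.same e he x y h0).2 (Conn.refl y)) (by
        intro v hv w hw
        have hUv : ∀ x : I → ℂ, U *ᵥ (Uᴴ *ᵥ x) = x := by
          intro x
          rw [Matrix.mulVec_mulVec, hU2, Matrix.one_mulVec]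
        have e : dotProduct v (P *ᵥ w)
            = dotProduct (Uᴴ *ᵥ v) ((Uᵀ * P * U) *ᵥ (Uᴴ *ᵥ w)) := by
          calc dotProduct v (P *ᵥ w)
              = dotProduct (U *ᵥ (Uᴴ *ᵥ v)) (P *ᵥ (U *ᵥ (Uᴴ *ᵥ w))) := by rw [hUv, hUv]
            _ = dotProduct (Uᴴ *ᵥ v) (Uᵀ *ᵥ (P *ᵥ (U *ᵥ (Uᴴ *ᵥ w)))) := by
                rw [Matrix.dotProduct_mulVec (Uᴴ *ᵥ v), Matrix.vecMul_transpose]
            _ = _ := by simp only [Matrix.mulVec_mulVec, Matrix.mul_assoc]
        rw [e, dotProduct]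
        refine Finset.sum_eq_zero fun x _ => ?_
        by_cases hx : Conn (conjS U S) κ i x
        · have h2 : ((Uᵀ * P * U) *ᵥ (Uᴴ *ᵥ w)) x = 0 := by
            rw [Matrix.mulVec, dotProduct]
            refine Finset.sum_eq_zero fun y _ => ?_
            by_cases hy : Conn (conjS U S) κ i y
            · by_cases h0 : (Uᵀ * P * U) x y = 0
              · rw [h0, zero_mul]
              · exact absurd ⟨x, y, hx, hy, hQpair x y h0⟩ hc
            · rw [hw y hy, mul_zero]
          rw [h2, mul_zero]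
        · rw [hv x hx, zero_mul])
    have h2 : U *ᵥ Pi.single i 1 ∈ W := by
      intro j hj
      rw [Matrix.mulVec_mulVec, hU1, Matrix.one_mulVec]
      refine Pi.single_eq_of_ne ?_ _
      rintro rfl
      exact hj (Conn.refl _)
    rw [hW, Submodule.mem_bot] at h2
    have h3 := congrArg (fun v => (Uᴴ *ᵥ v) i) h2
    simp only [Matrix.mulVec_mulVec, hU1, Matrix.one_mulVec, Pi.single_eq_same,
      Matrix.mulVec_zero, Pi.zero_apply] at h3
    exact one_ne_zero h3
  -- the projections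
  have hπc : ∀ (M : Matrix I I ℂ) (b : B), (∀ x y, (Uᴴ * M * U) x y ≠ 0 → q x = q y) →
      M * π b = π b * M := by
    intro M b hM
    have h2 : (Uᴴ * M * U) * diagonal (ind b) = diagonal (ind b) * (Uᴴ * M * U) := by
      ext x y
      rw [Matrix.mul_diagonal, Matrix.diagonal_mul]
      by_cases h0 : (Uᴴ * M * U) x y = 0
      · rw [h0, zero_mul, mul_zero]
      · show _ * (if q y = b then (1 : ℂ) else 0) = (if q x = b then (1 : ℂ) else 0) * _
        rw [hM x y h0, mul_comm]
    calc M * π b = (U * Uᴴ) * M * (U * diagonal (ind b) * Uᴴ) := by rw [hU2, Matrix.one_mul]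
      _ = U * ((Uᴴ * M * U) * diagonal (ind b)) * Uᴴ := by simp only [Matrix.mul_assoc]
      _ = U * (diagonal (ind b) * (Uᴴ * M * U)) * Uᴴ := by rw [h2]
      _ = (U * diagonal (ind b) * Uᴴ) * M * (U * Uᴴ) := by simp only [Matrix.mul_assoc]
      _ = π b * M := by rw [hU2, Matrix.mul_one]
  have hsl : ∀ {L : ℕ} (c : Fin L → B) (u : Ten I L), sl (fun j => π (c j)) u
      = gT U (sl (fun j => diagonal (ind (c j))) (gT Uᴴ u)) := by
    intro L c u
    show _ = sl (fun _ => U) (sl (fun j => diagonal (ind (c j))) (sl (fun _ => Uᴴ) u))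
    rw [sl_sl, sl_sl]
  have hg0 : ∀ (M : Matrix I I ℂ) (L : ℕ), gT M (0 : Ten I L) = 0 := by
    intro M L
    funext w
    simp [gT]
  have hUHU : ∀ {L : ℕ} (u : Ten I L), gT Uᴴ (gT U u) = u := by
    intro L u
    rw [← a1.gT_mul, hU1, a1.gT_one]
  have hUUH : ∀ {L : ℕ} (u : Ten I L), gT U (gT Uᴴ u) = u := by
    intro L u
    rw [← a1.gT_mul, hU2, a1.gT_one]
  have hnull : ∀ {L : ℕ} (u : Ten I L), (∀ A ∈ S, aT A u = 0) → ∀ w, gT Uᴴ u w ≠ 0 →
      ∀ T, diagonal T ∈ conjS U S → ((Finset.univ.val.map w).map T).sum = 0 := by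
    intro L u hku w hw T hT
    have h4 := congrFun (F.kill L u hku _ hT) w
    rw [P5e.aT_diag, Pi.zero_apply] at h4
    have h5 := (mul_eq_zero.1 h4).resolve_right hw
    rw [Multiset.map_map]
    exact h5
  -- the words in the new coordinates
  have hword : ∀ {L : ℕ} (u : Ten I L),
      (∀ w, u w ≠ 0 → ∃ ε : ℤˣ, G ε (List.ofFn w) ∧ ∏ j, k (w j) = (((ε : ℤ) : ℝ) : ℂ)) →
      ∀ w, gT Uᴴ u w ≠ 0 → ∃ ε : ℤˣ, Gn G r ε (Finset.univ.val.map w) ∧
        ∏ j, k (r (w j)) = (((ε : ℤ) : ℝ) : ℂ) := by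
    intro L u hu w hw
    obtain ⟨w0, h2, h3⟩ : ∃ w0, u w0 ≠ 0 ∧ ∀ j, Uᴴ (w j) (w0 j) ≠ 0 := by
      by_contra hc
      push Not at hc
      apply hw
      show ∑ w' : Fin L → I, (∏ i, Uᴴ (w i) (w' i)) * u w' = 0
      refine Finset.sum_eq_zero fun w' _ => ?_
      by_cases h0 : u w' = 0
      · rw [h0, mul_zero]
      · obtain ⟨j, hj⟩ := hc w' h0
        rw [Finset.prod_eq_zero (Finset.mem_univ j) hj, zero_mul]
    have h4 : ∀ j, a (w0 j) = a (r (w j)) := by
      intro j
      refine har _ _ fun h0 => h3 j ?_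
      rw [Matrix.conjTranspose_apply, h0, star_zero]
    obtain ⟨ε, h5, h6⟩ := hu w0 h2
    refine ⟨ε, ⟨List.ofFn w, ?_, ?_⟩, ?_⟩
    · rw [Fin.univ_val_map]
    · refine C.blk ε _ _ ?_ h5
      rw [List.map_ofFn, List.map_map, List.map_ofFn]
      congr 1
      funext j
      exact h4 j
    · rw [← h6]
      exact Finset.prod_congr rfl fun j _ => hak _ _ (h4 j).symm
  -- the reduction
  have rules : ∀ e : ℤˣ, Red.Rules (conjS U S) (Q τ G r) (Gn G r e) := fun e =>
    ⟨fun i j v hT h => gn_can C hτ r (hT _ hmr) h, fun l m m' n v hQ h => gn_exch C r hQ h⟩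
  have hqS : ∀ A ∈ conjS U S, ∀ i j, A i j ≠ 0 → q i = q j := fun A hA i j hij =>
    hq i j (Conn.step hS hA hij (Conn.refl j))
  have hsum : ∀ i j, q i = q j → ∃ s : Multiset (Tri I),
      (∀ p ∈ s, Red.HomR (conjS U S) κ (Q τ G r) p.1 p.2.1 p.2.2) ∧
      ∀ T, diagonal T ∈ conjS U S → T i + T j = (s.map fun p => p.2.1 T).sum := by
    intro i j hij
    have h2 := ((conn_iff hS).1 (hqc i j hij)).add (sq_of_pairs hS pairs j)
    obtain ⟨s, h3, h4, -⟩ := h2
    obtain ⟨s', h5, h6⟩ := refine_ms C hττ hτ hmv har s h3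
    refine ⟨s', h5, fun T hT => ?_⟩
    rw [h6 T, ← h4 T hT]
    ring
  have main : ∀ (e : ℤˣ) (v : Multiset I), Gn G r e v →
      (∀ T, diagonal T ∈ conjS U S → (v.map T).sum = 0) → (pr q v).card ≤ 4 → e = 1 := by
    intro e v hv h0 hc
    obtain ⟨v', h2, -, h3, h4⟩ := Red.red hS (rules e) q hqS hsum _ v le_rfl hv h0
    refine gn_four C r ?_ h2
    rw [pr_card q h3, pr_congr q h4]
    exact hc
  refine ⟨B, inferInstance, inferInstance, π,
    {X | ∃ v, Gn G r 1 v ∧ (∀ T, diagonal T ∈ conjS U S → (v.map T).sum = 0) ∧ pr q v = X},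
    ?_, ?_, ?_, ?_, ?_, ?_⟩
  · have h2 : ∑ b, π b = U * (∑ b, diagonal (ind b)) * Uᴴ := by
      rw [Matrix.mul_sum, Matrix.sum_mul]
    have h3 : ∑ b, diagonal (ind b) = (1 : Matrix I I ℂ) := by
      ext x y
      rw [Matrix.sum_apply, Matrix.one_apply]
      by_cases hxy : x = y
      · subst hxy
        simp only [Matrix.diagonal_apply_eq, ind]
        rw [Finset.sum_eq_single (q x) (fun b _ hb => if_neg (Ne.symm hb))
          (fun h0 => absurd (Finset.mem_univ _) h0), if_pos rfl]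
        simp
      · simp only [Matrix.diagonal_apply_ne _ hxy]
        simp [hxy]
    rw [h2, h3, Matrix.mul_one, hU2]
  · intro b b'
    have h2 : π b * π b' = U * (diagonal (ind b) * diagonal (ind b')) * Uᴴ := by
      calc π b * π b' = U * diagonal (ind b) * (Uᴴ * U) * diagonal (ind b') * Uᴴ := by
            simp only [π, Matrix.mul_assoc]
        _ = _ := by
            rw [hU1, Matrix.mul_one]
            simp only [Matrix.mul_assoc]
    rw [h2, Matrix.diagonal_mul_diagonal]
    by_cases hb : b = b'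
    · subst hb
      rw [if_pos rfl]
      show U * diagonal (fun i => ind b i * ind b i) * Uᴴ = U * diagonal (ind b) * Uᴴ
      congr 3
      funext i
      show (if q i = b then (1 : ℂ) else 0) * (if q i = b then (1 : ℂ) else 0)
        = if q i = b then (1 : ℂ) else 0
      by_cases hi : q i = b
      · rw [if_pos hi, mul_one]
      · rw [if_neg hi, mul_zero]
    · rw [if_neg hb]
      have h3 : (fun i => ind b i * ind b' i) = fun _ => (0 : ℂ) := by
        funext i
        show (if q i = b then (1 : ℂ) else 0) * (if q i = b' then (1 : ℂ) else 0) = 0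
        by_cases hi : q i = b
        · rw [if_neg fun h4 => hb (hi.symm.trans h4), mul_zero]
        · rw [if_neg hi, zero_mul]
      rw [h3, Matrix.diagonal_zero, Matrix.mul_zero, Matrix.zero_mul]
  · intro b
    refine ⟨fun A hA => hπc A b fun x y h0 => hq x y ?_, fun e he => hπc e b fun x y h0 =>
      hq x y ?_⟩
    · exact Conn.step hS (F.mem A hA) h0 (Conn.refl y)
    · exact Conn.same (F.same e he x y h0).1 (F.same e he x y h0).2 (Conn.refl y)
  · exact ⟨0, gn_zero C r, fun T _ => by rw [Multiset.map_zero, Multiset.sum_zero], pr_zero q⟩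
  · rintro X ⟨v, h2, h3, rfl⟩ Y ⟨v', h2', h3', rfl⟩
    refine ⟨v + v', ?_, fun T hT => ?_, pr_add q v v'⟩
    · have h4 := gn_add C r h2 h2'
      rwa [one_mul] at h4
    · rw [Multiset.map_add, Multiset.sum_add, h3 T hT, h3' T hT, add_zero]
  · intro L u hku hu
    refine ⟨fun c hc hcard => ?_, fun hall => ?_⟩
    · rw [hsl] at hc
      have h2 : sl (fun j => diagonal (ind (c j))) (gT Uᴴ u) ≠ 0 := by
        intro h0
        rw [h0, hg0] at hc
        exact hc rfl
      obtain ⟨w, hw⟩ := Function.ne_iff.1 h2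
      rw [sl_diag, Pi.zero_apply] at hw
      have h3 := right_ne_zero_of_mul hw
      have h4 : (fun j => q (w j)) = c := by
        funext j
        have h5 := Finset.prod_ne_zero_iff.1 (left_ne_zero_of_mul hw) j (Finset.mem_univ j)
        by_contra h6
        exact h5 (if_neg h6)
      obtain ⟨ε, h5, -⟩ := hword u hu w h3
      have h6 : pr q (Finset.univ.val.map w) = odd' c := by
        rw [pr_word, h4]
      have h7 := main ε _ h5 (hnull u hku w h3) (by rw [h6]; exact hcard)
      rw [h7] at h5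
      exact ⟨_, h5, hnull u hku w h3, h6⟩
    · have hkU : diagonal k * U = U * diagonal fun j => k (r j) := by
        ext i j
        rw [Matrix.diagonal_mul, Matrix.mul_diagonal]
        by_cases h0 : U i j = 0
        · simp [h0]
        · rw [hak _ _ (har i j h0), mul_comm]
      have hfix : gT (diagonal fun j => k (r j)) (gT Uᴴ u) = gT Uᴴ u := by
        funext w
        rw [P5e.gT_diag]
        by_cases h0 : gT Uᴴ u w = 0
        · rw [h0, mul_zero]
        · have h2 : sl (fun j => π (q (w j))) u ≠ 0 := by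
            intro h3
            have h4 := congrArg (fun t => gT Uᴴ t w) (hsl (fun j => q (w j)) u)
            simp only [h3, hg0, hUHU, sl_diag, Pi.zero_apply] at h4
            have h5 : ∏ j, ind (q (w j)) (w j) = 1 :=
              Finset.prod_eq_one fun j _ => if_pos rfl
            rw [h5, one_mul] at h4
            exact h0 h4.symm
          obtain ⟨v, h3, h4, h5⟩ := hall _ h2
          obtain ⟨ε, h6, h7⟩ := hword u hu w h0
          have h8 := main (ε * 1) (Finset.univ.val.map w + v) (gn_add C r h6 h3)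
            (fun T hT => by
              rw [Multiset.map_add, Multiset.sum_add, hnull u hku w h0 T hT, h4 T hT, add_zero])
            (by
              rw [pr_add, h5, pr_word, symmDiff_self]
              simp)
          rw [mul_one] at h8
          rw [h7, h8]
          simp
      calc gT (diagonal k) u = gT (diagonal k) (gT U (gT Uᴴ u)) := by rw [hUUH]
        _ = gT U (gT (diagonal fun j => k (r j)) (gT Uᴴ u)) := by
            rw [← a1.gT_mul, hkU, a1.gT_mul]
        _ = u := by rw [hfix, hUUH]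

end Pool.Agent.Lib.MP_361a6f_ag.FL.E.R4

namespace Pool.Agent.Lib.MP_361a6f_ag.FL.E

/-- Row R4: see `E5.Defs`. -/
theorem r4 : R4Statement := by
  intro I _ _ S E P h1 h2 h3 h4 _ a h5 h6 k h7 τ G h8 h9 h10 h11 h12
  exact R4.core4 S E P h1 h2 h3 h4 a h5 h6 k h7 τ G h8 h9 h10 h11 h12

end Pool.Agent.Lib.MP_361a6f_ag.FL.E
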