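import Pool.Agent.Lib.MP_361a6f_ag.FL.PT.Wrd

/-!
# Theorem E5: the real span of a system with real contractions
-/

set_option autoImplicit false
set_option linter.unusedSectionVars false

open Matrix

namespace Pool.Agent.Lib.MP_361a6f_ag.FL.E5

open Pool.Agent.Lib.MP_361a6f_ag.FL.E Pool.Agent.Lib.MP_361a6f_ag.FL.E.QS
open Pool.Agent.Lib.MP_361a6f_ag.FL.PT (tau_ne pwd Mulf mulf_one mulf_mul mulf_add mulf_smul
  mulf_prod sl_diag)

variable {I Λ : Type} [Fintype I] [DecidableEq I] [DecidableEq Λ]

/-- real subspaces closed under the operations -/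
structure USys (D : Dat I Λ) (U : (L : ℕ) → Submodule ℝ (Ten I L)) : Prop where
  one : (fun _ => 1) ∈ U 0
  real : ∀ u ∈ U 0, ∃ r : ℝ, ∀ w, u w = (r : ℂ)
  perm : ∀ (L : ℕ) (σ : Equiv.Perm (Fin L)), ∀ u ∈ U L, permT σ u ∈ U L
  outer : ∀ (p q : ℕ) (u : Ten I p) (v : Ten I q), u ∈ U p → v ∈ U q → outer u v ∈ U (p + q)
  cont : ∀ (p c : ℕ) (u : Ten I p) (m : Ten I (p + c)), u ∈ U p → m ∈ U (p + c) →
    cont D u m ∈ U c
  om : ∀ α, om D α ∈ U 2

variable {D : Dat I Λ}

/-- the real span of a system with real contractions -/
theorem usys_of_rsys {Bt : (L : ℕ) → Ten I L → Prop} (h : RSys D Bt) :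
    USys D (Rsp.RS Bt) where
  one := Rsp.mem_RS h.one
  real := by
    intro u hu
    refine Submodule.span_induction (p := fun u _ => ∃ r : ℝ, ∀ w, u w = (r : ℂ)) ?_ ?_ ?_ ?_ hu
    · intro v hv
      exact h.real v hv
    · exact ⟨0, fun w => by rw [Pi.zero_apply, Complex.ofReal_zero]⟩
    · rintro a b _ _ ⟨r, hr⟩ ⟨r', hr'⟩
      exact ⟨r + r', fun w => by rw [Pi.add_apply, hr, hr', Complex.ofReal_add]⟩
    · rintro c a _ ⟨r, hr⟩
      exact ⟨c * r, fun w => by
        rw [Pi.smul_apply, hr, Complex.real_smul, Complex.ofReal_mul]⟩
  perm := by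
    intro L σ u hu
    refine Submodule.span_induction (p := fun u _ => permT σ u ∈ Rsp.RS Bt L) ?_ ?_ ?_ ?_ hu
    · intro v hv
      exact Rsp.mem_RS (h.perm L σ v hv)
    · exact (Rsp.RS Bt L).zero_mem
    · intro a b _ _ ha hb
      exact (Rsp.RS Bt L).add_mem ha hb
    · intro c a _ ha
      exact (Rsp.RS Bt L).smul_mem c ha
  outer := by
    intro p q u v hu hv
    refine Submodule.span_induction (p := fun u _ => FL.outer u v ∈ Rsp.RS Bt (p + q))
      ?_ ?_ ?_ ?_ hu
    · intro a ha
      refine Submodule.span_induction (p := fun v _ => FL.outer a v ∈ Rsp.RS Bt (p + q))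
        ?_ ?_ ?_ ?_ hv
      · intro b hb
        exact Rsp.mem_RS (h.outer p q a b ha hb)
      · have e : FL.outer a (0 : Ten I q) = 0 := by
          funext w
          simp only [FL.outer, Pi.zero_apply, mul_zero]
        rw [e]
        exact (Rsp.RS Bt (p + q)).zero_mem
      · intro b b' _ _ hb hb'
        rw [Rsp.outer_add_right]
        exact (Rsp.RS Bt (p + q)).add_mem hb hb'
      · intro c b _ hb
        rw [Rsp.outer_rsmul_right]
        exact (Rsp.RS Bt (p + q)).smul_mem c hb
    · have e : FL.outer (0 : Ten I p) v = 0 := by
        funext w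
        simp only [FL.outer, Pi.zero_apply, zero_mul]
      rw [e]
      exact (Rsp.RS Bt (p + q)).zero_mem
    · intro b b' _ _ hb hb'
      rw [Rsp.outer_add_left]
      exact (Rsp.RS Bt (p + q)).add_mem hb hb'
    · intro c b _ hb
      rw [Rsp.outer_rsmul_left]
      exact (Rsp.RS Bt (p + q)).smul_mem c hb
  cont := by
    intro p c u m hu hm
    refine Submodule.span_induction (p := fun u _ => FL.cont D u m ∈ Rsp.RS Bt c) ?_ ?_ ?_ ?_ hu
    · intro a ha
      refine Submodule.span_induction (p := fun m _ => FL.cont D a m ∈ Rsp.RS Bt c)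
        ?_ ?_ ?_ ?_ hm
      · intro b hb
        exact Rsp.mem_RS (h.cont p c a b ha hb)
      · have e : FL.cont D a (0 : Ten I (p + c)) = 0 := by
          funext w
          simp only [FL.cont, Pi.zero_apply, mul_zero, Finset.sum_const_zero]
        rw [e]
        exact (Rsp.RS Bt c).zero_mem
      · intro b b' _ _ hb hb'
        rw [Rsp.cont_add_right]
        exact (Rsp.RS Bt c).add_mem hb hb'
      · intro r b _ hb
        rw [Rsp.cont_rsmul_right]
        exact (Rsp.RS Bt c).smul_mem r hb
    · have e : FL.cont D (0 : Ten I p) m = 0 := by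
        funext w
        simp only [FL.cont, Pi.zero_apply, zero_mul, mul_zero, Finset.sum_const_zero]
      rw [e]
      exact (Rsp.RS Bt c).zero_mem
    · intro b b' _ _ hb hb'
      rw [Rsp.cont_add_left]
      exact (Rsp.RS Bt c).add_mem hb hb'
    · intro r b _ hb
      rw [Rsp.cont_rsmul_left]
      exact (Rsp.RS Bt c).smul_mem r hb
  om := fun α => Rsp.mem_RS (h.om α)

variable {U : (L : ℕ) → Submodule ℝ (Ten I L)}

/-- contractions are real -/
theorem USys.psi_real (h : USys D U) {L : ℕ} {u v : Ten I L} (hu : u ∈ U L) (hv : v ∈ U L) :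
    ∃ r : ℝ, psiT D u v = (r : ℂ) := by
  obtain ⟨r, hr⟩ := h.real _ (h.cont L 0 u v hu hv)
  refine ⟨r, ?_⟩
  rw [← hr Fin.elim0, Qps.cont_zero]

/-- matrices in one slot -/
theorem USys.sl (h : USys D U) (ho : ∀ i, D.odd (D.typ i)) (hty : ∀ i j, D.typ i = D.typ j)
    {z : Ten I 2} (hz : z ∈ U 2) {L : ℕ} (r : Fin L) {u : Ten I L} (hu : u ∈ U L) :
    Slot.sl (opM D z) r u ∈ U L := by
  by_cases hI : Nonempty I
  · obtain ⟨i0⟩ := hI
    rw [Slot.sl_eq hty ho i0]
    exact h.cont 2 L _ _ (h.om _) (h.perm _ _ _ (h.outer 2 L z u hz hu))
  · have h1 : Slot.sl (opM D z) r u = u := by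
      funext w
      exact absurd ⟨w r⟩ hI
    rw [h1]
    exact hu

/-- **The projections to the pairs of words.** -/
theorem pwd_memU (ho : ∀ i, D.odd (D.typ i))
    (hc : ∀ (L : ℕ) (r : Fin L) (z : I → ℂ), (∀ i, z (D.τ i) = (starRingEnd ℂ) (z i)) →
      (fun w => z (w r) : Ten I L) ∈ Mulf (U L)) {L : ℕ} (w : Fin (L + 1) → I)
    {u : Ten I (L + 1)} (hu : u ∈ U (L + 1)) : pwd D w u ∈ U (L + 1) := by
  classical
  -- the two kinds of functions on the letters
  let a : Fin (L + 1) → I → ℂ := fun r i => if i = w r ∨ i = D.τ (w r) then 1 else 0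
  let g : Fin (L + 1) → I → ℂ := fun r i =>
    if i = w r then Complex.I else if i = D.τ (w r) then -Complex.I else 0
  have ha : ∀ r i, a r (D.τ i) = (starRingEnd ℂ) (a r i) := by
    intro r i
    have h1 : (D.τ i = w r ∨ D.τ i = D.τ (w r)) ↔ (i = w r ∨ i = D.τ (w r)) := by
      constructor
      · rintro (h | h)
        · right; rw [← h, D.τ_τ]
        · left
          have := congrArg D.τ h
          rwa [D.τ_τ, D.τ_τ] at this
      · rintro (h | h)
        · right; rw [h]
        · left; rw [h, D.τ_τ]
    show (if D.τ i = w r ∨ D.τ i = D.τ (w r) then (1 : ℂ) else 0)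
      = (starRingEnd ℂ) (if i = w r ∨ i = D.τ (w r) then 1 else 0)
    rw [if_congr h1 rfl rfl]
    split_ifs <;> simp
  have hg : ∀ r i, g r (D.τ i) = (starRingEnd ℂ) (g r i) := by
    intro r i
    show (if D.τ i = w r then Complex.I else if D.τ i = D.τ (w r) then -Complex.I else 0)
      = (starRingEnd ℂ) (if i = w r then Complex.I else if i = D.τ (w r) then -Complex.I else 0)
    by_cases h1 : i = w r
    · rw [if_pos h1, h1, if_neg (tau_ne ho _), if_pos rfl, Complex.conj_I]
    · have h1' : ¬ D.τ i = D.τ (w r) := by
        intro h
        apply h1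
        have := congrArg D.τ h
        rwa [D.τ_τ, D.τ_τ] at this
      rw [if_neg h1, if_neg h1']
      by_cases h2 : i = D.τ (w r)
      · rw [if_pos h2, h2, D.τ_τ, if_pos rfl, map_neg, Complex.conj_I, neg_neg]
      · have h2' : ¬ D.τ i = w r := by
          intro h
          apply h2
          rw [← h, D.τ_τ]
        rw [if_neg h2, if_neg h2', map_zero]
  have hA : ∀ r, (fun w' => a r (w' r) : Ten I (L + 1)) ∈ Mulf (U (L + 1)) := fun r =>
    hc (L + 1) r _ (ha r)
  have hG : ∀ r, (fun w' => g r (w' r) : Ten I (L + 1)) ∈ Mulf (U (L + 1)) := fun r =>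
    hc (L + 1) r _ (hg r)
  -- the indicator function
  let f : Ten I (L + 1) := (∏ r, (fun w' => a r (w' r) : Ten I (L + 1))) *
    ∏ r : Fin L, ((2⁻¹ : ℝ) • ((1 : Ten I (L + 1)) + (-1 : ℝ) •
      ((fun w' => g 0 (w' 0) : Ten I (L + 1)) * (fun w' => g r.succ (w' r.succ)))))
  have hf : f ∈ Mulf (U (L + 1)) := by
    refine mulf_mul (mulf_prod _ _ fun r _ => hA r) (mulf_prod _ _ fun r _ => ?_)
    exact mulf_smul _ (mulf_add mulf_one (mulf_smul _ (mulf_mul (hG 0) (hG r.succ))))
  have hfu : f * u = pwd D w u := by
    funext w'
    rw [Pi.mul_apply]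
    have hfw : f w' = (∏ r, a r (w' r)) * ∏ r : Fin L,
        ((2⁻¹ : ℝ) • ((1 : ℂ) + (-1 : ℝ) • (g 0 (w' 0) * g r.succ (w' r.succ)))) := by
      show ((∏ r, (fun w' => a r (w' r) : Ten I (L + 1))) *
        ∏ r : Fin L, ((2⁻¹ : ℝ) • ((1 : Ten I (L + 1)) + (-1 : ℝ) •
      ((fun w' => g 0 (w' 0) : Ten I (L + 1)) * (fun w' => g r.succ (w' r.succ)))))) w' = _
      rw [Pi.mul_apply, Finset.prod_apply, Finset.prod_apply]
      rfl
    show f w' * u w' = if w' = w ∨ w' = D.τ ∘ w then u w' else 0
    by_cases h : w' = w ∨ w' = D.τ ∘ w
    · rw [if_pos h]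
      have h1 : f w' = 1 := by
        rw [hfw]
        have e1 : ∀ r, a r (w' r) = 1 := by
          intro r
          show (if w' r = w r ∨ w' r = D.τ (w r) then (1 : ℂ) else 0) = 1
          rw [if_pos]
          rcases h with h | h
          · left; rw [h]
          · right; rw [h]; rfl
        have e2 : ∀ r, g 0 (w' 0) * g r (w' r) = -1 := by
          intro r
          rcases h with h | h
          · have e3 : ∀ r, g r (w' r) = Complex.I := by
              intro r
              show (if w' r = w r then Complex.I else _) = _
              rw [h, if_pos rfl]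
            rw [e3, e3, Complex.I_mul_I]
          · have e3 : ∀ r, g r (w' r) = -Complex.I := by
              intro r
              show (if w' r = w r then Complex.I else
                if w' r = D.τ (w r) then -Complex.I else 0) = _
              rw [h]
              show (if D.τ (w r) = w r then Complex.I else
                if D.τ (w r) = D.τ (w r) then -Complex.I else 0) = _
              rw [if_neg (tau_ne ho _), if_pos rfl]
            rw [e3, e3, neg_mul_neg, Complex.I_mul_I]
        rw [Finset.prod_congr rfl fun r _ => e1 r, Finset.prod_const_one, one_mul]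
        refine Finset.prod_eq_one fun r _ => ?_
        rw [e2]
        norm_num
      rw [h1, one_mul]
    · rw [if_neg h]
      have h1 : f w' = 0 := by
        rw [hfw]
        by_cases h2 : ∀ r, w' r = w r ∨ w' r = D.τ (w r)
        · -- the signs are not constant
          have h3 : ∃ r, g 0 (w' 0) * g r (w' r) = 1 := by
            by_contra hc
            push Not at hc
            have e : ∀ r, g r (w' r) = Complex.I ∨ g r (w' r) = -Complex.I := by
              intro r
              rcases h2 r with h4 | h4
              · left
                show (if w' r = w r then Complex.I else _) = _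
                rw [if_pos h4]
              · right
                show (if w' r = w r then Complex.I else
                  if w' r = D.τ (w r) then -Complex.I else 0) = _
                rw [h4, if_neg (tau_ne ho _), if_pos rfl]
            have hI : Complex.I ≠ -Complex.I := by
              intro h5
              have := congrArg Complex.im h5
              norm_num at this
            have e1 : ∀ r, g r (w' r) = Complex.I → w' r = w r := by
              intro r h5
              rcases h2 r with h4 | h4
              · exact h4
              · exfalso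
                have h6 : g r (w' r) = -Complex.I := by
                  show (if w' r = w r then Complex.I else
                    if w' r = D.τ (w r) then -Complex.I else 0) = _
                  rw [h4, if_neg (tau_ne ho _), if_pos rfl]
                exact hI (h5.symm.trans h6)
            have e2 : ∀ r, g r (w' r) = -Complex.I → w' r = D.τ (w r) := by
              intro r h5
              rcases h2 r with h4 | h4
              · exfalso
                have h6 : g r (w' r) = Complex.I := by
                  show (if w' r = w r then Complex.I else _) = _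
                  rw [if_pos h4]
                exact hI (h6.symm.trans h5)
              · exact h4
            apply h
            rcases e 0 with h5 | h5
            · left
              funext r
              apply e1
              rcases e r with h6 | h6
              · exact h6
              · exfalso
                apply hc r
                rw [h5, h6, mul_neg, Complex.I_mul_I, neg_neg]
            · right
              funext r
              apply e2
              rcases e r with h6 | h6
              · exfalso
                apply hc r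
                rw [h5, h6, neg_mul, Complex.I_mul_I, neg_neg]
              · exact h6
          obtain ⟨r, hr⟩ := h3
          have hr0 : r ≠ 0 := by
            rintro rfl
            rcases h2 0 with h4 | h4
            · have h6 : g 0 (w' 0) = Complex.I := by
                show (if w' 0 = w 0 then Complex.I else _) = _
                rw [if_pos h4]
              rw [h6, Complex.I_mul_I] at hr
              norm_num at hr
            · have h6 : g 0 (w' 0) = -Complex.I := by
                show (if w' 0 = w 0 then Complex.I else
                  if w' 0 = D.τ (w 0) then -Complex.I else 0) = _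
                rw [h4, if_neg (tau_ne ho _), if_pos rfl]
              rw [h6, neg_mul_neg, Complex.I_mul_I] at hr
              norm_num at hr
          obtain ⟨r', rfl⟩ := Fin.exists_succ_eq.2 hr0
          have h7 : ∏ r : Fin L, ((2⁻¹ : ℝ) • ((1 : ℂ) + (-1 : ℝ) •
              (g 0 (w' 0) * g r.succ (w' r.succ)))) = 0 := by
            refine Finset.prod_eq_zero (Finset.mem_univ r') ?_
            rw [hr]
            norm_num
          rw [h7, mul_zero]
        · push Not at h2
          obtain ⟨r, hr1, hr2⟩ := h2
          have h3 : ∏ r, a r (w' r) = 0 := by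
            refine Finset.prod_eq_zero (Finset.mem_univ r) ?_
            show (if w' r = w r ∨ w' r = D.τ (w r) then (1 : ℂ) else 0) = 0
            rw [if_neg]
            rintro (h4 | h4)
            · exact hr1 h4
            · exact hr2 h4
          rw [h3, zero_mul]
      rw [h1, zero_mul]
  rw [← hfu]
  exact hf u hu

end Pool.Agent.Lib.MP_361a6f_ag.FL.E5
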