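import Pool.Agent.Lib.MP_361a6f_ag.FL.E5.Good
import Pool.Agent.Lib.MP_361a6f_ag.FL.E5.W1B
import Pool.Agent.Lib.MP_361a6f_ag.FL.E5.DefsX

/-!
# Theorem E5: the words of the minimal point are good (row W1X)
-/

set_option autoImplicit false
set_option linter.unusedSectionVars false

open Matrix

namespace Pool.Agent.Lib.MP_361a6f_ag.FL.E5

open Pool.Agent.Lib.MP_361a6f_ag.FL.E Pool.Agent.Lib.MP_361a6f_ag.FL.E.QS
open Pool.Agent.Lib.MP_361a6f_ag.FL.PT (tau_ne pwd sl_diag Mulf)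

variable {I Λ : Type} [Fintype I] [DecidableEq I] [DecidableEq Λ]
  {D : Dat I Λ} {Bt : (L : ℕ) → Ten I L → Prop} {l : I → ℂ}

theorem conj_sg {L : ℕ} (w : Fin L → I) : (starRingEnd ℂ) (sg D w) = sg D w := by
  rw [sg, map_prod]
  exact Finset.prod_congr rfl fun i _ => Rea.conj_s (w i)

theorem sg_sq {L : ℕ} (w : Fin L → I) : sg D w * sg D w = 1 := by
  rw [sg, ← Finset.prod_mul_distrib]
  exact Finset.prod_eq_one fun i _ => s_sq (w i)

/-- the form on a tensor of even length fixed by `J₀` -/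
theorem psi_fix (ho : ∀ i, D.odd (D.typ i)) {L : ℕ} (hE : Even L) {u : Ten I L}
    (hu : jT D u = u) : ∃ r : ℝ, 0 ≤ r ∧ psiT D u u = (r : ℂ) := by
  refine ⟨∑ w, ‖u w‖ ^ 2, Finset.sum_nonneg fun w _ => sq_nonneg _, ?_⟩
  rw [psiT]
  push_cast
  refine Finset.sum_congr rfl fun w _ => ?_
  have h1 : sg D (D.τ ∘ w) * (starRingEnd ℂ) (u (D.τ ∘ w)) = u w := congrFun hu w
  have h2 : (starRingEnd ℂ) (u w) = sg D w * u (D.τ ∘ w) := by
    rw [← h1, map_mul, Complex.conj_conj, conj_sg, sg_tau ho, hE.neg_one_pow, one_mul]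
  rw [← Complex.mul_conj', h2]
  ring

/-- the real span of tensors fixed by `J₀` -/
theorem fix_span {L : ℕ} (h : ∀ u, Bt L u → jT D u = u) {u : Ten I L} (hu : u ∈ Rsp.RS Bt L) :
    jT D u = u := by
  refine Submodule.span_induction (p := fun u _ => jT D u = u) ?_ ?_ ?_ ?_ hu
  · intro v hv
    exact h v hv
  · funext w
    simp [jT]
  · intro a b _ _ ha hb
    rw [alg1.jT_add, ha, hb]
  · intro c a _ ha
    have h1 : (c • a : Ten I L) = (c : ℂ) • a := (Complex.coe_smul c a).symm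
    rw [h1, alg1.jT_smul, ha, Complex.conj_ofReal]

/-- a block matrix that commutes with the real structure -/
theorem mten_fix' (ho : ∀ i, D.odd (D.typ i)) {M : Matrix I I ℂ}
    (hM : ∀ i j, M (D.τ i) (D.τ j) = D.s i * D.s j * (starRingEnd ℂ) (M i j)) :
    jT D (mten D M) = mten D M := by
  funext w
  rw [jT, sg, Fin.prod_univ_two]
  show D.s (D.τ (w 0)) * D.s (D.τ (w 1)) * (starRingEnd ℂ)
      (M (D.τ (w 0)) (D.τ (D.τ (w 1))) * D.s (D.τ (D.τ (w 1))))
    = M (w 0) (D.τ (w 1)) * D.s (D.τ (w 1))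
  rw [hM, map_mul, map_mul, map_mul, Complex.conj_conj, Rea.conj_s, Rea.conj_s, D.τ_τ,
    Rea.conj_s, (D.odd_τ _ (ho (w 0))).2, (D.odd_τ _ (ho (w 1))).2]
  linear_combination (-(M (w 0) (D.τ (w 1))) * D.s (w 1) * (D.s (w 1) * D.s (w 1)))
      * s_sq (D := D) (w 0) - (M (w 0) (D.τ (w 1)) * D.s (w 1)) * s_sq (D := D) (w 1)

/-- the data of the calculus -/
theorem bsys (hR : RSys D Bt) (ho : ∀ i, D.odd (D.typ i)) (hty : ∀ i j, D.typ i = D.typ j)
    (hτ : ∀ i, l (D.τ i) * l i = 1) (hF : FData D Bt l) : BSys D Bt l where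
  usys := usys_of_rsys hR
  odd := ho
  typ := hty
  tau := hτ
  blk := fun M h1 h2 => hF.blk M (fun i j h => by
    by_contra h3
    exact h (h1 i j h3)) (mten_fix' ho h2)
  two := fun u hu => psi_fix ho ⟨1, rfl⟩ (fix_span hF.two hu)
  four := fun u hu => hF.four u hu

/-- the values on the real span are real -/
theorem val_real (S : BSys D Bt l) {L : ℕ} (hE : Even L) {t : Ten I L} (ht : t ∈ Rsp.RS Bt L)
    (w : Fin L → I) : ∃ r : ℝ, sg D w * (t w * t (D.τ ∘ w)) = (r : ℂ) := by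
  by_cases h0 : L = 0
  · subst h0
    obtain ⟨x, hx⟩ := S.usys.real t ht
    refine ⟨x * x, ?_⟩
    have h2 : sg D w = 1 := Fin.prod_univ_zero _
    rw [h2, hx, hx]
    push_cast
    ring
  · have hpos : 0 < L := Nat.pos_of_ne_zero h0
    have hp := S.pwd_mem hpos w ht
    obtain ⟨x, hx⟩ := S.usys.psi_real hp hp
    rw [psi_pwd S hpos hE] at hx
    refine ⟨x / 2, ?_⟩
    push_cast
    linear_combination hx / 2

/-- **The words of the minimal point are good.** -/
theorem words (S : BSys D Bt l) {L : ℕ} {t s : Ten I L} (ht : t ∈ Rsp.RS Bt L)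
    (hE : ¬ Even L → t = 0)
    (hst : ∀ w, s w * s (D.τ ∘ w) = t w * t (D.τ ∘ w)) {k : I → ℂ} (hk : ∀ i, ‖k i‖ = 1)
    (hj : gT (Matrix.diagonal k) s = jT D s) (w : Fin L → I) (hw : s w ≠ 0) :
    ∃ e : ℤˣ, ∏ r, k (w r) = ((e : ℤ) : ℂ) ∧ Good D Bt w e := by
  have hkn : ‖∏ r, k (w r)‖ = 1 := by
    rw [norm_prod]
    exact Finset.prod_eq_one fun r _ => hk (w r)
  have hk0 : ∏ r, k (w r) ≠ 0 := fun h => by
    rw [h, norm_zero] at hkn
    exact zero_ne_one hkn
  have h1 : (∏ r, k (w r)) * s w = sg D (D.τ ∘ w) * (starRingEnd ℂ) (s (D.τ ∘ w)) := by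
    rw [← E1P.gT_diag, hj]
    rfl
  have h2 : s (D.τ ∘ w) ≠ 0 := by
    intro h
    rw [h, map_zero, mul_zero] at h1
    exact (mul_ne_zero hk0 hw) h1
  have h3 : t w * t (D.τ ∘ w) ≠ 0 := by
    rw [← hst]
    exact mul_ne_zero hw h2
  have hE' : Even L := by
    by_contra h
    apply h3
    rw [hE h, Pi.zero_apply, zero_mul]
  -- the value is real
  obtain ⟨ρ, hρ⟩ := val_real S hE' ht w
  have h4 : (∏ r, k (w r)) * (ρ : ℂ) = ((‖s (D.τ ∘ w)‖ ^ 2 : ℝ) : ℂ) := by
    rw [← hρ, ← hst]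
    have h5 : sg D (D.τ ∘ w) = sg D w := by rw [sg_tau S.odd, hE'.neg_one_pow, one_mul]
    rw [h5] at h1
    have h6 : s (D.τ ∘ w) * (starRingEnd ℂ) (s (D.τ ∘ w)) = ((‖s (D.τ ∘ w)‖ ^ 2 : ℝ) : ℂ) := by
      rw [Complex.mul_conj']
      push_cast
      rfl
    rw [← h6]
    linear_combination (sg D w * s (D.τ ∘ w)) * h1
      + (s (D.τ ∘ w) * (starRingEnd ℂ) (s (D.τ ∘ w))) * sg_sq (D := D) w
  have h5 : 0 < ‖s (D.τ ∘ w)‖ ^ 2 := by
    have := norm_pos_iff.2 h2
    positivity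
  have h6 : |ρ| = ‖s (D.τ ∘ w)‖ ^ 2 := by
    have h7 := congrArg norm h4
    rw [norm_mul, hkn, one_mul, Complex.norm_real, Complex.norm_real, Real.norm_eq_abs,
      Real.norm_eq_abs, abs_of_pos h5] at h7
    exact h7
  rcases abs_cases ρ with ⟨h7, h8⟩ | ⟨h7, h8⟩
  · refine ⟨1, ?_, t, ht, ρ, ?_, ?_⟩
    · have h9 : ((‖s (D.τ ∘ w)‖ ^ 2 : ℝ) : ℂ) = (ρ : ℂ) := by rw [← h6, h7]
      have h10 : (ρ : ℂ) ≠ 0 := by
        rw [← h9]
        exact Complex.ofReal_ne_zero.2 h5.ne'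
      rw [h9] at h4
      have h11 := mul_right_cancel₀ h10 (h4.trans (one_mul _).symm)
      rw [h11]
      norm_num
    · rw [← h7, h6]
      exact h5
    · rw [hρ]
      norm_num
  · refine ⟨-1, ?_, t, ht, -ρ, by linarith, ?_⟩
    · have h9 : ((‖s (D.τ ∘ w)‖ ^ 2 : ℝ) : ℂ) = -(ρ : ℂ) := by
        rw [← h6, h7]
        push_cast
        rfl
      have h10 : (ρ : ℂ) ≠ 0 := Complex.ofReal_ne_zero.2 h8.ne
      rw [h9] at h4
      have h11 := mul_right_cancel₀ h10 (h4.trans (neg_one_mul _).symm)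
      rw [h11]
      norm_num
    · rw [hρ]
      norm_num

/-- change of letters in lists -/
theorem GoodM.blks (S : BSys D Bt l) {e : ℤˣ} : ∀ (v w : List I) (m : Multiset I),
    v.map l = w.map l → GoodM D Bt (m + (v : Multiset I)) e → GoodM D Bt (m + (w : Multiset I)) e
  | [], [], _, _, h => h
  | [], _ :: _, _, h, _ => by simp at h
  | _ :: _, [], _, h, _ => by simp at h
  | i :: v, j :: w, m, h, hg => by
    rw [List.map_cons, List.map_cons, List.cons.injEq] at h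
    have h1 : ∀ (i : I) (v : List I), m + ((i :: v : List I) : Multiset I)
        = (i ::ₘ m) + (v : Multiset I) := by
      intro i v
      rw [← Multiset.cons_coe, Multiset.add_cons, Multiset.cons_add]
    have h2 : ∀ i : I, m + ((i :: v : List I) : Multiset I) = i ::ₘ (m + (v : Multiset I)) := by
      intro i
      rw [← Multiset.cons_coe, Multiset.add_cons]
    rw [h2] at hg
    have h3 := hg.rep S h.1
    rw [← h2, h1] at h3
    rw [h1]
    exact blks S v w _ h.2 h3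

/-- **The calculus of good words.** -/
theorem calc_good (S : BSys D Bt l) :
    Calc D.τ l fun e v => GoodM D Bt (v : Multiset I) e where
  nil := goodM_zero S
  perm := fun e v w h hg => by
    rw [← Multiset.coe_eq_coe.2 h]
    exact hg
  app := fun e d v w hv hw => by
    rw [← Multiset.coe_add]
    exact hv.add S hw
  neg := fun e v h => by
    rw [← Multiset.map_coe]
    exact h.tau S
  pair := fun i => goodM_pair S i
  blk := fun e v w h hg => by
    have h1 := GoodM.blks S v w 0 h (by rwa [zero_add])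
    rwa [zero_add] at h1
  can := fun e i v h => by
    rw [← Multiset.cons_coe, ← Multiset.cons_coe] at h
    exact h.cancel S
  four := fun e v hv h => h.sign S (by rwa [Multiset.coe_card])

/-- **Row W1X.** -/
theorem w1x : W1XStatement := by
  intro I Λ _ _ _ D At Bt l Γ β _ lb b hC hF m
  obtain ⟨ι, hι, len, t, s, x, k, hL, hst⟩ := w1b D At Bt l Γ lb b hC m
  have S : BSys D Bt l := bsys hC.rsys hC.odd hC.typ_eq hC.tau hF
  refine ⟨ι, hι, len, t, s, x, k, hL, fun e v => GoodM D Bt (v : Multiset I) e, calc_good S,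
    fun i w hw => ?_⟩
  have hkn : ∀ i, ‖k i‖ = 1 := by
    intro i
    have h1 := congrFun (congrFun hL.lvl.cpt.2 i) i
    rw [Matrix.mul_diagonal, Matrix.conjTranspose_apply, Matrix.diagonal_apply_eq,
      Matrix.one_apply_eq] at h1
    have h2 : ((‖k i‖ ^ 2 : ℝ) : ℂ) = 1 := by
      rw [← h1, mul_comm, Complex.ofReal_pow]
      exact (Complex.mul_conj' (k i)).symm
    have h3 : ‖k i‖ ^ 2 = 1 := by exact_mod_cast h2
    have h4 : (0 : ℝ) ≤ ‖k i‖ := norm_nonneg _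
    nlinarith
  obtain ⟨e, h1, h2⟩ := words S (Rsp.mem_RS (hC.sub _ _ (hL.lvl.mem i)))
    (fun h => Six.odd_zero hC.odd (Nat.not_even_iff_odd.1 h) (hC.sys.even _ _ (hL.lvl.mem i)))
    (hst i) hkn (congrFun hL.lvl.key i) w hw
  refine ⟨e, ⟨len i, w, ?_, h2⟩, ?_⟩
  · rw [Fin.univ_val_map]
  · rw [h1]
    push_cast
    rfl

end Pool.Agent.Lib.MP_361a6f_ag.FL.E5
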