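import Pool.Agent.Lib.MP_361a6f_ag.FL.E5.Defs

/-!
# Row W2 of Theorem E5: the splitting of the stabiliser along the classes of moves
-/

open Filter Topology

namespace Pool.Agent.Lib.MP_361a6f_ag.FL.E

namespace W2

variable {I : Type} {τ : I → I} {a : I → ℂ} {G : ℤˣ → List I → Prop}

/-- the calculus for multisets -/
def GM (G : ℤˣ → List I → Prop) (ε : ℤˣ) (m : Multiset I) : Prop := G ε m.toList

theorem gm_coe (h : Calc τ a G) (ε : ℤˣ) (v : List I) : GM G ε (v : Multiset I) ↔ G ε v := by
  have hp : List.Perm (v : Multiset I).toList v := by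
    rw [← Multiset.coe_eq_coe, Multiset.coe_toList]
  exact ⟨fun h1 => h.perm _ _ _ hp h1, fun h1 => h.perm _ _ _ hp.symm h1⟩

theorem gm_app (h : Calc τ a G) {ε δ : ℤˣ} {m n : Multiset I} (h1 : GM G ε m) (h2 : GM G δ n) :
    GM G (ε * δ) (m + n) := by
  induction m using Quotient.inductionOn with
  | h v =>
    induction n using Quotient.inductionOn with
    | h w =>
      have e1 := (gm_coe h ε v).1 h1
      have e2 := (gm_coe h δ w).1 h2
      have e3 := (gm_coe h (ε * δ) (v ++ w)).2 (h.app _ _ _ _ e1 e2)
      simpa using e3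

theorem gm_neg (h : Calc τ a G) {ε : ℤˣ} {m : Multiset I} (h1 : GM G ε m) :
    GM G ε (m.map τ) := by
  induction m using Quotient.inductionOn with
  | h v =>
    have e1 := (gm_coe h ε v).1 h1
    have e3 := (gm_coe h ε (v.map τ)).2 (h.neg _ _ e1)
    simpa using e3

theorem gm_can (h : Calc τ a G) {ε : ℤˣ} {m : Multiset I} (i : I)
    (h1 : GM G ε ({i} + {τ i} + m)) : GM G ε m := by
  induction m using Quotient.inductionOn with
  | h v =>
    have e0 : ({i} + {τ i} + (v : Multiset I) : Multiset I)
        = ((i :: τ i :: v : List I) : Multiset I) := by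
      rw [add_assoc, Multiset.singleton_add, Multiset.singleton_add]
      rfl
    have h1' : GM G ε ({i} + {τ i} + (v : Multiset I)) := h1
    rw [e0] at h1'
    exact (gm_coe h ε v).2 (h.can _ _ _ ((gm_coe h ε _).1 h1'))

theorem gm_pair (h : Calc τ a G) (i : I) : GM G 1 ({i} + {τ i}) := by
  have e := (gm_coe h 1 [i, τ i]).2 (h.pair i)
  have e0 : ({i} + {τ i} : Multiset I) = (([i, τ i] : List I) : Multiset I) := by
    rfl
  rw [e0]
  exact e

theorem gm_cans (h : Calc τ a G) {ε : ℤˣ} (n : Multiset I) : ∀ {m : Multiset I},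
    GM G ε (n + n.map τ + m) → GM G ε m := by
  induction n using Multiset.induction_on with
  | empty => intro m h1; simpa using h1
  | cons i n ih =>
    intro m h1
    apply ih
    apply gm_can h i
    have e0 : (i ::ₘ n + (i ::ₘ n).map τ + m : Multiset I)
        = {i} + {τ i} + (n + n.map τ + m) := by
      rw [Multiset.map_cons, ← Multiset.singleton_add, ← Multiset.singleton_add]
      abel
    rw [← e0]
    exact h1

/-- the multiset of the word `v` with one entry changed -/
theorem upd {L : ℕ} (v : Fin L → I) (q : Fin L) (l : I) :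
    ((List.ofFn (Function.update v q l) : List I) : Multiset I) + {v q}
      = ((List.ofFn v : List I) : Multiset I) + {l} := by
  classical
  have e0 : (Finset.univ : Finset (Fin L)).val
      = q ::ₘ ((Finset.univ : Finset (Fin L)).val.erase q) :=
    (Multiset.cons_erase (Finset.mem_univ q : q ∈ (Finset.univ : Finset (Fin L)).val)).symm
  rw [← Fin.univ_val_map, ← Fin.univ_val_map, e0, Multiset.map_cons, Multiset.map_cons]
  have e1 : Multiset.map (Function.update v q l) ((Finset.univ : Finset (Fin L)).val.erase q)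
      = Multiset.map v ((Finset.univ : Finset (Fin L)).val.erase q) := by
    apply Multiset.map_congr rfl
    intro x hx
    have hx' : x ≠ q := ((Multiset.Nodup.mem_erase_iff (Finset.nodup _)).1 hx).1
    rw [Function.update_of_ne hx']
  rw [e1, Function.update_self, ← Multiset.singleton_add, ← Multiset.singleton_add]
  abel

/-- two changes of letters at the same word are equivalent -/
theorem link (h : Calc τ a G) (hτ : ∀ i, τ (τ i) = i) {L : ℕ} (v : Fin L → I) (q q' : Fin L)
    (l l' : I) {ε δ : ℤˣ} (h1 : G ε (List.ofFn (Function.update v q l)))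
    (h2 : G δ (List.ofFn (Function.update v q' l'))) :
    GM G 1 ({l} + {τ (v q)} + {v q'} + {τ l'}) := by
  have g1 : GM G ε (((List.ofFn (Function.update v q l) : List I) : Multiset I)) :=
    (gm_coe h _ _).2 h1
  have g2 := gm_neg h ((gm_coe h _ _).2 h2)
  have p1 := gm_pair h (v q)
  have p2 := gm_pair h (v q')
  have g3 := gm_app h (gm_app h g1 g2) (gm_app h p1 p2)
  have e2 := congrArg (Multiset.map τ) (upd v q' l')
  rw [Multiset.map_add, Multiset.map_add, Multiset.map_singleton, Multiset.map_singleton] at e2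
  have e3 : ((List.ofFn (Function.update v q l) : List I) : Multiset I)
      + Multiset.map τ ((List.ofFn (Function.update v q' l') : List I) : Multiset I)
      + ({v q} + {τ (v q)} + ({v q'} + {τ (v q')}))
      = ((List.ofFn v : List I) : Multiset I)
        + Multiset.map τ ((List.ofFn v : List I) : Multiset I)
        + ({l} + {τ (v q)} + {v q'} + {τ l'}) := by
    calc _ = (((List.ofFn (Function.update v q l) : List I) : Multiset I) + {v q})
          + (Multiset.map τ ((List.ofFn (Function.update v q' l') : List I) : Multiset I)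
            + {τ (v q')}) + ({τ (v q)} + {v q'}) := by abel
      _ = (((List.ofFn v : List I) : Multiset I) + {l})
          + (Multiset.map τ ((List.ofFn v : List I) : Multiset I)
            + {τ l'}) + ({τ (v q)} + {v q'}) := by rw [upd v q l, e2]
      _ = _ := by abel
  rw [e3] at g3
  have g4 := gm_cans h _ g3
  have e4 : ({l} + {τ (v q)} + {v q'} + {τ l'} : Multiset I)
      = (([l, τ (v q), v q', τ l'] : List I) : Multiset I) := by rfl
  have g5 : ε * δ * (1 * 1) = 1 := by
    rw [e4] at g4
    exact h.four _ _ (by simp) ((gm_coe h _ _).1 g4)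
  rw [g5] at g4
  exact g4

/-- the moves are equivalent to `j0 → i0` together -/
theorem move (h : Calc τ a G) (hτ : ∀ i, τ (τ i) = i) {i0 j0 i j i' j' : I}
    (h1 : G 1 [j0, τ i0, i, τ j]) (h2 : GM G 1 ({j} + {τ i} + {i'} + {τ j'})) :
    G 1 [j0, τ i0, i', τ j'] := by
  have g1 : GM G 1 ({j0} + {τ i0} + {i} + {τ j}) := by
    have e4 : ({j0} + {τ i0} + {i} + {τ j} : Multiset I)
        = (([j0, τ i0, i, τ j] : List I) : Multiset I) := by rfl
    rw [e4]
    exact (gm_coe h _ _).2 h1
  have g2 := gm_app h g1 h2
  have e5 : ({j0} + {τ i0} + {i} + {τ j} + ({j} + {τ i} + {i'} + {τ j'}) : Multiset I)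
      = {i} + {τ i} + ({j} + {τ j} + ({j0} + {τ i0} + {i'} + {τ j'})) := by abel
  rw [e5, one_mul] at g2
  have g3 := gm_can h _ (gm_can h _ g2)
  have e4 : ({j0} + {τ i0} + {i'} + {τ j'} : Multiset I)
      = (([j0, τ i0, i', τ j'] : List I) : Multiset I) := by rfl
  rw [e4] at g3
  exact (gm_coe h _ _).1 g3

end W2

open Classical in
theorem w2 : W2Statement := by
  intro I Λ ι _ _ _ _ len D s a G hG hs A hA i0 j0
  obtain ⟨⟨hA1, hA2⟩, hA3⟩ := hA
  have hval : ∀ i j, mvR D.τ G i0 j0 A i j
      = if G 1 [j0, D.τ i0, i, D.τ j] then A i j else 0 := fun i j => rfl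
  refine ⟨⟨?_, ?_⟩, ?_⟩
  · intro i j hij
    rw [hval, hA1 i j hij]
    simp
  · have key : ∀ (B : Matrix I I ℂ) (i j : I), (B.transpose * Psi D + Psi D * B) i j
        = B (D.τ j) i * D.s (D.τ j) + D.s i * B (D.τ i) j := by
      intro B i j
      rw [Matrix.add_apply, Matrix.mul_apply, Matrix.mul_apply]
      congr 1
      · rw [Finset.sum_eq_single (D.τ j)]
        · simp [Psi, Matrix.transpose_apply, D.τ_τ]
        · intro k _ hk
          have : ¬ (j = D.τ k) := by
            intro h
            apply hk
            rw [h, D.τ_τ]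
          simp [Psi, this]
        · intro h; exact absurd (Finset.mem_univ _) h
      · rw [Finset.sum_eq_single (D.τ i)]
        · simp [Psi]
        · intro k _ hk
          simp [Psi, hk]
        · intro h; exact absurd (Finset.mem_univ _) h
    ext i j
    rw [key, hval, hval]
    have hiff : G 1 [j0, D.τ i0, D.τ j, D.τ i] ↔ G 1 [j0, D.τ i0, D.τ i, D.τ j] := by
      have hp : List.Perm [j0, D.τ i0, D.τ j, D.τ i] [j0, D.τ i0, D.τ i, D.τ j] :=
        List.Perm.cons _ (List.Perm.cons _ (List.Perm.swap _ _ _))
      exact ⟨fun h => hG.perm _ _ _ hp h, fun h => hG.perm _ _ _ hp.symm h⟩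
    have e := congrFun (congrFun hA2 i) j
    rw [key] at e
    by_cases hc : G 1 [j0, D.τ i0, D.τ i, D.τ j]
    · rw [if_pos hc, if_pos (hiff.2 hc)]
      exact e
    · rw [if_neg hc, if_neg (fun h => hc (hiff.1 h))]
      simp
  · funext t v
    have e := congrFun (congrFun hA3 t) v
    change aT A (s t) v = 0 at e
    change aT (mvR D.τ G i0 j0 A) (s t) v = 0
    by_cases hex : ∃ (q : Fin (len t)) (l : I), s t (Function.update v q l) ≠ 0 ∧
        G 1 [j0, D.τ i0, v q, D.τ l]
    · obtain ⟨q, l, hne, hq⟩ := hex
      rw [← e]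
      unfold aT
      apply Finset.sum_congr rfl
      intro q' _
      apply Finset.sum_congr rfl
      intro l' _
      by_cases hz : s t (Function.update v q' l') = 0
      · rw [hz]; simp
      · obtain ⟨ε, hε⟩ := hs t _ hne
        obtain ⟨δ, hδ⟩ := hs t _ hz
        have hl := W2.link hG D.τ_τ v q q' l l' hε hδ
        have hm := W2.move hG D.τ_τ hq hl
        rw [hval, if_pos hm]
    · unfold aT
      apply Finset.sum_eq_zero
      intro q' _
      apply Finset.sum_eq_zero
      intro l' _
      by_cases hz : s t (Function.update v q' l') = 0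
      · rw [hz]; simp
      · rw [hval, if_neg (fun h => hex ⟨q', l', hz, h⟩)]
        simp

end Pool.Agent.Lib.MP_361a6f_ag.FL.E
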